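import Mathlib

/-!
# Families of bivariate functions whose pairwise intersection curves are finite graphs
-/

set_option autoImplicit false

open Set Topology

namespace Run7.h605

/-- a closure preserving family of sets -/
def CP {X : Type*} [TopologicalSpace X] (F : Set (Set X)) : Prop :=
  ∀ G ⊆ F, closure (⋃₀ G) ⊆ ⋃ B ∈ G, closure B

theorem CP.mono {X : Type*} [TopologicalSpace X] {F F' : Set (Set X)} (h : CP F)
    (hF : F' ⊆ F) : CP F' := fun G hG => h G (hG.trans hF)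

theorem CP.of_finite {X : Type*} [TopologicalSpace X] {F : Set (Set X)} (h : F.Finite) :
    CP F := by
  intro G hG
  rw [sUnion_eq_biUnion, (h.subset hG).closure_biUnion]

theorem CP.union {X : Type*} [TopologicalSpace X] {F F' : Set (Set X)} (h : CP F)
    (h' : CP F') : CP (F ∪ F') := by
  intro G hG p hp
  have h1 : ⋃₀ G = ⋃₀ (G ∩ F) ∪ ⋃₀ (G ∩ F') := by
    rw [← sUnion_union, ← inter_union_distrib_left, inter_eq_left.2 hG]
  rw [h1, closure_union] at hp
  rcases hp with hp | hp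
  · have := h _ inter_subset_right hp
    simp only [mem_iUnion, exists_prop] at this ⊢
    obtain ⟨B, hB, hpB⟩ := this
    exact ⟨B, hB.1, hpB⟩
  · have := h' _ inter_subset_right hp
    simp only [mem_iUnion, exists_prop] at this ⊢
    obtain ⟨B, hB, hpB⟩ := this
    exact ⟨B, hB.1, hpB⟩

theorem CP.isClosed {X : Type*} [TopologicalSpace X] {F : Set (Set X)} (h : CP F) :
    IsClosed (⋃ B ∈ F, closure B) := by
  have h1 : (⋃ B ∈ F, closure B) = closure (⋃₀ F) := by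
    refine Subset.antisymm ?_ (h F Subset.rfl)
    intro p hp
    simp only [mem_iUnion, exists_prop] at hp
    obtain ⟨B, hB, hpB⟩ := hp
    exact closure_mono (subset_sUnion_of_mem hB) hpB
  rw [h1]
  exact isClosed_closure

theorem CP.biUnion {X ι : Type*} [TopologicalSpace X] {I : Set ι} (hI : I.Finite)
    {F : ι → Set (Set X)} (h : ∀ i ∈ I, CP (F i)) : CP (⋃ i ∈ I, F i) := by
  intro G hG p hp
  have h1 : ⋃₀ G ⊆ ⋃ i ∈ I, ⋃₀ (G ∩ F i) := by
    rintro q ⟨B, hB, hq⟩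
    have := hG hB
    simp only [mem_iUnion, exists_prop] at this ⊢
    obtain ⟨i, hi, hBi⟩ := this
    exact ⟨i, hi, B, ⟨hB, hBi⟩, hq⟩
  have h2 := closure_mono h1 hp
  rw [hI.closure_biUnion] at h2
  simp only [mem_iUnion, exists_prop] at h2
  obtain ⟨i, hi, h3⟩ := h2
  have h4 := h i hi _ inter_subset_right h3
  simp only [mem_iUnion, exists_prop] at h4 ⊢
  obtain ⟨B, hB, hpB⟩ := h4
  exact ⟨B, hB.1, hpB⟩

/-- a properly embedded open arc with those of its ends that exist -/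
structure Arc where
  g : ℝ → ℝ × ℝ
  D : Set ℝ
  sub : Ioo (0 : ℝ) 1 ⊆ D
  sup : D ⊆ Icc (0 : ℝ) 1
  cont : ContinuousOn g D
  inj : InjOn g (Ioo 0 1)
  proper : ∀ C : Set (ℝ × ℝ), IsCompact C → IsCompact (D ∩ g ⁻¹' C)

/-- the points at which all functions of `Q` agree -/
def T {ι : Type} (f : ι → ℝ × ℝ → ℝ) (Q : Finset ι) : Set (ℝ × ℝ) :=
  {p | ∀ x ∈ Q, ∀ y ∈ Q, f x p = f y p}

/-- the points at which the maximum over `P` is attained at least twice -/
def U {ι : Type} (f : ι → ℝ × ℝ → ℝ) (P : Finset ι) : Set (ℝ × ℝ) :=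
  {p | ∃ x ∈ P, ∃ y ∈ P, x ≠ y ∧ f x p = f y p ∧ ∀ z ∈ P, f z p ≤ f x p}

open Classical in
/-- the functions of `R` outside `P` which go below the maximum over `P` somewhere on `X` -/
noncomputable def cr {ι : Type} (f : ι → ℝ × ℝ → ℝ) (R P : Finset ι) (X : Set (ℝ × ℝ)) :
    Finset ι :=
  R.filter (fun d => d ∉ P ∧ ∃ p ∈ X, ∃ x ∈ P, f d p ≤ f x p)

/-- the standing assumptions -/
structure Setup (ι : Type) (s t : ℕ) where
  f : ι → ℝ × ℝ → ℝ
  cont : ∀ i, Continuous (f i)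
  quad : ∀ a b c d : ι, a ≠ b → a ≠ c → a ≠ d → b ≠ c → b ≠ d → c ≠ d → ∀ p,
    f a p = f b p → f a p = f c p → f a p = f d p → False
  triple : ∀ Q : Finset ι, Q.card = 3 → (T f Q).encard ≤ s
  S : ι → ι → Finset (ℝ × ℝ)
  Ssymm : ∀ i j, S i j = S j i
  Scard : ∀ i j, i ≠ j → (S i j).card ≤ t
  arcs : ι → ι → Set Arc
  arcsymm : ∀ i j, arcs i j = arcs j i
  cp : ∀ i j, i ≠ j → ∀ A ⊆ arcs i j, closure (⋃ α ∈ A, α.g '' Ioo 0 1) ⊆
    ⋃ α ∈ A, closure (α.g '' Ioo 0 1)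
  cover : ∀ i j, i ≠ j → ∀ p,
    f i p = f j p ↔ (p ∈ S i j ∨ ∃ α ∈ arcs i j, ∃ τ ∈ Ioo (0 : ℝ) 1, α.g τ = p)
  disjS : ∀ i j, i ≠ j → ∀ α ∈ arcs i j, ∀ τ ∈ Ioo (0 : ℝ) 1, α.g τ ∉ S i j
  disj : ∀ i j, i ≠ j → ∀ α ∈ arcs i j, ∀ β ∈ arcs i j, ∀ τ ∈ Ioo (0 : ℝ) 1,
    ∀ τ' ∈ Ioo (0 : ℝ) 1, α.g τ = β.g τ' → α = β
  ends : ∀ i j, i ≠ j → ∀ α ∈ arcs i j, ∀ e ∈ α.D, e ∉ Ioo (0 : ℝ) 1 → α.g e ∈ S i j
  comps : ∀ e : Finset ι, e.card = 2 →
    {C : Set (ℝ × ℝ) | ∃ p ∈ T f e, C = connectedComponentIn (T f e) p}.encard ≤ t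

section basic

variable {ι : Type} {f : ι → ℝ × ℝ → ℝ}

theorem mem_cr {R P : Finset ι} {X : Set (ℝ × ℝ)} {d : ι} :
    d ∈ cr f R P X ↔ d ∈ R ∧ d ∉ P ∧ ∃ p ∈ X, ∃ x ∈ P, f d p ≤ f x p := by
  classical
  unfold cr
  rw [Finset.mem_filter]

theorem cr_mono {R P : Finset ι} {X Y : Set (ℝ × ℝ)} (h : X ⊆ Y) : cr f R P X ⊆ cr f R P Y := by
  intro d hd
  rw [mem_cr] at hd ⊢
  obtain ⟨h1, h2, p, hp, h3⟩ := hd
  exact ⟨h1, h2, p, h hp, h3⟩

theorem cr_sub {R P : Finset ι} {X : Set (ℝ × ℝ)} : cr f R P X ⊆ R := by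
  intro d hd
  exact (mem_cr.1 hd).1

theorem cr_sub_sdiff [DecidableEq ι] {R P : Finset ι} {X : Set (ℝ × ℝ)} :
    cr f R P X ⊆ R \ P := by
  intro d hd
  rw [Finset.mem_sdiff]
  exact ⟨(mem_cr.1 hd).1, (mem_cr.1 hd).2.1⟩

theorem T_closed (hc : ∀ i, Continuous (f i)) (Q : Finset ι) : IsClosed (T f Q) := by
  have : T f Q = ⋂ x ∈ Q, ⋂ y ∈ Q, {p | f x p = f y p} := by
    ext p
    simp only [T, mem_iInter, mem_ofPred_eq]
  rw [this]
  exact isClosed_biInter (fun x _ => isClosed_biInter (fun y _ => isClosed_eq (hc x) (hc y)))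

theorem U_closed (hc : ∀ i, Continuous (f i)) (P : Finset ι) : IsClosed (U f P) := by
  classical
  have : U f P = ⋃ x ∈ P, ⋃ y ∈ P.filter (fun y => x ≠ y),
      ({p | f x p = f y p} ∩ ⋂ z ∈ P, {p | f z p ≤ f x p}) := by
    ext p
    simp only [U, mem_iUnion, mem_ofPred_eq, mem_inter_iff, mem_iInter, Finset.mem_filter,
      exists_prop]
    constructor
    · rintro ⟨x, hx, y, hy, hxy, h1, h2⟩
      exact ⟨x, hx, y, ⟨hy, hxy⟩, h1, h2⟩
    · rintro ⟨x, hx, y, ⟨hy, hxy⟩, h1, h2⟩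
      exact ⟨x, hx, y, hy, hxy, h1, h2⟩
  rw [this]
  refine (Finset.finite_toSet P).isClosed_biUnion (fun x _ => ?_)
  refine (Finset.finite_toSet _).isClosed_biUnion (fun y _ => ?_)
  exact (isClosed_eq (hc x) (hc y)).inter
    (isClosed_biInter (fun z _ => isClosed_le (hc z) (hc x)))

theorem T_sub_U {P : Finset ι} (hP : 2 ≤ P.card) : T f P ⊆ U f P := by
  intro p hp
  obtain ⟨x, hx, y, hy, hxy⟩ := Finset.one_lt_card.1 (by omega : 1 < P.card)
  exact ⟨x, hx, y, hy, hxy, hp x hx y hy, fun z hz => (hp z hz x hx).le⟩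

/-- representation of a point of the upper graph of a triple -/
theorem U_rep [DecidableEq ι] {P : Finset ι} (hP : P.card = 3) {p : ℝ × ℝ} (hp : p ∈ U f P) :
    ∃ x y z, x ≠ y ∧ x ≠ z ∧ y ≠ z ∧ P = {x, y, z} ∧ f x p = f y p ∧ f z p ≤ f x p := by
  obtain ⟨x, hx, y, hy, hxy, h1, h2⟩ := hp
  have h3 : ((P.erase x).erase y).card = 1 := by
    rw [Finset.card_erase_of_mem (Finset.mem_erase.2 ⟨hxy.symm, hy⟩), Finset.card_erase_of_mem hx,
      hP]
  obtain ⟨z, hz⟩ := Finset.card_eq_one.1 h3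
  have hz' : z ∈ (P.erase x).erase y := by rw [hz]; simp
  simp only [Finset.mem_erase] at hz'
  refine ⟨x, y, z, hxy, hz'.2.1.symm, hz'.1.symm, ?_, h1, h2 z hz'.2.2⟩
  ext w
  constructor
  · intro hw
    by_cases h4 : w = x
    · simp [h4]
    by_cases h5 : w = y
    · simp [h5]
    have : w ∈ (P.erase x).erase y := by simp [h4, h5, hw]
    rw [hz] at this
    simp only [Finset.mem_singleton] at this
    simp [this]
  · intro hw
    simp only [Finset.mem_insert, Finset.mem_singleton] at hw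
    rcases hw with rfl | rfl | rfl
    · exact hx
    · exact hy
    · exact hz'.2.2

/-- if the maximum over `P` is not attained twice on a preconnected set then one function of `P`
is the strict maximum on the whole set -/
theorem strict_max [DecidableEq ι] (hc : ∀ i, Continuous (f i)) {P : Finset ι} (hP : P.Nonempty)
    {J : Set (ℝ × ℝ)} (hJ : IsPreconnected J) (hJU : Disjoint J (U f P)) :
    ∃ b ∈ P, ∀ p ∈ J, ∀ x ∈ P, x ≠ b → f x p < f b p := by
  by_cases hne : J.Nonempty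
  swap
  · obtain ⟨b, hb⟩ := hP
    rw [not_nonempty_iff_eq_empty] at hne
    exact ⟨b, hb, by simp [hne]⟩
  obtain ⟨p0, hp0⟩ := hne
  obtain ⟨b, hb, hbmax⟩ := Finset.exists_max_image P (fun x => f x p0) hP
  refine ⟨b, hb, ?_⟩
  have hA : IsOpen {p | ∀ x ∈ P.erase b, f x p < f b p} := by
    have : {p | ∀ x ∈ P.erase b, f x p < f b p} = ⋂ x ∈ P.erase b, {p | f x p < f b p} := by
      ext p
      simp only [mem_iInter, mem_ofPred_eq]
    rw [this]
    exact (Finset.finite_toSet _).isOpen_biInter (fun x _ => isOpen_lt (hc x) (hc b))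
  have hA' : IsOpen {p | ∃ x ∈ P.erase b, f b p < f x p} := by
    have : {p | ∃ x ∈ P.erase b, f b p < f x p} = ⋃ x ∈ P.erase b, {p | f b p < f x p} := by
      ext p
      simp only [mem_iUnion, mem_ofPred_eq, exists_prop]
    rw [this]
    exact isOpen_biUnion (fun x _ => isOpen_lt (hc b) (hc x))
  have hcov : J ⊆ {p | ∀ x ∈ P.erase b, f x p < f b p} ∪ {p | ∃ x ∈ P.erase b, f b p < f x p} := by
    intro p hp
    by_contra hcon
    simp only [mem_union, mem_ofPred_eq, not_or, not_forall, not_exists, not_and, not_lt] at hcon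
    obtain ⟨⟨x, hx, h1⟩, h2⟩ := hcon
    refine disjoint_left.1 hJU hp ?_
    refine ⟨b, hb, x, Finset.mem_of_mem_erase hx, (Finset.ne_of_mem_erase hx).symm, ?_, ?_⟩
    · exact le_antisymm h1 (h2 x hx)
    · intro z hz
      by_cases hzb : z = b
      · rw [hzb]
      · exact h2 z (Finset.mem_erase.2 ⟨hzb, hz⟩)
  have hsub : J ⊆ {p | ∀ x ∈ P.erase b, f x p < f b p} := by
    refine IsPreconnected.subset_left_of_subset_union hA hA' ?_ hcov ⟨p0, hp0, ?_⟩ hJ
    · rw [disjoint_left]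
      intro p hp1 hp2
      obtain ⟨x, hx, hlt⟩ := hp2
      exact absurd (hp1 x hx) (not_lt.2 hlt.le)
    · by_contra hcon
      simp only [mem_ofPred_eq, not_forall, not_lt] at hcon
      obtain ⟨x, hx, h1⟩ := hcon
      refine disjoint_left.1 hJU hp0 ?_
      exact ⟨b, hb, x, Finset.mem_of_mem_erase hx, (Finset.ne_of_mem_erase hx).symm,
        le_antisymm h1 (hbmax x (Finset.mem_of_mem_erase hx)), hbmax⟩
  intro p hp x hx hxb
  exact hsub hp x (Finset.mem_erase.2 ⟨hxb, hx⟩)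

end basic

namespace Setup

variable {ι : Type} {s t : ℕ} (M : Setup ι s t)

theorem eq_of_arc {i j : ι} (hij : i ≠ j) {α : Arc} (hα : α ∈ M.arcs i j) {τ : ℝ}
    (hτ : τ ∈ α.D) : M.f i (α.g τ) = M.f j (α.g τ) := by
  rw [M.cover i j hij]
  by_cases h : τ ∈ Ioo (0 : ℝ) 1
  · exact Or.inr ⟨α, hα, τ, h, rfl⟩
  · exact Or.inl (M.ends i j hij α hα τ hτ h)

/-- the level of a limit point of a set exceeds the crossing number of the set by at most one -/
theorem level_closure {R P : Finset ι} {B : Set (ℝ × ℝ)} {w : ℝ × ℝ}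
    (hwU : w ∈ U M.f P) (hwB : w ∈ closure B) :
    (cr M.f R P {w}).card ≤ (cr M.f R P B).card + 1 := by
  classical
  obtain ⟨x, hx, y, hy, hxy, h1, h2⟩ := hwU
  have hsub : cr M.f R P {w} ⊆
      cr M.f R P B ∪ R.filter (fun d => d ∉ P ∧ M.f d w = M.f x w) := by
    intro d hd
    rw [mem_cr] at hd
    obtain ⟨hdR, hdP, p, hp, x', hx', hle⟩ := hd
    rw [mem_singleton_iff] at hp
    subst hp
    have hle' : M.f d p ≤ M.f x p := hle.trans (h2 x' hx')
    rcases hle'.lt_or_eq with hlt | heq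
    · rw [Finset.mem_union]
      left
      have hop : IsOpen {q | M.f d q < M.f x q} := isOpen_lt (M.cont d) (M.cont x)
      obtain ⟨q, hq1, hq2⟩ := mem_closure_iff.1 hwB _ hop hlt
      rw [mem_cr]
      have hq1' : M.f d q < M.f x q := hq1
      exact ⟨hdR, hdP, q, hq2, x, hx, hq1'.le⟩
    · rw [Finset.mem_union]
      right
      rw [Finset.mem_filter]
      exact ⟨hdR, hdP, heq⟩
  have hone : (R.filter (fun d => d ∉ P ∧ M.f d w = M.f x w)).card ≤ 1 := by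
    rw [Finset.card_le_one]
    intro a ha b hb
    rw [Finset.mem_filter] at ha hb
    by_contra hab
    refine M.quad x y a b hxy ?_ ?_ ?_ ?_ hab w h1 ha.2.2.symm hb.2.2.symm
    · rintro rfl; exact ha.2.1 hx
    · rintro rfl; exact hb.2.1 hx
    · rintro rfl; exact ha.2.1 hy
    · rintro rfl; exact hb.2.1 hy
  calc _ ≤ _ := Finset.card_le_card hsub
    _ ≤ _ := Finset.card_union_le _ _
    _ ≤ _ := Nat.add_le_add_left hone _

end Setup

/-- `g` restricted to the interval between `e` and `τ` (without `e`) lies in the upper graph of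
`P = {x, y, z}` on the curve of `x` and `y` -/
def IsRay {ι : Type} [DecidableEq ι] {s t : ℕ} (M : Setup ι s t) (P : Finset ι) (x y z : ι)
    (α : Arc) (e τ : ℝ) : Prop :=
  x ≠ y ∧ x ≠ z ∧ y ≠ z ∧ P = {x, y, z} ∧ α ∈ M.arcs x y ∧ e ∈ α.D ∧ τ ∈ Ioo (0 : ℝ) 1 ∧ τ ≠ e ∧
    ∀ τ' ∈ uIcc e τ, τ' ≠ e → M.f z (α.g τ') < M.f x (α.g τ')

/-- the part of the upper graph of `P` that is visible from `w` along single arcs -/
def Star {ι : Type} [DecidableEq ι] {s t : ℕ} (M : Setup ι s t) (P : Finset ι) (w : ℝ × ℝ) :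
    Set (ℝ × ℝ) :=
  {p | ∃ x y z α e τ, IsRay M P x y z α e τ ∧ α.g e = w ∧ α.g τ = p}

/-- some star at a point of low level is crossed by many functions -/
def Long {ι : Type} [DecidableEq ι] {s t : ℕ} (M : Setup ι s t) (R : Finset ι) (l k : ℕ)
    (P : Finset ι) : Prop :=
  ∃ w ∈ U M.f P, (cr M.f R P {w}).card ≤ l ∧ k ≤ (cr M.f R P (Star M P w)).card

open Classical in
/-- pairs of a triple `Q` of `R` and a common point of its three graphs of level at most `k` -/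
noncomputable def NF {ι : Type} {s t : ℕ} (M : Setup ι s t) (R : Finset ι) (k : ℕ) :
    Set (Finset ι × (ℝ × ℝ)) :=
  {q | q.1 ⊆ R ∧ q.1.card = 3 ∧ q.2 ∈ T M.f q.1 ∧ (cr M.f R q.1 {q.2}).card ≤ k}

end Run7.h605
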