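import Mathlib

/-!
# Real lemmas for the classification of non-compact one-dimensional manifolds
-/

set_option autoImplicit false

open Set Topology Filter

namespace Run7.h605

/-- injective continuous maps between intervals are open -/
theorem image_nhds {f : ℝ → ℝ} {a b x : ℝ} (hx : x ∈ Ioo a b) (hc : ContinuousOn f (Icc a b))
    (hi : InjOn f (Icc a b)) : f '' Ioo a b ∈ 𝓝 (f x) := by
  have hab : a ≤ b := (hx.1.trans hx.2).le
  have ha : a ∈ Icc a b := left_mem_Icc.2 hab
  have hb : b ∈ Icc a b := right_mem_Icc.2 hab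
  have hx' : x ∈ Icc a b := Ioo_subset_Icc_self hx
  rcases ContinuousOn.strictMonoOn_of_injOn_Icc' hab hc hi with h | h
  · exact mem_of_superset (Ioo_mem_nhds (h ha hx' hx.1) (h hx' hb hx.2))
      (intermediate_value_Ioo hab hc)
  · exact mem_of_superset (Ioo_mem_nhds (h hx' hb hx.2) (h ha hx' hx.1))
      (intermediate_value_Ioo' hab hc)

/-- extension of a bounded strictly monotone continuous function -/
theorem ext_mono {f : ℝ → ℝ} {c d B : ℝ} (hcd : c < d) (hc : ContinuousOn f (Ioo c d))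
    (hm : StrictMonoOn f (Ioo c d)) (hB : ∀ x ∈ Ioo c d, |f x| ≤ B) :
    ∃ f' : ℝ → ℝ, Continuous f' ∧ StrictMono f' ∧ EqOn f' f (Ioo c d) := by
  have hne : (Ioo c d).Nonempty := nonempty_Ioo.2 hcd
  have hba : BddAbove (f '' Ioo c d) := by
    refine ⟨B, ?_⟩
    rintro _ ⟨x, hx, rfl⟩
    exact (abs_le.1 (hB x hx)).2
  have hbb : BddBelow (f '' Ioo c d) := by
    refine ⟨-B, ?_⟩
    rintro _ ⟨x, hx, rfl⟩
    exact (abs_le.1 (hB x hx)).1
  have h1 := hm.monotoneOn.tendsto_nhdsWithin_Ioo_left hne hba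
  have h2 := hm.monotoneOn.tendsto_nhdsWithin_Ioo_right hne hbb
  set u := sSup (f '' Ioo c d) with hu
  set l := sInf (f '' Ioo c d) with hl
  set F := extendFrom (Ioo c d) f with hF
  have hFc : ContinuousOn F (Icc c d) := continuousOn_Icc_extendFrom_Ioo hc h2 h1
  have hFeq : ∀ x ∈ Ioo c d, F x = f x := fun x hx =>
    extendFrom_eq (subset_closure hx) ((hc x hx).tendsto)
  have hFd : F d = u := eq_lim_at_right_extendFrom_Ioo hcd h1
  have hFl : F c = l := eq_lim_at_left_extendFrom_Ioo hcd h2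
  have hlt : ∀ x ∈ Ioo c d, f x < u := by
    intro x hx
    obtain ⟨y, hxy, hyd⟩ := exists_between hx.2
    have hy : y ∈ Ioo c d := ⟨hx.1.trans hxy, hyd⟩
    exact (hm hx hy hxy).trans_le (le_csSup hba (mem_image_of_mem _ hy))
  have hgt : ∀ x ∈ Ioo c d, l < f x := by
    intro x hx
    obtain ⟨y, hcy, hyx⟩ := exists_between hx.1
    have hy : y ∈ Ioo c d := ⟨hcy, hyx.trans hx.2⟩
    exact (csInf_le hbb (mem_image_of_mem _ hy)).trans_lt (hm hy hx hyx)
  have hFm : StrictMonoOn F (Icc c d) := by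
    intro x hx y hy hxy
    by_cases hxc : x = c
    · by_cases hyd : y = d
      · rw [hxc, hyd, hFl, hFd]
        obtain ⟨z, hz⟩ := hne
        exact (hgt z hz).trans (hlt z hz)
      · have hy' : y ∈ Ioo c d := ⟨lt_of_le_of_lt hx.1 hxy, lt_of_le_of_ne hy.2 hyd⟩
        rw [hxc, hFl, hFeq y hy']
        exact hgt y hy'
    · have hx' : x ∈ Ioo c d := ⟨lt_of_le_of_ne hx.1 (Ne.symm hxc), hxy.trans_le hy.2⟩
      by_cases hyd : y = d
      · rw [hyd, hFd, hFeq x hx']
        exact hlt x hx'
      · have hy' : y ∈ Ioo c d := ⟨lt_of_le_of_lt hx.1 hxy, lt_of_le_of_ne hy.2 hyd⟩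
        rw [hFeq x hx', hFeq y hy']
        exact hm hx' hy' hxy
  have hle : c ≤ d := hcd.le
  refine ⟨fun y => F (projIcc c d hle y) + (y - projIcc c d hle y), ?_, ?_, ?_⟩
  · have h3 : Continuous (fun y => F (projIcc c d hle y)) := by
      have h4 : Continuous ((Icc c d).domRestrict F) := hFc.domRestrict
      exact h4.comp continuous_projIcc
    exact h3.add (continuous_id.sub (continuous_subtype_val.comp continuous_projIcc))
  · intro x y hxy
    have hp : (projIcc c d hle x : ℝ) ≤ projIcc c d hle y :=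
      monotone_projIcc hle hxy.le
    have hdist : (projIcc c d hle y : ℝ) - projIcc c d hle x ≤ y - x := by
      have e1 : (projIcc c d hle x : ℝ) = max c (min d x) := rfl
      have e2 : (projIcc c d hle y : ℝ) = max c (min d y) := rfl
      rw [e1, e2]
      have h5 : min d y ≤ min d x + (y - x) := by
        rcases le_total d x with h6 | h6
        · rw [min_eq_left h6]
          have := min_le_left d y
          linarith
        · rw [min_eq_right h6]
          have := min_le_right d y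
          linarith
      have h7 : max c (min d y) ≤ max c (min d x) + (y - x) := by
        apply max_le
        · have := le_max_left c (min d x)
          linarith
        · have := le_max_right c (min d x)
          linarith
      linarith
    show F (projIcc c d hle x) + (x - projIcc c d hle x) <
      F (projIcc c d hle y) + (y - projIcc c d hle y)
    rcases hp.lt_or_eq with hlt' | heq
    · have := hFm (projIcc c d hle x).2 (projIcc c d hle y).2 hlt'
      linarith
    · rw [heq]
      linarith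
  · intro y hy
    have h3 : (projIcc c d hle y : ℝ) = y := by
      rw [projIcc_of_mem hle (Ioo_subset_Icc_self hy)]
    show F (projIcc c d hle y) + (y - projIcc c d hle y) = f y
    rw [h3, hFeq y hy]
    ring

theorem ext_inj {f : ℝ → ℝ} {c d B : ℝ} (hcd : c < d) (hc : ContinuousOn f (Ioo c d))
    (hi : InjOn f (Ioo c d)) (hB : ∀ x ∈ Ioo c d, |f x| ≤ B) :
    ∃ f' : ℝ → ℝ, Continuous f' ∧ Function.Injective f' ∧ EqOn f' f (Ioo c d) := by
  rcases ContinuousOn.strictMonoOn_of_injOn_Ioo hcd hc hi with h | h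
  · obtain ⟨f', h1, h2, h3⟩ := ext_mono hcd hc h hB
    exact ⟨f', h1, h2.injective, h3⟩
  · have h' : StrictMonoOn (fun x => - f x) (Ioo c d) := fun x hx y hy hxy =>
      neg_lt_neg (h hx hy hxy)
    obtain ⟨f', h1, h2, h3⟩ := ext_mono hcd hc.neg h' (B := B)
      (fun x hx => by
        have := hB x hx
        rwa [← abs_neg] at this)
    refine ⟨fun x => - f' x, h1.neg, neg_injective.comp h2.injective, ?_⟩
    intro x hx
    show - f' x = f x
    rw [h3 hx]
    simp

/-- extension of a bounded injective continuous function on a convex open set of the line -/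
theorem ext_real {f : ℝ → ℝ} {T : Set ℝ} {B : ℝ} (hTo : IsOpen T) (hT : OrdConnected T)
    (hne : T.Nonempty) (hc : ContinuousOn f T) (hi : InjOn f T) (hB : ∀ x ∈ T, |f x| ≤ B) :
    ∃ (f' : ℝ → ℝ) (B' : ℝ), Continuous f' ∧ Function.Injective f' ∧ EqOn f' f T ∧
      ∀ x, |f' x| ≤ B' := by
  set T₁ : Set ℝ := Real.arctan '' T with hT1
  have hsubI : T₁ ⊆ Ioo (-(Real.pi / 2)) (Real.pi / 2) := by
    rintro _ ⟨x, -, rfl⟩
    exact ⟨Real.neg_pi_div_two_lt_arctan x, Real.arctan_lt_pi_div_two x⟩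
  have hne1 : T₁.Nonempty := hne.image _
  have htan : ∀ y ∈ T₁, Real.tan y ∈ T := by
    rintro _ ⟨x, hx, rfl⟩
    rwa [Real.tan_arctan]
  have hop : IsOpen T₁ := by
    rw [isOpen_iff_mem_nhds]
    rintro _ ⟨x, hx, rfl⟩
    obtain ⟨a, b, hab, hsub⟩ := (mem_nhds_iff_exists_Ioo_subset.1 (hTo.mem_nhds hx))
    obtain ⟨a', ha1, ha2⟩ := exists_between hab.1
    obtain ⟨b', hb1, hb2⟩ := exists_between hab.2
    have h1 : Icc a' b' ⊆ Ioo a b := fun y hy => ⟨ha1.trans_le hy.1, hy.2.trans_lt hb2⟩
    have h2 := image_nhds (f := Real.arctan) (a := a') (b := b') (x := x) ⟨ha2, hb1⟩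
      Real.continuous_arctan.continuousOn Real.arctan_injective.injOn
    exact mem_of_superset h2 (image_mono (Ioo_subset_Icc_self.trans (h1.trans hsub)))
  have hconn : IsConnected T₁ :=
    ⟨hne1, hT.isPreconnected.image _ Real.continuous_arctan.continuousOn⟩
  have hbb : BddBelow T₁ := ⟨_, fun y hy => (hsubI hy).1.le⟩
  have hba : BddAbove T₁ := ⟨_, fun y hy => (hsubI hy).2.le⟩
  have hsub1 := hconn.Ioo_csInf_csSup_subset hbb hba
  set c := sInf T₁ with hcdef
  set d := sSup T₁ with hddef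
  have hsub2 : T₁ ⊆ Ioo c d := by
    intro x hx
    obtain ⟨a, b, hab, hsub⟩ := (mem_nhds_iff_exists_Ioo_subset.1 (hop.mem_nhds hx))
    obtain ⟨a', ha1, ha2⟩ := exists_between hab.1
    obtain ⟨b', hb1, hb2⟩ := exists_between hab.2
    exact ⟨(csInf_le hbb (hsub ⟨ha1, ha2.trans hab.2⟩)).trans_lt ha2,
      hb1.trans_le (le_csSup hba (hsub ⟨hab.1.trans hb1, hb2⟩))⟩
  have hT1eq : T₁ = Ioo c d := Subset.antisymm hsub2 hsub1
  have hcd : c < d := by
    obtain ⟨x, hx⟩ := hne1
    exact (hsub2 hx).1.trans (hsub2 hx).2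
  have hc1 : ContinuousOn (f ∘ Real.tan) (Ioo c d) := by
    rw [← hT1eq]
    exact hc.comp (Real.continuousOn_tan_Ioo.mono hsubI) htan
  have hi1 : InjOn (f ∘ Real.tan) (Ioo c d) := by
    rw [← hT1eq]
    exact hi.comp (Real.injOn_tan.mono hsubI) htan
  obtain ⟨g, hg1, hg2, hg3⟩ := ext_inj hcd hc1 hi1 (B := B) (by
    intro x hx
    rw [← hT1eq] at hx
    exact hB _ (htan x hx))
  obtain ⟨B', hB'⟩ := (isCompact_Icc (a := -(Real.pi / 2)) (b := Real.pi / 2)).exists_bound_of_continuousOn
    hg1.continuousOn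
  refine ⟨g ∘ Real.arctan, B', hg1.comp Real.continuous_arctan, hg2.comp Real.arctan_injective,
    ?_, ?_⟩
  · intro x hx
    have h1 : Real.arctan x ∈ Ioo c d := by
      rw [← hT1eq]
      exact mem_image_of_mem _ hx
    show g (Real.arctan x) = f x
    rw [hg3 h1]
    show f (Real.tan (Real.arctan x)) = f x
    rw [Real.tan_arctan]
  · intro x
    exact hB' _ ⟨(Real.neg_pi_div_two_lt_arctan x).le, (Real.arctan_lt_pi_div_two x).le⟩

end Run7.h605
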