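import Mathlib
import Pool.Agent.Run7.h605.Line1

/-!
# Unions of open lines in a one-dimensional manifold
-/

set_option autoImplicit false

open Set Topology Filter Function

namespace Run7.h605

/-- locally homeomorphic to the line -/
def LocR (X : Type*) [TopologicalSpace X] : Prop :=
  ∀ x : X, ∃ φ : ℝ → X, IsOpenEmbedding φ ∧ x ∈ range φ

theorem exists_Icc_nhds {V : Set ℝ} {x : ℝ} (hV : V ∈ 𝓝 x) :
    ∃ a b, x ∈ Ioo a b ∧ Icc a b ⊆ V := by
  obtain ⟨a, b, hab, hsub⟩ := mem_nhds_iff_exists_Ioo_subset.1 hV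
  obtain ⟨a', ha1, ha2⟩ := exists_between hab.1
  obtain ⟨b', hb1, hb2⟩ := exists_between hab.2
  exact ⟨a', b', ⟨ha2, hb1⟩, fun y hy => hsub ⟨ha1.trans_le hy.1, hy.2.trans_lt hb2⟩⟩

theorem LocR.openEmb {X : Type*} [TopologicalSpace X] (hX : LocR X) {χ : ℝ → X}
    (hc : Continuous χ) (hi : Injective χ) : IsOpenEmbedding χ := by
  refine IsOpenEmbedding.of_continuous_injective_isOpenMap hc hi ?_
  refine IsOpenMap.of_nhds_le ?_
  intro x W hW
  rw [mem_map] at hW
  obtain ⟨φ, hφ, y, hy⟩ := hX (χ x)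
  have hV : χ ⁻¹' (range φ) ∈ 𝓝 x := by
    apply hc.continuousAt
    exact hφ.isOpen_range.mem_nhds ⟨y, hy⟩
  obtain ⟨a, b, hab, hsub⟩ := exists_Icc_nhds (Filter.inter_mem hW hV)
  set f : ℝ → ℝ := fun z => invFun φ (χ z) with hf
  have hφf : ∀ z ∈ Icc a b, φ (f z) = χ z := fun z hz => invFun_eq (hsub hz).2
  have hfc : ContinuousOn f (Icc a b) := by
    rw [hφ.isInducing.continuousOn_iff]
    exact hc.continuousOn.congr hφf
  have hfi : InjOn f (Icc a b) := by
    intro z hz w hw hzw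
    apply hi
    rw [← hφf z hz, ← hφf w hw, hzw]
  have h1 := image_nhds hab hfc hfi
  have h2 := hφ.isOpenMap.image_mem_nhds h1
  rw [hφf x (Ioo_subset_Icc_self hab)] at h2
  refine mem_of_superset h2 ?_
  rintro _ ⟨_, ⟨z, hz, rfl⟩, rfl⟩
  rw [hφf z (Ioo_subset_Icc_self hz)]
  exact (hsub (Ioo_subset_Icc_self hz)).1

theorem LocR.openEmb' {X : Type*} [TopologicalSpace X] (hX : LocR X) {F : X → ℝ}
    (hc : Continuous F) (hi : Injective F) : IsOpenEmbedding F := by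
  refine IsOpenEmbedding.of_continuous_injective_isOpenMap hc hi ?_
  refine IsOpenMap.of_nhds_le ?_
  intro x W hW
  rw [mem_map] at hW
  obtain ⟨φ, hφ, y, rfl⟩ := hX x
  obtain ⟨a, b, hab, hsub⟩ := exists_Icc_nhds (hφ.continuous.continuousAt hW)
  have h1 := image_nhds (f := F ∘ φ) hab (hc.comp hφ.continuous).continuousOn
    (hi.comp hφ.injective).injOn
  refine mem_of_superset h1 ?_
  rintro _ ⟨z, hz, rfl⟩
  exact hsub (Ioo_subset_Icc_self hz)

theorem reflect {X : Type*} [TopologicalSpace X] {φ : ℝ → X} (hφ : IsOpenEmbedding φ) :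
    IsOpenEmbedding (fun x => φ (-x)) := hφ.comp (Homeomorph.neg ℝ).isOpenEmbedding

theorem reflect_range {X : Type*} (φ : ℝ → X) : range (fun x => φ (-x)) = range φ := by
  ext p
  constructor
  · rintro ⟨x, rfl⟩
    exact ⟨-x, rfl⟩
  · rintro ⟨x, rfl⟩
    exact ⟨-x, by simp⟩

section

variable {X : Type*} [TopologicalSpace X] [T2Space X] {φ ψ : ℝ → X}

/-- the end lemma -/
theorem lemE (hφ : IsOpenEmbedding φ) (hψ : IsOpenEmbedding ψ) {c u0 τ0 : ℝ} (hcu : c < u0)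
    (h0 : φ τ0 = ψ u0) (hc : ψ c ∉ range φ) (hI : ∀ u ∈ Ioc c u0, ψ u ∈ range φ) :
    (ψ '' Ioc c u0 = φ '' Iic τ0) ∨ (ψ '' Ioc c u0 = φ '' Ici τ0) := by
  have hsub : ψ '' Ioc c u0 ⊆ range φ := by
    rintro _ ⟨u, hu, rfl⟩
    exact hI u hu
  set J := φ ⁻¹' (ψ '' Ioc c u0) with hJ
  have hJim : ψ '' Ioc c u0 = φ '' J := (image_preimage_eq_of_subset hsub).symm
  have hJc : IsPreconnected J :=
    (isPreconnected_Ioc.image _ hψ.continuous.continuousOn).preimage_of_isOpenMap hφ.injective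
      hφ.isOpenMap hsub
  have hJo : OrdConnected J := hJc.ordConnected
  set J' := φ ⁻¹' (ψ '' Ioo c u0) with hJ'
  have hJ'c : IsPreconnected J' :=
    (isPreconnected_Ioo.image _ hψ.continuous.continuousOn).preimage_of_isOpenMap hφ.injective
      hφ.isOpenMap ((image_mono Ioo_subset_Ioc_self).trans hsub)
  have hJ'o : OrdConnected J' := hJ'c.ordConnected
  have h0J : τ0 ∈ J := ⟨u0, ⟨hcu, le_rfl⟩, h0.symm⟩
  have h0J' : τ0 ∉ J' := by
    rintro ⟨u, hu, hu'⟩
    have : u = u0 := hψ.injective (hu'.trans h0)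
    exact hu.2.ne this
  have hJJ' : ∀ τ ∈ J, τ ≠ τ0 → τ ∈ J' := by
    rintro τ ⟨u, hu, hu'⟩ hne
    refine ⟨u, ⟨hu.1, lt_of_le_of_ne hu.2 ?_⟩, hu'⟩
    rintro rfl
    exact hne (hφ.injective (hu'.symm.trans h0.symm))
  have hJ'J : J' ⊆ J := preimage_mono (image_mono Ioo_subset_Ioc_self)
  -- unboundedness
  have hunb : ∀ a b : ℝ, ¬ J ⊆ Icc a b := by
    intro a b hab
    apply hc
    have h1 : IsClosed (φ '' Icc a b) := (isCompact_Icc.image hφ.continuous).isClosed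
    have h2 : ψ '' Ioc c u0 ⊆ φ '' Icc a b := by
      rw [hJim]
      exact image_mono hab
    have h3 : ψ c ∈ closure (ψ '' Ioc c u0) := by
      apply image_closure_subset_closure_image hψ.continuous
      refine ⟨c, ?_, rfl⟩
      rw [closure_Ioc hcu.ne]
      exact left_mem_Icc.2 hcu.le
    have h4 := closure_minimal h2 h1 h3
    exact image_subset_range _ _ h4
  by_cases hside : ∃ τ ∈ J, τ < τ0
  · left
    obtain ⟨τ1, h11, h12⟩ := hside
    have hup : ∀ τ ∈ J, τ ≤ τ0 := by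
      intro τ hτ
      by_contra hcon
      push Not at hcon
      have ha := hJJ' τ1 h11 h12.ne
      have hb := hJJ' τ hτ hcon.ne'
      exact h0J' (hJ'o.out ha hb ⟨h12.le, hcon.le⟩)
    rw [hJim]
    congr 1
    refine Subset.antisymm hup ?_
    intro τ hτ
    by_contra hcon
    apply hunb τ τ0
    intro σ hσ
    refine ⟨?_, hup σ hσ⟩
    by_contra hlt
    push Not at hlt
    exact hcon (hJo.out hσ h0J ⟨hlt.le, hτ⟩)
  · right
    push Not at hside
    rw [hJim]
    congr 1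
    refine Subset.antisymm hside ?_
    intro τ hτ
    by_contra hcon
    apply hunb τ0 τ
    intro σ hσ
    refine ⟨hside σ hσ, ?_⟩
    by_contra hlt
    push Not at hlt
    exact hcon (hJo.out h0J hσ ⟨hτ, hlt.le⟩)

theorem lemE' (hφ : IsOpenEmbedding φ) (hψ : IsOpenEmbedding ψ) {c u0 τ0 : ℝ} (hcu : u0 < c)
    (h0 : φ τ0 = ψ u0) (hc : ψ c ∉ range φ) (hI : ∀ u ∈ Ico u0 c, ψ u ∈ range φ) :
    (ψ '' Ico u0 c = φ '' Iic τ0) ∨ (ψ '' Ico u0 c = φ '' Ici τ0) := by
  have h1 := lemE hφ (reflect hψ) (c := -c) (u0 := -u0) (τ0 := τ0) (by linarith)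
    (by simpa using h0) (by simpa using hc) (by
      intro u hu
      apply hI
      exact ⟨by linarith [hu.2], by linarith [hu.1]⟩)
  have h2 : (fun x => ψ (-x)) '' Ioc (-c) (-u0) = ψ '' Ico u0 c := by
    ext p
    constructor
    · rintro ⟨x, hx, rfl⟩
      exact ⟨-x, ⟨by linarith [hx.2], by linarith [hx.1]⟩, rfl⟩
    · rintro ⟨x, hx, rfl⟩
      exact ⟨-x, ⟨by linarith [hx.2], by linarith [hx.1]⟩, by simp⟩
  rwa [h2] at h1

omit [T2Space X] in
/-- last parameter before `u0` which is missing -/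
theorem last_missing (hφ : IsOpenEmbedding φ) (hψ : IsOpenEmbedding ψ) {c u0 : ℝ} (hcu : c < u0)
    (hc : ψ c ∉ range φ) (hu0 : ψ u0 ∈ range φ) :
    ∃ c', c ≤ c' ∧ c' < u0 ∧ ψ c' ∉ range φ ∧ ∀ u ∈ Ioc c' u0, ψ u ∈ range φ := by
  have hcl : IsClosed {u | ψ u ∉ range φ} := by
    have := (hφ.isOpen_range.preimage hψ.continuous).isClosed_compl
    exact this
  have hcomp : IsCompact (Icc c u0 ∩ {u | ψ u ∉ range φ}) := isCompact_Icc.inter_right hcl
  obtain ⟨c', hc', hmax⟩ := hcomp.exists_isGreatest ⟨c, left_mem_Icc.2 hcu.le, hc⟩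
  refine ⟨c', hc'.1.1, lt_of_le_of_ne hc'.1.2 ?_, hc'.2, ?_⟩
  · rintro rfl
    exact hc'.2 hu0
  · intro u hu
    by_contra hcon
    exact absurd (hmax ⟨⟨hc'.1.1.trans hu.1.le, hu.2⟩, hcon⟩) (not_le.2 hu.1)

omit [T2Space X] in
/-- first parameter after `u0` which is missing -/
theorem first_missing (hφ : IsOpenEmbedding φ) (hψ : IsOpenEmbedding ψ) {c u0 : ℝ} (hcu : u0 < c)
    (hc : ψ c ∉ range φ) (hu0 : ψ u0 ∈ range φ) :
    ∃ c', c' ≤ c ∧ u0 < c' ∧ ψ c' ∉ range φ ∧ ∀ u ∈ Ico u0 c', ψ u ∈ range φ := by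
  have hcl : IsClosed {u | ψ u ∉ range φ} := by
    have := (hφ.isOpen_range.preimage hψ.continuous).isClosed_compl
    exact this
  have hcomp : IsCompact (Icc u0 c ∩ {u | ψ u ∉ range φ}) := isCompact_Icc.inter_right hcl
  obtain ⟨c', hc', hmin⟩ := hcomp.exists_isLeast ⟨c, right_mem_Icc.2 hcu.le, hc⟩
  refine ⟨c', hc'.1.2, lt_of_le_of_ne hc'.1.1 ?_, hc'.2, ?_⟩
  · rintro rfl
    exact hc'.2 hu0
  · intro u hu
    by_contra hcon
    exact absurd (hmin ⟨⟨hu.1, hu.2.le.trans hc'.1.2⟩, hcon⟩) (not_le.2 hu.2)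

omit [T2Space X] in
theorem no_common (hψ : IsOpenEmbedding ψ) {A B : Set ℝ} {C D : Set ℝ}
    (h1 : ψ '' A = φ '' C) (h2 : ψ '' B = φ '' D) (hAB : ∀ u ∈ A, u ∉ B) {τ : ℝ} (hC : τ ∈ C)
    (hD : τ ∈ D) : False := by
  have e1 : φ τ ∈ ψ '' A := by rw [h1]; exact mem_image_of_mem _ hC
  have e2 : φ τ ∈ ψ '' B := by rw [h2]; exact mem_image_of_mem _ hD
  obtain ⟨u, hu, hu'⟩ := e1
  obtain ⟨v, hv, hv'⟩ := e2
  have : u = v := hψ.injective (hu'.trans hv'.symm)
  subst this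
  exact hAB u hu hv

variable [PreconnectedSpace X] [NoncompactSpace X]

/-- the overlap of two lines is an interval -/
theorem overlap (hφ : IsOpenEmbedding φ) (hψ : IsOpenEmbedding ψ) :
    OrdConnected (ψ ⁻¹' range φ) := by
  refine ⟨?_⟩
  intro u1 hu1 u0 hu0 c hc
  by_contra hcn
  have hc' : ψ c ∉ range φ := hcn
  have h1c : u1 < c := lt_of_le_of_ne hc.1 (by rintro rfl; exact hcn hu1)
  have hc0 : c < u0 := lt_of_le_of_ne hc.2 (by rintro rfl; exact hcn hu0)
  obtain ⟨c1, hc11, hc12, hc13, hc14⟩ := last_missing hφ hψ hc0 hc' hu0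
  obtain ⟨d1, hd11, hd12, hd13, hd14⟩ := first_missing hφ hψ h1c hc' hu1
  obtain ⟨τ0, hτ0⟩ := hu0
  obtain ⟨τ1, hτ1⟩ := hu1
  have hdis : ∀ u ∈ Ioc c1 u0, u ∉ Ico u1 d1 := by
    intro u hu hu'
    linarith [hu.1, hu'.2]
  have hdisj : ∀ {C D : Set ℝ}, ψ '' Ioc c1 u0 = φ '' C → ψ '' Ico u1 d1 = φ '' D →
      ∀ τ ∈ C, τ ∉ D := fun h1 h2 τ hC hD => no_common hψ h1 h2 hdis hC hD
  have hcov : ∀ τ : ℝ, φ τ ∈ φ '' uIcc τ0 τ1 ∪ ψ '' Icc u1 u0 := by
    intro τ
    by_cases hmem : τ ∈ uIcc τ0 τ1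
    · exact Or.inl (mem_image_of_mem _ hmem)
    right
    have hs1 : ψ '' Ioc c1 u0 ⊆ ψ '' Icc u1 u0 := image_mono fun u hu =>
      ⟨by linarith [hu.1], hu.2⟩
    have hs2 : ψ '' Ico u1 d1 ⊆ ψ '' Icc u1 u0 := image_mono fun u hu =>
      ⟨hu.1, by linarith [hu.2]⟩
    rcases lemE hφ hψ hc12 hτ0 hc13 hc14 with h1 | h1 <;>
      rcases lemE' hφ hψ hd12 hτ1 hd13 hd14 with h2 | h2
    · exact absurd (mem_Iic.2 (min_le_right τ0 τ1)) (hdisj h1 h2 (min τ0 τ1)
        (mem_Iic.2 (min_le_left _ _)))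
    · by_cases hτ : τ ≤ τ0
      · apply hs1
        rw [h1]
        exact mem_image_of_mem _ hτ
      · by_cases hτ' : τ1 ≤ τ
        · apply hs2
          rw [h2]
          exact mem_image_of_mem _ hτ'
        · exact absurd (mem_uIcc.2 (Or.inl ⟨(not_le.1 hτ).le, (not_le.1 hτ').le⟩)) hmem
    · by_cases hτ : τ0 ≤ τ
      · apply hs1
        rw [h1]
        exact mem_image_of_mem _ hτ
      · by_cases hτ' : τ ≤ τ1
        · apply hs2
          rw [h2]
          exact mem_image_of_mem _ hτ'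
        · exact absurd (mem_uIcc.2 (Or.inr ⟨(not_le.1 hτ').le, (not_le.1 hτ).le⟩)) hmem
    · exact absurd (mem_Ici.2 (le_max_right τ0 τ1)) (hdisj h1 h2 (max τ0 τ1)
        (mem_Ici.2 (le_max_left _ _)))
  have hcompact : IsCompact (φ '' uIcc τ0 τ1 ∪ ψ '' Icc u1 u0) :=
    (isCompact_uIcc.image hφ.continuous).union (isCompact_Icc.image hψ.continuous)
  have heq : φ '' uIcc τ0 τ1 ∪ ψ '' Icc u1 u0 = range φ ∪ ψ '' Ioo u1 u0 := by
    apply Subset.antisymm
    · rintro _ (⟨τ, -, rfl⟩ | ⟨u, hu, rfl⟩)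
      · exact Or.inl (mem_range_self _)
      · by_cases h1 : u = u1
        · left
          exact ⟨τ1, by rw [hτ1, h1]⟩
        by_cases h2 : u = u0
        · left
          exact ⟨τ0, by rw [hτ0, h2]⟩
        right
        exact ⟨u, ⟨lt_of_le_of_ne hu.1 (Ne.symm h1), lt_of_le_of_ne hu.2 h2⟩, rfl⟩
    · rintro _ (⟨τ, rfl⟩ | ⟨u, hu, rfl⟩)
      · exact hcov τ
      · exact Or.inr (mem_image_of_mem _ (Ioo_subset_Icc_self hu))
  have hopen : IsOpen (φ '' uIcc τ0 τ1 ∪ ψ '' Icc u1 u0) := by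
    rw [heq]
    exact hφ.isOpen_range.union (hψ.isOpenMap _ isOpen_Ioo)
  have hclopen : IsClopen (φ '' uIcc τ0 τ1 ∪ ψ '' Icc u1 u0) := ⟨hcompact.isClosed, hopen⟩
  have huniv := hclopen.eq_univ ⟨φ τ0, hcov τ0⟩
  rw [huniv] at hcompact
  exact noncompact_univ X hcompact

omit [T2Space X] [PreconnectedSpace X] [NoncompactSpace X] in
/-- the main case of the union lemma -/
theorem union_core (hX : LocR X) (hφ : IsOpenEmbedding φ) (hψ : IsOpenEmbedding ψ) {c u0 τ0 : ℝ}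
    (hcu : c < u0) (h0 : φ τ0 = ψ u0) (hlow : ∀ u ≤ c, ψ u ∉ range φ)
    (hup : ∀ u, c < u → ψ u ∈ range φ) (hE : ψ '' Ioc c u0 = φ '' Ici τ0) :
    ∃ χ : ℝ → X, IsOpenEmbedding χ ∧ range χ = range φ ∪ range ψ := by
  set χ : ℝ → X := fun x => if x ≤ 0 then φ (x + τ0) else ψ (u0 - x) with hχ
  have hχc : Continuous χ := by
    refine Continuous.if_le (hφ.continuous.comp (by fun_prop)) (hψ.continuous.comp (by fun_prop))
      continuous_id continuous_const ?_
    intro x hx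
    have hx' : x = 0 := hx
    simp [hx', h0]
  have hkey : ∀ x y : ℝ, x ≤ 0 → 0 < y → φ (x + τ0) ≠ ψ (u0 - y) := by
    intro x y hx hy he
    have h1 : c < u0 - y := by
      by_contra hcon
      exact hlow (u0 - y) (not_lt.1 hcon) ⟨_, he⟩
    have h2 : ψ (u0 - y) ∈ φ '' Ici τ0 := by
      rw [← hE]
      exact ⟨_, ⟨h1, by linarith⟩, rfl⟩
    obtain ⟨τ, hτ, hτ'⟩ := h2
    have h3 : τ = x + τ0 := hφ.injective (hτ'.trans he.symm)
    have h4 : τ0 ≤ τ := hτ
    have h5 : x = 0 := by linarith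
    have h6 : ψ u0 = ψ (u0 - y) := by
      rw [← h0, ← he, h5, zero_add]
    have h7 := hψ.injective h6
    linarith
  have hχi : Injective χ := by
    intro x y hxy
    simp only [hχ] at hxy
    by_cases hx : x ≤ 0 <;> by_cases hy : y ≤ 0
    · rw [if_pos hx, if_pos hy] at hxy
      have := hφ.injective hxy
      linarith
    · rw [if_pos hx, if_neg hy] at hxy
      exact absurd hxy (hkey x y hx (not_le.1 hy))
    · rw [if_neg hx, if_pos hy] at hxy
      exact absurd hxy.symm (hkey y x hy (not_le.1 hx))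
    · rw [if_neg hx, if_neg hy] at hxy
      have := hψ.injective hxy
      linarith
  refine ⟨χ, hX.openEmb hχc hχi, ?_⟩
  have hφL : ∀ τ ≤ τ0, φ τ ∈ range χ := by
    intro τ hτ
    refine ⟨τ - τ0, ?_⟩
    simp only [hχ]
    rw [if_pos (by linarith)]
    congr 1
    ring
  have hψL : ∀ u ≤ u0, ψ u ∈ range χ := by
    intro u hu
    rcases hu.lt_or_eq with hlt | heq
    · refine ⟨u0 - u, ?_⟩
      simp only [hχ]
      rw [if_neg (by linarith)]
      congr 1
      ring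
    · rw [heq, ← h0]
      exact hφL τ0 le_rfl
  have hφall : ∀ τ, φ τ ∈ range χ := by
    intro τ
    rcases le_total τ τ0 with h1 | h1
    · exact hφL τ h1
    · have h2 : φ τ ∈ ψ '' Ioc c u0 := by
        rw [hE]
        exact ⟨τ, h1, rfl⟩
      obtain ⟨u, hu, hu'⟩ := h2
      rw [← hu']
      exact hψL u hu.2
  apply Subset.antisymm
  · rintro _ ⟨x, rfl⟩
    simp only [hχ]
    split_ifs
    · exact Or.inl (mem_range_self _)
    · exact Or.inr (mem_range_self _)
  · rintro _ (⟨τ, rfl⟩ | ⟨u, rfl⟩)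
    · exact hφall τ
    · rcases le_total u u0 with h1 | h1
      · exact hψL u h1
      · obtain ⟨τ, hτ⟩ := hup u (hcu.trans_le h1)
        rw [← hτ]
        exact hφall τ

/-- one-sided overlap -/
theorem union_side (hX : LocR X) (hφ : IsOpenEmbedding φ) (hψ : IsOpenEmbedding ψ) {c u0 : ℝ}
    (hcu : c < u0) (h0 : ψ u0 ∈ range φ) (hc : ψ c ∉ range φ)
    (hup : ∀ u, u0 < u → ψ u ∈ range φ) :
    ∃ χ : ℝ → X, IsOpenEmbedding χ ∧ range χ = range φ ∪ range ψ := by
  obtain ⟨c1, hc11, hc12, hc13, hc14⟩ := last_missing hφ hψ hcu hc h0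
  have hord := overlap hφ hψ
  have hlow : ∀ u ≤ c1, ψ u ∉ range φ := by
    intro u hu hcon
    exact hc13 (hord.out hcon h0 ⟨hu, hc12.le⟩)
  have hup' : ∀ u, c1 < u → ψ u ∈ range φ := by
    intro u hu
    rcases le_or_gt u u0 with h1 | h1
    · exact hc14 u ⟨hu, h1⟩
    · exact hup u h1
  obtain ⟨τ0, hτ0⟩ := h0
  rcases lemE hφ hψ hc12 hτ0 hc13 hc14 with h1 | h1
  · have h2 : (fun x => φ (-x)) '' Ici (-τ0) = φ '' Iic τ0 := by
      ext p
      constructor
      · rintro ⟨x, hx, rfl⟩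
        exact ⟨-x, by simpa using neg_le.1 hx, rfl⟩
      · rintro ⟨x, hx, rfl⟩
        exact ⟨-x, by simpa using hx, by simp⟩
    have h3 := union_core hX (reflect hφ) hψ (c := c1) (u0 := u0) (τ0 := -τ0) hc12
      (by simpa using hτ0) (by rw [reflect_range]; exact hlow) (by rw [reflect_range]; exact hup')
      (by rw [h2]; exact h1)
    rw [reflect_range] at h3
    exact h3
  · exact union_core hX hφ hψ hc12 hτ0 hlow hup' h1

/-- the union of two lines that meet is a line -/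
theorem union_line (hX : LocR X) (hφ : IsOpenEmbedding φ) (hψ : IsOpenEmbedding ψ)
    (hmeet : (range φ ∩ range ψ).Nonempty) :
    ∃ χ : ℝ → X, IsOpenEmbedding χ ∧ range χ = range φ ∪ range ψ := by
  obtain ⟨_, h0, u0, rfl⟩ := hmeet
  by_cases hlow : ∃ c < u0, ψ c ∉ range φ
  · obtain ⟨c, hcu, hc⟩ := hlow
    by_cases hup : ∃ d, u0 < d ∧ ψ d ∉ range φ
    · obtain ⟨d, hud, hd⟩ := hup
      refine ⟨ψ, hψ, (union_eq_right.2 ?_).symm⟩
      obtain ⟨c1, hc11, hc12, hc13, hc14⟩ := last_missing hφ hψ hcu hc h0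
      obtain ⟨d1, hd11, hd12, hd13, hd14⟩ := first_missing hφ hψ hud hd h0
      obtain ⟨τ0, hτ0⟩ := h0
      have hno : ∀ τ, τ ≠ τ0 → φ τ ∈ ψ '' Ioc c1 u0 → φ τ ∈ ψ '' Ico u0 d1 → False := by
        rintro τ hne ⟨u, hu, hu'⟩ ⟨v, hv, hv'⟩
        have e1 : u = v := hψ.injective (hu'.trans hv'.symm)
        have e2 : u = u0 := le_antisymm hu.2 (e1 ▸ hv.1)
        rw [e2, ← hτ0] at hu'
        exact hne (hφ.injective hu'.symm)
      rintro _ ⟨τ, rfl⟩
      rcases lemE hφ hψ hc12 hτ0 hc13 hc14 with h1 | h1 <;>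
        rcases lemE' hφ hψ hd12 hτ0 hd13 hd14 with h2 | h2
      · exfalso
        refine hno (τ0 - 1) (by linarith) ?_ ?_
        · rw [h1]
          exact mem_image_of_mem _ (by simp)
        · rw [h2]
          exact mem_image_of_mem _ (by simp)
      · rcases le_total τ τ0 with h3 | h3
        · apply image_subset_range ψ (Ioc c1 u0)
          rw [h1]
          exact mem_image_of_mem _ h3
        · apply image_subset_range ψ (Ico u0 d1)
          rw [h2]
          exact mem_image_of_mem _ h3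
      · rcases le_total τ τ0 with h3 | h3
        · apply image_subset_range ψ (Ico u0 d1)
          rw [h2]
          exact mem_image_of_mem _ h3
        · apply image_subset_range ψ (Ioc c1 u0)
          rw [h1]
          exact mem_image_of_mem _ h3
      · exfalso
        refine hno (τ0 + 1) (by linarith) ?_ ?_
        · rw [h1]
          exact mem_image_of_mem _ (by simp)
        · rw [h2]
          exact mem_image_of_mem _ (by simp)
    · push Not at hup
      exact union_side hX hφ hψ hcu h0 hc hup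
  · push Not at hlow
    by_cases hup : ∃ d, u0 < d ∧ ψ d ∉ range φ
    · obtain ⟨d, hud, hd⟩ := hup
      have h1 := union_side hX hφ (reflect hψ) (c := -d) (u0 := -u0) (by linarith)
        (by simpa using h0) (by simpa using hd) (by
          intro u hu
          exact hlow (-u) (by linarith))
      rw [reflect_range] at h1
      exact h1
    · push Not at hup
      refine ⟨φ, hφ, (union_eq_left.2 ?_).symm⟩
      rintro _ ⟨u, rfl⟩
      rcases lt_trichotomy u u0 with h1 | h1 | h1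
      · exact hlow u h1
      · rw [h1]
        exact h0
      · exact hup u h1

end

end Run7.h605
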