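import Mathlib
import Pool.Agent.Run7.h605.Line2

/-!
# Connected non-compact one-dimensional manifolds are lines
-/

set_option autoImplicit false

open Set Topology Filter Function

namespace Run7.h605

section

variable {X : Type*} [TopologicalSpace X]

/-- `F` is a bounded embedding of the open set `O` in the line -/
def Good (O : Set X) (F : X → ℝ) : Prop :=
  ContinuousOn F O ∧ InjOn F O ∧ ∃ B, ∀ x ∈ O, |F x| ≤ B

theorem good_of_real {χ : ℝ → X} (hχ : IsOpenEmbedding χ) {f : ℝ → ℝ} {B : ℝ}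
    (hc : Continuous f) (hi : Injective f) (hB : ∀ x, |f x| ≤ B) :
    Good (range χ) (extend χ f 0) := by
  have hcomp : extend χ f 0 ∘ χ = f := by
    funext x
    exact hχ.injective.extend_apply f 0 x
  refine ⟨?_, ?_, B, ?_⟩
  · rintro _ ⟨x, rfl⟩
    apply ContinuousAt.continuousWithinAt
    rw [← hχ.continuousAt_iff, hcomp]
    exact hc.continuousAt
  · rintro _ ⟨x, rfl⟩ _ ⟨y, rfl⟩ hxy
    rw [hχ.injective.extend_apply, hχ.injective.extend_apply] at hxy
    rw [hi hxy]
  · rintro _ ⟨x, rfl⟩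
    rw [hχ.injective.extend_apply]
    exact hB x

theorem good_step {φ χ : ℝ → X} (hφ : IsOpenEmbedding φ) (hχ : IsOpenEmbedding χ)
    (hsub : range φ ⊆ range χ) {F : X → ℝ} (hF : Good (range φ) F) :
    ∃ F' : X → ℝ, Good (range χ) F' ∧ EqOn F' F (range φ) := by
  obtain ⟨hc, hi, B, hB⟩ := hF
  set T : Set ℝ := χ ⁻¹' range φ with hT
  have hTo : IsOpen T := hφ.isOpen_range.preimage hχ.continuous
  have hTp : IsPreconnected T :=
    (isPreconnected_range hφ.continuous).preimage_of_isOpenMap hχ.injective hχ.isOpenMap hsub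
  have hne : T.Nonempty := by
    obtain ⟨x, hx⟩ := hsub (mem_range_self (0 : ℝ))
    exact ⟨x, by rw [hT, mem_preimage, hx]; exact mem_range_self _⟩
  obtain ⟨f', B', h1, h2, h3, h4⟩ := ext_real (f := F ∘ χ) (B := B) hTo hTp.ordConnected hne
    (hc.comp hχ.continuous.continuousOn (fun x hx => hx))
    (hi.comp hχ.injective.injOn (fun x hx => hx)) (fun x hx => hB _ hx)
  refine ⟨extend χ f' 0, good_of_real hχ h1 h2 h4, ?_⟩
  intro p hp
  obtain ⟨x, rfl⟩ := hsub hp
  rw [hχ.injective.extend_apply]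
  exact h3 hp

end

/-- a non-compact connected one-dimensional manifold embeds in the line -/
theorem exists_embedding {X : Type*} [TopologicalSpace X] [T2Space X] [ConnectedSpace X]
    [NoncompactSpace X] [SecondCountableTopology X] (hX : LocR X) :
    ∃ F : X → ℝ, IsOpenEmbedding F := by
  classical
  have hX' := hX
  choose φ hφ hmem using hX'
  obtain ⟨s, hs, hcov⟩ := TopologicalSpace.countable_cover_nhds (f := fun x => range (φ x))
    (fun x => (hφ x).isOpen_range.mem_nhds (hmem x))
  have hsne : s.Nonempty := by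
    by_contra hcon
    rw [not_nonempty_iff_eq_empty] at hcon
    rw [hcon] at hcov
    simp only [mem_empty_iff_false, iUnion_of_empty, iUnion_empty] at hcov
    exact (empty_ne_univ hcov)
  obtain ⟨e, rfl⟩ := hs.exists_eq_range hsne
  have hcov' : ∀ x, ∃ k, x ∈ range (φ (e k)) := by
    intro x
    have h1 : x ∈ ⋃ x ∈ range e, range (φ x) := by rw [hcov]; trivial
    simp only [mem_iUnion, exists_prop] at h1
    obtain ⟨_, ⟨k, rfl⟩, hk⟩ := h1
    exact ⟨k, hk⟩
  -- the chain
  let O : ℕ → Set X := fun n => Nat.rec (range (φ (e 0)))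
    (fun n A => if (A ∩ range (φ (e n.unpair.1))).Nonempty then A ∪ range (φ (e n.unpair.1))
      else A) n
  have hO0 : O 0 = range (φ (e 0)) := rfl
  have hOs : ∀ n, O (n + 1) = if (O n ∩ range (φ (e n.unpair.1))).Nonempty then
      O n ∪ range (φ (e n.unpair.1)) else O n := fun n => rfl
  have hOline : ∀ n, ∃ χ : ℝ → X, IsOpenEmbedding χ ∧ range χ = O n := by
    intro n
    induction n with
    | zero => exact ⟨_, hφ _, hO0.symm⟩
    | succ n ih =>
      obtain ⟨χ, h1, h2⟩ := ih
      rw [hOs]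
      split_ifs with h
      · rw [← h2] at h ⊢
        exact union_line hX h1 (hφ _) h
      · exact ⟨χ, h1, h2⟩
  have hOmono : Monotone O := by
    refine monotone_nat_of_le_succ ?_
    intro n
    rw [hOs]
    split_ifs
    · exact subset_union_left
    · exact le_rfl
  have hOopen : ∀ n, IsOpen (O n) := by
    intro n
    obtain ⟨χ, h1, h2⟩ := hOline n
    rw [← h2]
    exact h1.isOpen_range
  have hOuniv : (⋃ n, O n) = univ := by
    have hop : IsOpen (⋃ n, O n) := isOpen_iUnion hOopen
    have hcl : IsClosed (⋃ n, O n) := by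
      rw [← closure_subset_iff_isClosed]
      intro x hx
      obtain ⟨k, hk⟩ := hcov' x
      obtain ⟨y, hy1, hy2⟩ := mem_closure_iff.1 hx _ (hφ (e k)).isOpen_range hk
      obtain ⟨n, hn⟩ := mem_iUnion.1 hy2
      set m := Nat.pair k n with hm
      have hnm : n ≤ m := Nat.right_le_pair k n
      have hmk : m.unpair.1 = k := by rw [hm, Nat.unpair_pair]
      refine mem_iUnion.2 ⟨m + 1, ?_⟩
      rw [hOs, hmk, if_pos ⟨y, hOmono hnm hn, hy1⟩]
      exact Or.inr hk
    refine IsClopen.eq_univ ⟨hcl, hop⟩ ?_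
    exact ⟨φ (e 0) 0, mem_iUnion.2 ⟨0, by rw [hO0]; exact mem_range_self _⟩⟩
  -- the functions
  have hstep : ∀ n (F : {F : X → ℝ // Good (O n) F}),
      ∃ F' : {F : X → ℝ // Good (O (n + 1)) F}, EqOn F'.1 F.1 (O n) := by
    rintro n ⟨F, hF⟩
    obtain ⟨χ, h1, h2⟩ := hOline n
    obtain ⟨χ', h1', h2'⟩ := hOline (n + 1)
    have hsub : range χ ⊆ range χ' := by
      rw [h2, h2']
      exact hOmono (Nat.le_succ n)
    rw [← h2] at hF
    obtain ⟨F', h3, h4⟩ := good_step h1 h1' hsub hF
    rw [h2'] at h3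
    rw [h2] at h4
    exact ⟨⟨F', h3⟩, h4⟩
  choose step hstep using hstep
  have hF0 : Good (O 0) (extend (φ (e 0)) Real.arctan 0) := by
    rw [hO0]
    refine good_of_real (hφ _) Real.continuous_arctan Real.arctan_injective
      (B := Real.pi / 2) ?_
    intro x
    rw [abs_le]
    exact ⟨(Real.neg_pi_div_two_lt_arctan x).le, (Real.arctan_lt_pi_div_two x).le⟩
  let G : ∀ n, {F : X → ℝ // Good (O n) F} := fun n =>
    Nat.rec (motive := fun n => {F : X → ℝ // Good (O n) F}) ⟨_, hF0⟩ (fun n F => step n F) n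
  have hGs : ∀ n, EqOn (G (n + 1)).1 (G n).1 (O n) := fun n => hstep n (G n)
  have hGm : ∀ n m, n ≤ m → EqOn (G m).1 (G n).1 (O n) := by
    intro n m hnm
    induction m, hnm using Nat.le_induction with
    | base => exact fun x _ => rfl
    | succ m hnm ih =>
      intro x hx
      rw [hGs m (hOmono hnm hx)]
      exact ih hx
  have hex : ∀ x, ∃ n, x ∈ O n := by
    intro x
    have : x ∈ ⋃ n, O n := by rw [hOuniv]; trivial
    exact mem_iUnion.1 this
  choose N hN using hex
  set F : X → ℝ := fun x => (G (N x)).1 x with hF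
  have hFeq : ∀ n, EqOn F (G n).1 (O n) := by
    intro n x hx
    show (G (N x)).1 x = (G n).1 x
    rcases le_total (N x) n with h | h
    · exact (hGm _ _ h (hN x)).symm
    · exact hGm _ _ h hx
  refine ⟨F, LocR.openEmb' (fun x => ⟨φ x, hφ x, hmem x⟩) ?_ ?_⟩
  · rw [continuous_iff_continuousAt]
    intro x
    have h1 : ContinuousAt (G (N x)).1 x :=
      (G (N x)).2.1.continuousAt ((hOopen _).mem_nhds (hN x))
    refine h1.congr ?_
    filter_upwards [(hOopen (N x)).mem_nhds (hN x)] with y hy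
    exact (hFeq _ hy).symm
  · intro x y hxy
    have hx : x ∈ O (max (N x) (N y)) := hOmono (le_max_left _ _) (hN x)
    have hy : y ∈ O (max (N x) (N y)) := hOmono (le_max_right _ _) (hN y)
    rw [hFeq _ hx, hFeq _ hy] at hxy
    exact (G _).2.2.1 hx hy hxy

/-- a non-compact connected one-dimensional manifold is an open interval -/
theorem exists_param {X : Type*} [TopologicalSpace X] [T2Space X] [ConnectedSpace X]
    [NoncompactSpace X] [SecondCountableTopology X] (hX : LocR X) :
    ∃ (g : ℝ → X) (F : X → ℝ), Continuous F ∧ (∀ x, F x ∈ Ioo (0 : ℝ) 1) ∧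
      (∀ x, g (F x) = x) ∧ (∀ τ ∈ Ioo (0 : ℝ) 1, F (g τ) = τ) ∧
      ContinuousOn g (Ioo 0 1) := by
  obtain ⟨F0, hF0⟩ := exists_embedding hX
  -- compress
  have harc : IsOpenEmbedding Real.arctan := by
    refine LocR.openEmb ?_ Real.continuous_arctan Real.arctan_injective
    intro x
    exact ⟨id, IsOpenEmbedding.id, x, rfl⟩
  have hF1 : IsOpenEmbedding (Real.arctan ∘ F0) := harc.comp hF0
  set F1 := Real.arctan ∘ F0 with hF1def
  have hconn : IsConnected (range F1) := isConnected_range hF1.continuous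
  have hsubI : range F1 ⊆ Ioo (-(Real.pi / 2)) (Real.pi / 2) := by
    rintro _ ⟨x, rfl⟩
    exact ⟨Real.neg_pi_div_two_lt_arctan _, Real.arctan_lt_pi_div_two _⟩
  have hbb : BddBelow (range F1) := ⟨_, fun y hy => (hsubI hy).1.le⟩
  have hba : BddAbove (range F1) := ⟨_, fun y hy => (hsubI hy).2.le⟩
  have hsub1 := hconn.Ioo_csInf_csSup_subset hbb hba
  set c := sInf (range F1) with hcdef
  set d := sSup (range F1) with hddef
  have hsub2 : range F1 ⊆ Ioo c d := by
    intro x hx
    obtain ⟨a', b', hab, hsub⟩ := exists_Icc_nhds (hF1.isOpen_range.mem_nhds hx)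
    exact ⟨(csInf_le hbb (hsub ⟨le_rfl, (hab.1.trans hab.2).le⟩)).trans_lt hab.1,
      hab.2.trans_le (le_csSup hba (hsub ⟨(hab.1.trans hab.2).le, le_rfl⟩))⟩
  have hT1eq : range F1 = Ioo c d := Subset.antisymm hsub2 hsub1
  have hcd : c < d := by
    obtain ⟨x, hx⟩ := hconn.nonempty
    exact (hsub2 hx).1.trans (hsub2 hx).2
  have hdc : 0 < d - c := sub_pos.2 hcd
  set F : X → ℝ := fun x => (F1 x - c) / (d - c) with hF
  have hFc : Continuous F := (hF1.continuous.sub continuous_const).div_const _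
  have hFi : Injective F := by
    intro x y hxy
    apply hF1.injective
    have h1 : (F1 x - c) / (d - c) = (F1 y - c) / (d - c) := hxy
    rw [div_left_inj' hdc.ne'] at h1
    linarith
  have hFe : IsOpenEmbedding F := LocR.openEmb' hX hFc hFi
  have hFmem : ∀ x, F x ∈ Ioo (0 : ℝ) 1 := by
    intro x
    have h1 := hsub2 (mem_range_self x)
    constructor
    · apply div_pos _ hdc
      linarith [h1.1]
    · rw [div_lt_one hdc]
      linarith [h1.2]
  have hFsurj : ∀ τ ∈ Ioo (0 : ℝ) 1, ∃ x, F x = τ := by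
    intro τ hτ
    have h1 : c + τ * (d - c) ∈ range F1 := by
      rw [hT1eq]
      constructor
      · have := mul_pos hτ.1 hdc
        linarith
      · have := mul_lt_mul_of_pos_right hτ.2 hdc
        linarith
    obtain ⟨x, hx⟩ := h1
    refine ⟨x, ?_⟩
    show (F1 x - c) / (d - c) = τ
    rw [hx]
    field_simp
    ring
  have : Nonempty X := inferInstance
  set g : ℝ → X := invFun F with hg
  have hgF : ∀ x, g (F x) = x := fun x => leftInverse_invFun hFi x
  have hFg : ∀ τ ∈ Ioo (0 : ℝ) 1, F (g τ) = τ := fun τ hτ => invFun_eq (hFsurj τ hτ)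
  refine ⟨g, F, hFc, hFmem, hgF, hFg, ?_⟩
  rw [hFe.isInducing.continuousOn_iff]
  exact continuousOn_id.congr hFg

end Run7.h605
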