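import Mathlib

/-!
# Families of bivariate functions and the complexity of their minimization diagram
-/

set_option autoImplicit false

open Set Topology Filter

namespace Run7.h605

/-- near `p` the set `Z` is a simple arc: some open neighbourhood of `p` meets `Z` in a
homeomorphic image of the real line -/
def ArcAt (Z : Set (ℝ × ℝ)) (p : ℝ × ℝ) : Prop :=
  ∃ (W : Set (ℝ × ℝ)) (g : ℝ → ℝ × ℝ), IsOpen W ∧ p ∈ W ∧ IsEmbedding g ∧ range g = Z ∩ W

/-- the singular points of `Z`: the points of `Z` near which `Z` is not a simple arc -/
def sing (Z : Set (ℝ × ℝ)) : Set (ℝ × ℝ) := {p | p ∈ Z ∧ ¬ ArcAt Z p}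

/-- the connected components of a subset of the plane -/
def comps (Z : Set (ℝ × ℝ)) : Set (Set (ℝ × ℝ)) :=
  {C | ∃ p ∈ Z, C = connectedComponentIn Z p}

/-- the families of the problem: continuous functions such that the graphs of any two meet in a
curve with at most `t` connected components and at most `t` singular points, those of any three
meet in at most `s` points, those of any four do not meet -/
structure Family (s t : ℕ) {n : ℕ} (f : Fin n → ℝ × ℝ → ℝ) : Prop where
  cont : ∀ i, Continuous (f i)
  comp : ∀ i j, i ≠ j → (comps {p | f i p = f j p}).encard ≤ t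
  sing : ∀ i j, i ≠ j → (sing {p | f i p = f j p}).encard ≤ t
  triple : ∀ i j k, i ≠ j → i ≠ k → j ≠ k → {p | f i p = f j p ∧ f i p = f k p}.encard ≤ s
  quad : ∀ i j k l, i ≠ j → i ≠ k → i ≠ l → j ≠ k → j ≠ l → k ≠ l →
    ∀ p, ¬ (f i p = f j p ∧ f i p = f k p ∧ f i p = f l p)

variable {n : ℕ} (f : Fin n → ℝ × ℝ → ℝ)

/-- the points at which the minimum is attained by `f i` -/
def att (i : Fin n) : Set (ℝ × ℝ) := {p | ∀ k, f i p ≤ f k p}

/-- the points at which the minimum is attained by `f i` and `f j` and by no other function -/
def two (i j : Fin n) : Set (ℝ × ℝ) :=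
  {p | f i p = f j p ∧ ∀ k, k ≠ i → k ≠ j → f i p < f k p}

/-- faces: maximal connected sets of points at which the minimum equals `f i` -/
def faces : Set (Fin n × Set (ℝ × ℝ)) :=
  {q | ∃ p ∈ att f q.1, q.2 = connectedComponentIn (att f q.1) p}

/-- edges: maximal connected sets of points at which the minimum is attained by `f i` and `f j` -/
def edges : Set ((Fin n × Fin n) × Set (ℝ × ℝ)) :=
  {q | q.1.1 < q.1.2 ∧ ∃ p ∈ att f q.1.1 ∩ att f q.1.2,
    q.2 = connectedComponentIn (att f q.1.1 ∩ att f q.1.2) p}

/-- relatively open edges: maximal connected sets of points at which the minimum is attained by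
exactly the two functions `f i` and `f j` -/
def openEdges : Set ((Fin n × Fin n) × Set (ℝ × ℝ)) :=
  {q | q.1.1 < q.1.2 ∧ ∃ p ∈ two f q.1.1 q.1.2,
    q.2 = connectedComponentIn (two f q.1.1 q.1.2) p}

/-- vertices: points at which the minimum is attained by three functions -/
def verts : Set (ℝ × ℝ) :=
  {p | ∃ i j k, i < j ∧ j < k ∧ p ∈ att f i ∩ att f j ∩ att f k}

/-- the complexity of the minimization diagram -/
noncomputable def kappa : ℕ∞ := (faces f).encard + (edges f).encard + (verts f).encard

/-- the complexity of the minimization diagram, counting relatively open edges -/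
noncomputable def kappaOpen : ℕ∞ := (faces f).encard + (openEdges f).encard + (verts f).encard

end Run7.h605
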