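import Mathlib
import Pool.Agent.Run7.h605.Line3
import Pool.Agent.Run7.h605.Stmt
import Pool.Agent.Run7.h605.Defs

/-!
# Closed sets of the plane which are locally simple arcs off a finite set
-/

set_option autoImplicit false

open Set Topology Filter Function

namespace Run7.h605

theorem exists_squeeze {a b : ℝ} (hab : a < b) :
    ∃ σ : ℝ → ℝ, IsOpenEmbedding σ ∧ range σ = Ioo a b := by
  have hpi := Real.pi_pos
  have hba : 0 < b - a := sub_pos.2 hab
  set σ : ℝ → ℝ := fun y => a + (b - a) * ((Real.arctan y + Real.pi / 2) / Real.pi) with hσ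
  have hc : Continuous σ := by
    have := Real.continuous_arctan
    fun_prop
  have hi : Injective σ := by
    intro x y hxy
    apply Real.arctan_injective
    have h1 : a + (b - a) * ((Real.arctan x + Real.pi / 2) / Real.pi) =
      a + (b - a) * ((Real.arctan y + Real.pi / 2) / Real.pi) := hxy
    have h2 := mul_left_cancel₀ hba.ne' (add_left_cancel h1)
    rw [div_left_inj' hpi.ne'] at h2
    linarith
  refine ⟨σ, LocR.openEmb (fun x => ⟨id, IsOpenEmbedding.id, x, rfl⟩) hc hi, ?_⟩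
  apply Subset.antisymm
  · rintro _ ⟨y, rfl⟩
    have h1 := Real.neg_pi_div_two_lt_arctan y
    have h2 := Real.arctan_lt_pi_div_two y
    have h3 : 0 < (Real.arctan y + Real.pi / 2) / Real.pi := div_pos (by linarith) hpi
    have h4 : (Real.arctan y + Real.pi / 2) / Real.pi < 1 := by
      rw [div_lt_one hpi]
      linarith
    constructor
    · show a < a + (b - a) * ((Real.arctan y + Real.pi / 2) / Real.pi)
      have := mul_pos hba h3
      linarith
    · show a + (b - a) * ((Real.arctan y + Real.pi / 2) / Real.pi) < b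
      have := mul_lt_mul_of_pos_left h4 hba
      linarith
  · intro z hz
    have h1 : 0 < (z - a) / (b - a) := div_pos (by linarith [hz.1]) hba
    have h2 : (z - a) / (b - a) < 1 := by
      rw [div_lt_one hba]
      linarith [hz.2]
    refine ⟨Real.tan (Real.pi * ((z - a) / (b - a)) - Real.pi / 2), ?_⟩
    show a + (b - a) * ((Real.arctan (Real.tan (Real.pi * ((z - a) / (b - a)) - Real.pi / 2)) +
      Real.pi / 2) / Real.pi) = z
    rw [Real.arctan_tan]
    · field_simp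
      ring
    · have := mul_pos hpi h1
      linarith
    · have := mul_lt_mul_of_pos_left h2 hpi
      linarith

theorem ArcAt.small {Z : Set (ℝ × ℝ)} {p : ℝ × ℝ} (h : ArcAt Z p) (hp : p ∈ Z)
    {U : Set (ℝ × ℝ)} (hU : IsOpen U) (hpU : p ∈ U) :
    ∃ (W : Set (ℝ × ℝ)) (g : ℝ → ℝ × ℝ), IsOpen W ∧ p ∈ W ∧ W ⊆ U ∧ IsEmbedding g ∧
      range g = Z ∩ W := by
  obtain ⟨W0, g0, hW0, hpW0, hg0, hr0⟩ := h
  have hpr : p ∈ range g0 := by
    rw [hr0]
    exact ⟨hp, hpW0⟩
  obtain ⟨x0, rfl⟩ := hpr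
  obtain ⟨a, b, hab, hsub⟩ := exists_Icc_nhds (hg0.continuous.continuousAt (hU.mem_nhds hpU))
  obtain ⟨σ, hσ, hσr⟩ := exists_squeeze (hab.1.trans hab.2)
  obtain ⟨W1, hW1, hW1eq⟩ := hg0.isInducing.isOpen_iff.1 (isOpen_Ioo (a := a) (b := b))
  refine ⟨W0 ∩ W1 ∩ U, g0 ∘ σ, (hW0.inter hW1).inter hU, ⟨⟨hpW0, ?_⟩, hpU⟩, inter_subset_right,
    hg0.comp hσ.isEmbedding, ?_⟩
  · have : x0 ∈ g0 ⁻¹' W1 := by
      rw [hW1eq]
      exact hab
    exact this
  · rw [range_comp, hσr]
    apply Subset.antisymm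
    · rintro _ ⟨x, hx, rfl⟩
      have h1 : g0 x ∈ Z ∩ W0 := by
        rw [← hr0]
        exact mem_range_self x
      have h2 : x ∈ g0 ⁻¹' W1 := by
        rw [hW1eq]
        exact hx
      exact ⟨h1.1, ⟨h1.2, h2⟩, hsub (Ioo_subset_Icc_self hx)⟩
    · rintro q ⟨hqZ, ⟨hqW0, hqW1⟩, -⟩
      have h1 : q ∈ range g0 := by
        rw [hr0]
        exact ⟨hqZ, hqW0⟩
      obtain ⟨x, rfl⟩ := h1
      refine ⟨x, ?_, rfl⟩
      rw [← hW1eq]
      exact hqW1

section

variable {Z S : Set (ℝ × ℝ)}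

/-- near a point off `S` all of `Z` belongs to one component of `Z \ S` -/
theorem chart_comp (hS : IsClosed S) (hA : ∀ p ∈ Z \ S, ArcAt Z p) {p : ℝ × ℝ}
    (hp : p ∈ Z \ S) :
    ∃ (W : Set (ℝ × ℝ)) (g : ℝ → ℝ × ℝ), IsOpen W ∧ p ∈ W ∧ IsEmbedding g ∧
      range g = Z ∩ W ∧ Z ∩ W ⊆ connectedComponentIn (Z \ S) p := by
  obtain ⟨W, g, h1, h2, h3, h4, h5⟩ := (hA p hp).small hp.1 hS.isOpen_compl hp.2
  refine ⟨W, g, h1, h2, h4, h5, ?_⟩
  refine IsPreconnected.subset_connectedComponentIn ?_ ⟨hp.1, h2⟩ ?_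
  · rw [← h5]
    exact isPreconnected_range h4.continuous
  · exact fun q hq => ⟨hq.1, h3 hq.2⟩

theorem comp_locR (hS : IsClosed S) (hA : ∀ p ∈ Z \ S, ArcAt Z p) (p0 : ℝ × ℝ) :
    LocR (connectedComponentIn (Z \ S) p0) := by
  rintro ⟨p, hp⟩
  have hpZ : p ∈ Z \ S := connectedComponentIn_subset _ _ hp
  obtain ⟨W, g, h1, h2, h3, h4, h5⟩ := chart_comp hS hA hpZ
  rw [← connectedComponentIn_eq hp] at h5
  have hmem : ∀ x, g x ∈ connectedComponentIn (Z \ S) p0 := by
    intro x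
    apply h5
    rw [← h4]
    exact mem_range_self x
  refine ⟨Set.codRestrict g _ hmem, ⟨h3.codRestrict _ hmem, ?_⟩, ?_⟩
  · have : range (Set.codRestrict g _ hmem) = Subtype.val ⁻¹' W := by
      ext ⟨q, hq⟩
      constructor
      · rintro ⟨x, hx⟩
        have hx' : g x = q := congrArg Subtype.val hx
        have : g x ∈ Z ∩ W := by
          rw [← h4]
          exact mem_range_self x
        rw [hx'] at this
        exact this.2
      · intro hqW
        have : q ∈ Z ∩ W := ⟨(connectedComponentIn_subset _ _ hq).1, hqW⟩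
        rw [← h4] at this
        obtain ⟨x, hx⟩ := this
        exact ⟨x, Subtype.ext hx⟩
    rw [this]
    exact h1.preimage continuous_subtype_val
  · have : p ∈ Z ∩ W := ⟨hpZ.1, h2⟩
    rw [← h4] at this
    obtain ⟨x, hx⟩ := this
    exact ⟨x, Subtype.ext hx⟩

theorem comp_closure (hZ : IsClosed Z) (hS : IsClosed S) (hA : ∀ p ∈ Z \ S, ArcAt Z p)
    (p0 : ℝ × ℝ) :
    closure (connectedComponentIn (Z \ S) p0) ⊆ connectedComponentIn (Z \ S) p0 ∪ S := by
  intro q hq
  by_cases hqS : q ∈ S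
  · exact Or.inr hqS
  left
  have hqZ : q ∈ Z := closure_minimal
    ((connectedComponentIn_subset _ _).trans sdiff_subset) hZ hq
  obtain ⟨W, g, h1, h2, h3, h4, h5⟩ := chart_comp hS hA (p := q) ⟨hqZ, hqS⟩
  obtain ⟨r, hr1, hr2⟩ := mem_closure_iff.1 hq W h1 h2
  have hrZ : r ∈ Z := (connectedComponentIn_subset _ _ hr2).1
  have e1 := connectedComponentIn_eq hr2
  have e2 := connectedComponentIn_eq (h5 ⟨hrZ, hr1⟩)
  rw [e1, ← e2]
  exact mem_connectedComponentIn ⟨hqZ, hqS⟩

theorem comp_noncompact (hS : IsClosed S) (hA : ∀ p ∈ Z \ S, ArcAt Z p)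
    (hmeet : ∀ p ∈ Z, (connectedComponentIn Z p ∩ S).Nonempty) {p0 : ℝ × ℝ} (hp0 : p0 ∈ Z \ S) :
    ¬ IsCompact (connectedComponentIn (Z \ S) p0) := by
  intro hcomp
  set A := connectedComponentIn (Z \ S) p0 with hAdef
  have hAcl := hcomp.isClosed
  have hAsub : A ⊆ Z \ S := connectedComponentIn_subset _ _
  have hloc : ∀ p ∈ A, ∃ W, IsOpen W ∧ p ∈ W ∧ Z ∩ W ⊆ A := by
    intro p hp
    obtain ⟨W, g, h1, h2, h3, h4, h5⟩ := chart_comp hS hA (hAsub hp)
    rw [← connectedComponentIn_eq hp] at h5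
    exact ⟨W, h1, h2, h5⟩
  choose! W hWo hWm hWs using hloc
  set O := ⋃ p ∈ A, W p with hO
  have hOo : IsOpen O := isOpen_biUnion hWo
  have hAO : A ⊆ O := fun p hp => mem_biUnion hp (hWm p hp)
  have hOA : Z ∩ O ⊆ A := by
    rintro q ⟨hq1, hq2⟩
    simp only [hO, mem_iUnion, exists_prop] at hq2
    obtain ⟨p, hp, hq⟩ := hq2
    exact hWs p hp ⟨hq1, hq⟩
  have hpA : p0 ∈ A := mem_connectedComponentIn hp0
  have hC : IsPreconnected (connectedComponentIn Z p0) := isPreconnected_connectedComponentIn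
  have hsub : connectedComponentIn Z p0 ⊆ A := by
    by_contra hcon
    rw [not_subset] at hcon
    obtain ⟨q, hqC, hqA⟩ := hcon
    obtain ⟨r, hr1, hr2, hr3⟩ := hC O Aᶜ hOo hAcl.isOpen_compl
      (by
        intro r hr
        by_cases hrA : r ∈ A
        · exact Or.inl (hAO hrA)
        · exact Or.inr hrA)
      ⟨p0, mem_connectedComponentIn hp0.1, hAO hpA⟩ ⟨q, hqC, hqA⟩
    exact hr3 (hOA ⟨connectedComponentIn_subset _ _ hr1, hr2⟩)
  obtain ⟨q, hq1, hq2⟩ := hmeet p0 hp0.1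
  exact (hAsub (hsub hq1)).2 hq2

/-- the components are closure preserving -/
theorem comp_CP (hZ : IsClosed Z) (hS : S.Finite) (hA : ∀ p ∈ Z \ S, ArcAt Z p)
    (hmeet : ∀ p ∈ Z, (connectedComponentIn Z p ∩ S).Nonempty) :
    CP {A | ∃ p ∈ Z \ S, A = connectedComponentIn (Z \ S) p} := by
  intro G hG p hp
  have hScl := hS.isClosed
  have hGZ : ⋃₀ G ⊆ Z := by
    rintro q ⟨B, hB, hq⟩
    obtain ⟨p', hp', rfl⟩ := hG hB
    exact (connectedComponentIn_subset _ _ hq).1
  have hpZ : p ∈ Z := closure_minimal hGZ hZ hp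
  simp only [mem_iUnion, exists_prop]
  by_cases hpS : p ∈ S
  swap
  · obtain ⟨W, g, h1, h2, h3, h4, h5⟩ := chart_comp hScl hA (p := p) ⟨hpZ, hpS⟩
    obtain ⟨r, hr1, B, hB, hr2⟩ := mem_closure_iff.1 hp W h1 h2
    refine ⟨B, hB, subset_closure ?_⟩
    obtain ⟨p', hp', rfl⟩ := hG hB
    have hrZ : r ∈ Z := (connectedComponentIn_subset _ _ hr2).1
    have e1 := connectedComponentIn_eq hr2
    have e2 := connectedComponentIn_eq (h5 ⟨hrZ, hr1⟩)
    rw [e1, ← e2]
    exact mem_connectedComponentIn ⟨hpZ, hpS⟩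
  -- `p ∈ S`
  have hnh : (S \ {p})ᶜ ∈ 𝓝 p := by
    apply (hS.subset sdiff_subset).isClosed.isOpen_compl.mem_nhds
    simp
  obtain ⟨r, hr0, hr⟩ := Metric.nhds_basis_closedBall.mem_iff.1 hnh
  have hSr : ∀ q ∈ S, dist q p ≤ r → q = p := by
    intro q hq hqr
    by_contra hne
    exact hr (Metric.mem_closedBall.2 hqr) ⟨hq, hne⟩
  set Sp := Metric.sphere p r ∩ Z with hSp
  have hSpc : IsCompact Sp := (isCompact_sphere p r).inter_right hZ
  have hSps : Sp ⊆ Z \ S := by
    rintro q ⟨hq1, hq2⟩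
    refine ⟨hq2, fun hqS => ?_⟩
    have h1 : dist q p = r := hq1
    have h2 := hSr q hqS h1.le
    rw [h2, dist_self] at h1
    exact hr0.ne h1
  have hfin : {B ∈ G | (B ∩ Sp).Nonempty}.Finite := by
    have hloc : ∀ q ∈ Sp, ∃ W, IsOpen W ∧ q ∈ W ∧ Z ∩ W ⊆ connectedComponentIn (Z \ S) q := by
      intro q hq
      obtain ⟨W, g, h1, h2, h3, h4, h5⟩ := chart_comp hScl hA (hSps hq)
      exact ⟨W, h1, h2, h5⟩
    choose! W hWo hWm hWs using hloc
    obtain ⟨F, hF, hFc⟩ := hSpc.elim_nhds_subcover W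
      (fun q hq => (hWo q hq).mem_nhds (hWm q hq))
    refine (F.finite_toSet.image (fun q => connectedComponentIn (Z \ S) q)).subset ?_
    rintro B ⟨hB, q', hq'B, hq'S⟩
    obtain ⟨p', hp', rfl⟩ := hG hB
    have h1 := hFc hq'S
    simp only [mem_iUnion, exists_prop] at h1
    obtain ⟨q, hq, hq'W⟩ := h1
    refine ⟨q, hq, ?_⟩
    show connectedComponentIn (Z \ S) q = connectedComponentIn (Z \ S) p'
    rw [connectedComponentIn_eq (hWs q (hF q hq) ⟨hq'S.2, hq'W⟩), connectedComponentIn_eq hq'B]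
  have hsplit : ⋃₀ G = ⋃₀ {B ∈ G | (B ∩ Sp).Nonempty} ∪ ⋃₀ {B ∈ G | ¬ (B ∩ Sp).Nonempty} := by
    rw [← sUnion_union]
    congr 1
    ext B
    simp only [mem_union, mem_ofPred_eq]
    tauto
  rw [hsplit, closure_union] at hp
  rcases hp with hp | hp
  · rw [sUnion_eq_biUnion, hfin.closure_biUnion] at hp
    simp only [mem_iUnion, exists_prop] at hp
    obtain ⟨B, hB, hpB⟩ := hp
    exact ⟨B, hB.1, hpB⟩
  · obtain ⟨q, hq, B, ⟨hB, hBS⟩, hqB⟩ := mem_closure_iff.1 hp _ Metric.isOpen_ball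
      (Metric.mem_ball_self hr0)
    refine ⟨B, hB, ?_⟩
    obtain ⟨p', hp', rfl⟩ := hG hB
    set B := connectedComponentIn (Z \ S) p' with hBdef
    have hBpre : IsPreconnected B := isPreconnected_connectedComponentIn
    have hBsub : B ⊆ Metric.ball p r := by
      refine hBpre.subset_left_of_subset_union Metric.isOpen_ball
        (v := (Metric.closedBall p r)ᶜ) Metric.isClosed_closedBall.isOpen_compl ?_ ?_
        ⟨q, hqB, hq⟩
      · rw [disjoint_left]
        intro x hx hx'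
        exact hx' (Metric.ball_subset_closedBall hx)
      · intro x hx
        rcases lt_trichotomy (dist x p) r with h1 | h1 | h1
        · exact Or.inl h1
        · exact absurd ⟨x, hx, h1, (connectedComponentIn_subset _ _ hx).1⟩ hBS
        · right
          intro h2
          exact absurd (Metric.mem_closedBall.1 h2) (not_le.2 h1)
    by_contra hcon
    refine comp_noncompact hScl hA hmeet hp' ?_
    have hcl : closure B ⊆ B := by
      intro x hx
      rcases comp_closure hZ hScl hA p' hx with h1 | h1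
      · exact h1
      · exfalso
        have h2 : x ∈ Metric.closedBall p r :=
          closure_minimal (hBsub.trans Metric.ball_subset_closedBall) Metric.isClosed_closedBall hx
        have h3 := hSr x h1 (Metric.mem_closedBall.1 h2)
        rw [h3] at hx
        exact hcon hx
    exact (isCompact_closedBall p r).of_isClosed_subset (closure_subset_iff_isClosed.1 hcl)
      (hBsub.trans Metric.ball_subset_closedBall)

end

end Run7.h605
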