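import Mathlib

/-!
# Open arcs with ends
-/

set_option autoImplicit false

open Set Topology Filter

namespace Run7.h605

/-- `A` is an open simple arc, each end of which converges to a point of `S` or to infinity -/
def IsEdge (S : Finset (ℝ × ℝ)) (A : Set (ℝ × ℝ)) : Prop :=
  ∃ g : ℝ → ℝ × ℝ, ContinuousOn g (Ioo 0 1) ∧ InjOn g (Ioo 0 1) ∧ g '' Ioo 0 1 = A ∧
    ∀ e : ℝ, (e = 0 ∨ e = 1) →
      (∃ q ∈ S, Tendsto g (𝓝[Ioo 0 1] e) (𝓝 q)) ∨
        Tendsto g (𝓝[Ioo 0 1] e) (cocompact (ℝ × ℝ))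

end Run7.h605
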