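import Mathlib
import Pool.Agent.Run7.h605.Curve1
import Pool.Agent.Run7.h605.Edge

/-!
# The components of a locally simple closed set are edges
-/

set_option autoImplicit false

open Set Topology Filter Function

namespace Run7.h605

theorem comp_isEdge {Z : Set (ℝ × ℝ)} {S : Finset (ℝ × ℝ)} (hZ : IsClosed Z)
    (hA : ∀ p ∈ Z \ (S : Set (ℝ × ℝ)), ArcAt Z p)
    (hmeet : ∀ p ∈ Z, (connectedComponentIn Z p ∩ (S : Set (ℝ × ℝ))).Nonempty) {p0 : ℝ × ℝ}
    (hp0 : p0 ∈ Z \ (S : Set (ℝ × ℝ))) :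
    IsEdge S (connectedComponentIn (Z \ (S : Set (ℝ × ℝ))) p0) := by
  have hScl : IsClosed (S : Set (ℝ × ℝ)) := S.finite_toSet.isClosed
  have hnc := comp_noncompact hScl hA hmeet hp0
  have hlocR := comp_locR hScl hA p0
  have hclo := comp_closure hZ hScl hA p0
  set A := connectedComponentIn (Z \ (S : Set (ℝ × ℝ))) p0 with hAdef
  have hAsub : A ⊆ Z \ (S : Set (ℝ × ℝ)) := connectedComponentIn_subset _ _
  have hconn : IsConnected A := isConnected_connectedComponentIn_iff.2 hp0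
  have i1 : ConnectedSpace A := isConnected_iff_connectedSpace.1 hconn
  have i2 : NoncompactSpace A := by
    rw [← not_compactSpace_iff, ← isCompact_iff_compactSpace]
    exact hnc
  obtain ⟨g, F, hFc, hFI, hgF, hFg, hgc⟩ := exists_param hlocR
  set γ : ℝ → ℝ × ℝ := fun τ => (g τ : ℝ × ℝ) with hγ
  have hγc : ContinuousOn γ (Ioo 0 1) := continuous_subtype_val.comp_continuousOn hgc
  have hγA : ∀ τ, γ τ ∈ A := fun τ => (g τ).2
  refine ⟨γ, hγc, ?_, ?_, ?_⟩
  · intro a ha b hb hab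
    have h1 : g a = g b := Subtype.ext hab
    rw [← hFg a ha, ← hFg b hb, h1]
  · apply Subset.antisymm
    · rintro _ ⟨τ, -, rfl⟩
      exact hγA τ
    · intro q hq
      exact ⟨F ⟨q, hq⟩, hFI _, by simp [hγ, hgF]⟩
  intro e he
  have heI : e ∉ Ioo (0 : ℝ) 1 := by
    rcases he with rfl | rfl <;> simp
  -- the end leaves compact subsets of `A`
  have hleave : ∀ N : Set (ℝ × ℝ), IsCompact N → N ⊆ A → ∀ᶠ τ in 𝓝[Ioo 0 1] e, γ τ ∉ N := by
    intro N hN hNA
    have h1 : IsCompact ((Subtype.val : A → ℝ × ℝ) ⁻¹' N) := by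
      rw [Subtype.isCompact_iff, Subtype.image_preimage_coe, inter_eq_right.2 hNA]
      exact hN
    have h2 : IsClosed (F '' ((Subtype.val : A → ℝ × ℝ) ⁻¹' N)) := (h1.image hFc).isClosed
    have h3 : e ∉ F '' ((Subtype.val : A → ℝ × ℝ) ⁻¹' N) := by
      rintro ⟨x, -, hx⟩
      exact heI (hx ▸ hFI x)
    have h4 : ∀ᶠ τ in 𝓝[Ioo 0 1] e, τ ∉ F '' ((Subtype.val : A → ℝ × ℝ) ⁻¹' N) :=
      mem_nhdsWithin_of_mem_nhds (h2.isOpen_compl.mem_nhds h3)
    filter_upwards [h4, self_mem_nhdsWithin] with τ hτ hτI hcon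
    exact hτ ⟨g τ, hcon, hFg τ hτI⟩
  by_cases hco : Tendsto γ (𝓝[Ioo 0 1] e) (cocompact (ℝ × ℝ))
  · exact Or.inr hco
  left
  obtain ⟨K, hK, hKf⟩ : ∃ K : Set (ℝ × ℝ), IsCompact K ∧ ∃ᶠ τ in 𝓝[Ioo 0 1] e, γ τ ∈ K := by
    by_contra hcon
    push Not at hcon
    apply hco
    intro V hV
    obtain ⟨K, hK, hKV⟩ := mem_cocompact.1 hV
    have h1 := hcon K hK
    rw [mem_map]
    filter_upwards [h1] with τ hτ
    exact hKV hτ
  -- localisation
  obtain ⟨U, hU, hUd⟩ := (S.finite_toSet).t2_separation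
  obtain ⟨R, hR⟩ : ∃ R : ℝ, K ∪ (S : Set (ℝ × ℝ)) ⊆ Metric.ball 0 R :=
    (hK.isBounded.union S.finite_toSet.isBounded).subset_ball 0
  have hloc : ∀ ε : ℝ, 0 < ε → ∃ q ∈ S, ∀ᶠ τ in 𝓝[Ioo 0 1] e, γ τ ∈ Metric.ball q ε := by
    intro ε hε
    set V : ℝ × ℝ → Set (ℝ × ℝ) := fun q => Metric.ball q ε ∩ U q ∩ Metric.ball 0 R with hV
    have hVo : ∀ q, IsOpen (V q) := fun q =>
      (Metric.isOpen_ball.inter (hU q).2).inter Metric.isOpen_ball
    have hVm : ∀ q ∈ S, q ∈ V q := fun q hq =>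
      ⟨⟨Metric.mem_ball_self hε, (hU q).1⟩, hR (Or.inr hq)⟩
    set N := Metric.closedBall (0 : ℝ × ℝ) R ∩ (closure A \ ⋃ q ∈ S, V q) with hN
    have hVuo : IsOpen (⋃ q ∈ S, V q) := isOpen_biUnion (fun q _ => hVo q)
    have hNc : IsCompact N := (isCompact_closedBall _ _).inter_right
      (isClosed_closure.sdiff hVuo)
    have hNA : N ⊆ A := by
      rintro x ⟨-, hx, hxV⟩
      rcases hclo hx with h | h
      · exact h
      · exact absurd (mem_biUnion (Finset.mem_coe.1 h) (hVm x h)) hxV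
    have h1 := hleave N hNc hNA
    have h2 : ∃ δ > 0, ∀ τ ∈ Ioo (0 : ℝ) 1 ∩ Metric.ball e δ, γ τ ∉ N := by
      rw [eventually_iff, Metric.mem_nhdsWithin_iff] at h1
      obtain ⟨δ, hδ, hδ'⟩ := h1
      exact ⟨δ, hδ, fun τ hτ => hδ' ⟨hτ.2, hτ.1⟩⟩
    obtain ⟨δ, hδ, hδN⟩ := h2
    set T := γ '' (Ioo (0 : ℝ) 1 ∩ Metric.ball e δ) with hT
    have hTp : IsPreconnected T := by
      refine IsPreconnected.image ?_ _ (hγc.mono inter_subset_left)
      exact ((convex_Ioo 0 1).inter (convex_ball e δ)).isPreconnected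
    have htail : ∀ᶠ τ in 𝓝[Ioo 0 1] e, τ ∈ Ioo (0 : ℝ) 1 ∩ Metric.ball e δ := by
      rw [eventually_iff, Metric.mem_nhdsWithin_iff]
      exact ⟨δ, hδ, fun τ hτ => ⟨hτ.2, hτ.1⟩⟩
    obtain ⟨τ1, hτ1K, hτ1⟩ := (hKf.and_eventually htail).exists
    have h3 : γ τ1 ∈ ⋃ q ∈ S, V q := by
      by_contra hcon
      exact hδN τ1 hτ1 ⟨Metric.ball_subset_closedBall (hR (Or.inl hτ1K)),
        subset_closure (hγA τ1), hcon⟩
    simp only [mem_iUnion, exists_prop] at h3
    obtain ⟨q, hqS, hq⟩ := h3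
    refine ⟨q, hqS, ?_⟩
    have hTsub : T ⊆ V q := by
      refine hTp.subset_left_of_subset_union (hVo q)
        (v := (Metric.closedBall 0 R)ᶜ ∪ ⋃ q' ∈ S.erase q, V q')
        (Metric.isClosed_closedBall.isOpen_compl.union (isOpen_biUnion (fun q' _ => hVo q')))
        ?_ ?_ ⟨γ τ1, mem_image_of_mem _ hτ1, hq⟩
      · rw [disjoint_left]
        rintro x hx (hx' | hx')
        · exact hx' (Metric.ball_subset_closedBall hx.2)
        · simp only [mem_iUnion, exists_prop] at hx'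
          obtain ⟨q', hq', hxq'⟩ := hx'
          rw [Finset.mem_erase] at hq'
          have := hUd (Finset.mem_coe.2 hqS) (Finset.mem_coe.2 hq'.2) hq'.1.symm
          exact disjoint_left.1 this hx.1.2 hxq'.1.2
      · rintro _ ⟨τ, hτ, rfl⟩
        by_cases hb : γ τ ∈ Metric.closedBall (0 : ℝ × ℝ) R
        · have h4 : γ τ ∈ ⋃ q ∈ S, V q := by
            by_contra hcon
            exact hδN τ hτ ⟨hb, subset_closure (hγA τ), hcon⟩
          simp only [mem_iUnion, exists_prop] at h4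
          obtain ⟨q', hq'S, hq'⟩ := h4
          by_cases hqq : q' = q
          · left
            rw [← hqq]
            exact hq'
          · right
            right
            exact mem_biUnion (Finset.mem_coe.2 (Finset.mem_erase.2 ⟨hqq, hq'S⟩)) hq'
        · exact Or.inr (Or.inl hb)
    filter_upwards [htail] with τ hτ
    exact (hTsub (mem_image_of_mem _ hτ)).1.1
  by_contra hcon
  push Not at hcon
  have h5 : ∀ q ∈ S, ∃ ε > 0, ¬ ∀ᶠ τ in 𝓝[Ioo 0 1] e, γ τ ∈ Metric.ball q ε := by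
    intro q hq
    by_contra hcon'
    push Not at hcon'
    apply hcon q hq
    rw [Metric.tendsto_nhds]
    intro ε hε
    exact hcon' ε hε
  choose! ε hε0 hε using h5
  have hSne : S.Nonempty := by
    obtain ⟨q, hq, -⟩ := hloc 1 one_pos
    exact ⟨q, hq⟩
  obtain ⟨q1, hq1, hmin⟩ := S.exists_min_image ε hSne
  obtain ⟨q, hq, hev⟩ := hloc (ε q1) (hε0 q1 hq1)
  apply hε q hq
  filter_upwards [hev] with τ hτ
  exact Metric.ball_subset_ball (hmin q hq) hτ

end Run7.h605
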