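import Mathlib
import Pool.Agent.Run7.h605.Curve2

/-!
# Adding a point on each component of a curve
-/

set_option autoImplicit false

open Set Topology Filter Function

namespace Run7.h605

theorem comp_relopen {Z S : Set (ℝ × ℝ)} (hS : IsClosed S) (hA : ∀ p ∈ Z \ S, ArcAt Z p)
    (p0 : ℝ × ℝ) : ∃ O, IsOpen O ∧ connectedComponentIn (Z \ S) p0 ⊆ O ∧
      Z ∩ O ⊆ connectedComponentIn (Z \ S) p0 := by
  set A := connectedComponentIn (Z \ S) p0 with hAdef
  have hAsub : A ⊆ Z \ S := connectedComponentIn_subset _ _
  have hloc : ∀ p ∈ A, ∃ W, IsOpen W ∧ p ∈ W ∧ Z ∩ W ⊆ A := by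
    intro p hp
    obtain ⟨W, g, h1, h2, h3, h4, h5⟩ := chart_comp hS hA (hAsub hp)
    rw [← connectedComponentIn_eq hp] at h5
    exact ⟨W, h1, h2, h5⟩
  choose! W hWo hWm hWs using hloc
  refine ⟨⋃ p ∈ A, W p, isOpen_biUnion hWo, fun p hp => mem_biUnion hp (hWm p hp), ?_⟩
  rintro q ⟨hq1, hq2⟩
  simp only [mem_iUnion, exists_prop] at hq2
  obtain ⟨p, hp, hq⟩ := hq2
  exact hWs p hp ⟨hq1, hq⟩

theorem comps_insert {Z S : Set (ℝ × ℝ)} (hZ : IsClosed Z) (hS : IsClosed S)
    (hA : ∀ p ∈ Z \ S, ArcAt Z p) {q : ℝ × ℝ} (hq : q ∈ Z \ S) :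
    (comps (Z \ insert q S)).encard ≤ (comps (Z \ S)).encard + 1 := by
  have hS' : IsClosed (insert q S) := by
    rw [insert_eq]
    exact isClosed_singleton.union hS
  have hsub' : Z \ insert q S ⊆ Z \ S := sdiff_subset_sdiff_right (subset_insert _ _)
  have hA' : ∀ p ∈ Z \ insert q S, ArcAt Z p := fun p hp => hA p (hsub' hp)
  obtain ⟨W, g, h1, h2, h3, h4, h5⟩ := chart_comp hS hA hq
  have hqr : q ∈ range g := by
    rw [h4]
    exact ⟨hq.1, h2⟩
  obtain ⟨x0, hx0⟩ := hqr
  set C := connectedComponentIn (Z \ S) q with hC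
  have hCmem : C ∈ comps (Z \ S) := ⟨q, hq, rfl⟩
  have hqC : q ∈ C := mem_connectedComponentIn hq
  have hgZ : ∀ x, x ≠ x0 → g x ∈ Z \ insert q S := by
    intro x hx
    have e1 : g x ∈ Z ∩ W := by
      rw [← h4]
      exact mem_range_self x
    have e2 := connectedComponentIn_subset _ _ (h5 e1)
    refine ⟨e1.1, ?_⟩
    rintro (h | h)
    · exact hx (h3.injective (h.trans hx0.symm))
    · exact e2.2 h
  have hleft : ∀ x, x < x0 → connectedComponentIn (Z \ insert q S) (g x) =
      connectedComponentIn (Z \ insert q S) (g (x0 - 1)) := by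
    intro x hx
    have e1 : IsPreconnected (g '' Iio x0) :=
      isPreconnected_Iio.image _ h3.continuous.continuousOn
    have e2 : g '' Iio x0 ⊆ Z \ insert q S := by
      rintro _ ⟨y, hy, rfl⟩
      exact hgZ y (ne_of_lt hy)
    apply connectedComponentIn_eq
    exact e1.subset_connectedComponentIn ⟨x, hx, rfl⟩ e2 ⟨x0 - 1, by simp, rfl⟩
  have hright : ∀ x, x0 < x → connectedComponentIn (Z \ insert q S) (g x) =
      connectedComponentIn (Z \ insert q S) (g (x0 + 1)) := by
    intro x hx
    have e1 : IsPreconnected (g '' Ioi x0) :=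
      isPreconnected_Ioi.image _ h3.continuous.continuousOn
    have e2 : g '' Ioi x0 ⊆ Z \ insert q S := by
      rintro _ ⟨y, hy, rfl⟩
      exact hgZ y (ne_of_gt hy)
    apply connectedComponentIn_eq
    exact e1.subset_connectedComponentIn ⟨x, hx, rfl⟩ e2 ⟨x0 + 1, by simp, rfl⟩
  have hkey : comps (Z \ insert q S) ⊆ (comps (Z \ S) \ {C}) ∪
      {connectedComponentIn (Z \ insert q S) (g (x0 - 1)),
        connectedComponentIn (Z \ insert q S) (g (x0 + 1))} := by
    rintro A ⟨p, hp, rfl⟩
    set A := connectedComponentIn (Z \ insert q S) p with hAd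
    have hpA : p ∈ A := mem_connectedComponentIn hp
    have hAZ : A ⊆ Z \ insert q S := connectedComponentIn_subset _ _
    have hAC : A ⊆ connectedComponentIn (Z \ S) p :=
      isPreconnected_connectedComponentIn.subset_connectedComponentIn hpA (hAZ.trans hsub')
    by_cases hqC' : q ∈ connectedComponentIn (Z \ S) p
    swap
    · left
      have e1 : connectedComponentIn (Z \ S) p ⊆ A := by
        refine isPreconnected_connectedComponentIn.subset_connectedComponentIn
          (mem_connectedComponentIn (hsub' hp)) ?_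
        intro r hr
        have hr' := connectedComponentIn_subset _ _ hr
        refine ⟨hr'.1, ?_⟩
        rintro (h | h)
        · rw [h] at hr
          exact hqC' hr
        · exact hr'.2 h
      have e2 : A = connectedComponentIn (Z \ S) p := Subset.antisymm hAC e1
      refine ⟨⟨p, hsub' hp, e2⟩, ?_⟩
      intro h
      have h' : A = C := h
      have : q ∈ A := by rw [h']; exact hqC
      exact (hAZ this).2 (mem_insert _ _)
    · right
      have hCC : connectedComponentIn (Z \ S) p = C := connectedComponentIn_eq hqC'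
      have hmeetW : (A ∩ W).Nonempty := by
        by_contra hcon
        have hdisj : Disjoint W A := by
          rw [disjoint_left]
          intro r hr1 hr2
          exact hcon ⟨r, hr2, hr1⟩
        have hqcl : q ∉ closure A := by
          intro hq'
          obtain ⟨r, hr1, hr2⟩ := mem_closure_iff.1 hq' W h1 h2
          exact disjoint_left.1 hdisj hr1 hr2
        obtain ⟨O, hO, hAO, hOA⟩ := comp_relopen hS' hA' p
        have hCp : IsPreconnected C := isPreconnected_connectedComponentIn
        obtain ⟨r, hr1, hr2, hr3⟩ := hCp O (closure A)ᶜ hO isClosed_closure.isOpen_compl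
          (by
            intro r hr
            by_cases hrA : r ∈ closure A
            · left
              rcases comp_closure hZ hS' hA' p hrA with h | h
              · exact hAO h
              · exfalso
                rcases h with h | h
                · rw [h] at hrA
                  exact hqcl hrA
                · exact (connectedComponentIn_subset _ _ hr).2 h
            · exact Or.inr hrA)
          ⟨p, by rw [← hCC]; exact mem_connectedComponentIn (hsub' hp), hAO hpA⟩
          ⟨q, hqC, hqcl⟩
        exact hr3 (subset_closure (hOA ⟨(connectedComponentIn_subset _ _ hr1).1, hr2⟩))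
      obtain ⟨r, hrA, hrW⟩ := hmeetW
      have hr : r ∈ range g := by
        rw [h4]
        exact ⟨(hAZ hrA).1, hrW⟩
      obtain ⟨x, rfl⟩ := hr
      have hAr : A = connectedComponentIn (Z \ insert q S) (g x) := connectedComponentIn_eq hrA
      rcases lt_trichotomy x x0 with hx | hx | hx
      · left
        rw [hAr, hleft x hx]
      · exfalso
        rw [hx, hx0] at hrA
        exact (hAZ hrA).2 (mem_insert _ _)
      · right
        rw [hAr, hright x hx]
        rfl
  calc (comps (Z \ insert q S)).encard
      ≤ ((comps (Z \ S) \ {C}) ∪ {connectedComponentIn (Z \ insert q S) (g (x0 - 1)),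
        connectedComponentIn (Z \ insert q S) (g (x0 + 1))}).encard := encard_le_encard hkey
    _ ≤ (comps (Z \ S) \ {C}).encard + 2 :=
        (encard_union_le _ _).trans (by
          gcongr
          refine (encard_insert_le _ _).trans ?_
          rw [encard_singleton]
          rfl)
    _ = (comps (Z \ S) \ {C}).encard + 1 + 1 := by rw [add_assoc]; rfl
    _ = (comps (Z \ S)).encard + 1 := by rw [encard_sdiff_singleton_add_one hCmem]

theorem comps_union {Z S : Set (ℝ × ℝ)} (hZ : IsClosed Z) (hS : IsClosed S)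
    (hA : ∀ p ∈ Z \ S, ArcAt Z p) (Q : Finset (ℝ × ℝ)) (hQ : (Q : Set (ℝ × ℝ)) ⊆ Z) :
    (comps (Z \ (S ∪ Q))).encard ≤ (comps (Z \ S)).encard + Q.card := by
  classical
  induction Q using Finset.induction_on with
  | empty => simp
  | insert q Q hq ih =>
    have hQ' : (Q : Set (ℝ × ℝ)) ⊆ Z := fun x hx => hQ (by simp [Finset.mem_coe.1 hx])
    have h1 := ih hQ'
    rw [Finset.card_insert_of_notMem hq]
    have hqZ : q ∈ Z := hQ (by simp)
    have hS' : IsClosed (S ∪ (Q : Set (ℝ × ℝ))) := hS.union Q.finite_toSet.isClosed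
    have hsub : Z \ (S ∪ (Q : Set (ℝ × ℝ))) ⊆ Z \ S := sdiff_subset_sdiff_right subset_union_left
    have e1 : S ∪ ((insert q Q : Finset (ℝ × ℝ)) : Set (ℝ × ℝ)) =
        insert q (S ∪ (Q : Set (ℝ × ℝ))) := by
      rw [Finset.coe_insert, union_insert]
    rw [e1]
    by_cases hqS : q ∈ S ∪ (Q : Set (ℝ × ℝ))
    · rw [insert_eq_of_mem hqS]
      refine h1.trans ?_
      gcongr
      exact Nat.le_succ _
    · have h2 := comps_insert hZ hS' (fun p hp => hA p (hsub hp)) (q := q) ⟨hqZ, hqS⟩
      refine h2.trans ?_
      push_cast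
      rw [← add_assoc]
      gcongr

end Run7.h605
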