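import Mathlib
import Pool.Agent.Run7.h605.Stmt
import Pool.Agent.Run7.h605.Defs
import Pool.Agent.Run7.h605.Curve3

/-!
# From the hypotheses of the statement to the working assumptions
-/

set_option autoImplicit false

open Set Topology Filter

namespace Run7.h605

open Classical in
/-- extension of a parametrisation to its ends -/
noncomputable def ext (S : Finset (ℝ × ℝ)) (g : ℝ → ℝ × ℝ) (τ : ℝ) : ℝ × ℝ :=
  if τ ∈ Ioo (0 : ℝ) 1 then g τ
  else if h : ∃ q ∈ S, Tendsto g (𝓝[Ioo 0 1] τ) (𝓝 q) then h.choose else 0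

theorem ext_Ioo {S : Finset (ℝ × ℝ)} {g : ℝ → ℝ × ℝ} {τ : ℝ} (hτ : τ ∈ Ioo (0 : ℝ) 1) :
    ext S g τ = g τ := if_pos hτ

theorem ext_end {S : Finset (ℝ × ℝ)} {g : ℝ → ℝ × ℝ} {τ : ℝ} (hτ : τ ∉ Ioo (0 : ℝ) 1)
    (h : ∃ q ∈ S, Tendsto g (𝓝[Ioo 0 1] τ) (𝓝 q)) :
    ext S g τ ∈ S ∧ Tendsto g (𝓝[Ioo 0 1] τ) (𝓝 (ext S g τ)) := by
  have : ext S g τ = h.choose := by
    unfold ext
    rw [if_neg hτ, dif_pos h]
  rw [this]
  exact h.choose_spec

/-- the domain of the extension -/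
def dom (S : Finset (ℝ × ℝ)) (g : ℝ → ℝ × ℝ) : Set ℝ :=
  Ioo 0 1 ∪ {e | (e = 0 ∨ e = 1) ∧ ∃ q ∈ S, Tendsto g (𝓝[Ioo 0 1] e) (𝓝 q)}

/-- near an end the domain is the open interval together with that end -/
theorem dom_near {S : Finset (ℝ × ℝ)} {g : ℝ → ℝ × ℝ} {e : ℝ} (he : e = 0 ∨ e = 1) :
    ∃ W ∈ 𝓝 e, dom S g ∩ W ⊆ insert e (Ioo 0 1) := by
  refine ⟨Ioo (e - 1) (e + 1), isOpen_Ioo.mem_nhds ⟨by linarith, by linarith⟩, ?_⟩
  rintro τ ⟨hτ | ⟨hτ, -⟩, hW⟩
  · exact Or.inr hτ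
  · left
    rcases he with rfl | rfl <;> rcases hτ with rfl | rfl
    · rfl
    · exfalso
      have := hW.2
      linarith
    · exfalso
      have := hW.1
      linarith
    · rfl

theorem ext_cont {S : Finset (ℝ × ℝ)} {g : ℝ → ℝ × ℝ} (hg : ContinuousOn g (Ioo 0 1)) :
    ContinuousOn (ext S g) (dom S g) := by
  rintro τ hτ
  by_cases hI : τ ∈ Ioo (0 : ℝ) 1
  · have h1 : ContinuousAt g τ := hg.continuousAt (isOpen_Ioo.mem_nhds hI)
    have h2 : ext S g =ᶠ[𝓝 τ] g := by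
      filter_upwards [isOpen_Ioo.mem_nhds hI] with σ hσ
      exact ext_Ioo hσ
    exact (h1.congr h2.symm).continuousWithinAt
  · rcases hτ with hτ | ⟨hτ, hex⟩
    · exact absurd hτ hI
    obtain ⟨h1, h2⟩ := ext_end hI hex
    have h3 : ContinuousWithinAt (ext S g) (insert τ (Ioo 0 1)) τ := by
      rw [continuousWithinAt_insert_self]
      unfold ContinuousWithinAt
      refine h2.congr' ?_
      filter_upwards [self_mem_nhdsWithin] with σ hσ
      exact (ext_Ioo hσ).symm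
    obtain ⟨W, hW, hsub⟩ := dom_near (S := S) (g := g) hτ
    refine h3.mono_of_mem_nhdsWithin ?_
    rw [mem_nhdsWithin_iff_exists_mem_nhds_inter]
    exact ⟨W, hW, by rw [inter_comm]; exact hsub⟩

theorem ext_proper {S : Finset (ℝ × ℝ)} {g : ℝ → ℝ × ℝ} (hg : ContinuousOn g (Ioo 0 1))
    (hend : ∀ e : ℝ, (e = 0 ∨ e = 1) →
      (∃ q ∈ S, Tendsto g (𝓝[Ioo 0 1] e) (𝓝 q)) ∨
        Tendsto g (𝓝[Ioo 0 1] e) (cocompact (ℝ × ℝ)))
    {C : Set (ℝ × ℝ)} (hC : IsCompact C) : IsCompact (dom S g ∩ (ext S g) ⁻¹' C) := by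
  have hsup : dom S g ⊆ Icc 0 1 := by
    rintro τ (hτ | ⟨rfl | rfl, -⟩)
    · exact Ioo_subset_Icc_self hτ
    · simp
    · simp
  refine isCompact_Icc.of_isClosed_subset ?_ (inter_subset_left.trans hsup)
  rw [← closure_subset_iff_isClosed]
  intro τ hτ
  have hτI : τ ∈ Icc (0 : ℝ) 1 := closure_minimal (inter_subset_left.trans hsup) isClosed_Icc hτ
  by_cases hD : τ ∈ dom S g
  · refine ⟨hD, ?_⟩
    have h1 : ContinuousWithinAt (ext S g) (dom S g ∩ (ext S g) ⁻¹' C) τ :=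
      (ext_cont hg τ hD).mono inter_subset_left
    have hmt : MapsTo (ext S g) (dom S g ∩ (ext S g) ⁻¹' C) C := fun σ hσ => hσ.2
    have h2 := h1.mem_closure hτ hmt
    rw [hC.isClosed.closure_eq] at h2
    exact h2
  · exfalso
    have hnI : τ ∉ Ioo (0 : ℝ) 1 := fun h => hD (Or.inl h)
    have he : τ = 0 ∨ τ = 1 := by
      by_contra hcon
      rw [not_or] at hcon
      exact hnI ⟨lt_of_le_of_ne hτI.1 (Ne.symm hcon.1), lt_of_le_of_ne hτI.2 hcon.2⟩
    have hco : Tendsto g (𝓝[Ioo 0 1] τ) (cocompact (ℝ × ℝ)) := by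
      rcases hend τ he with h | h
      · exact absurd (Or.inr ⟨he, h⟩) hD
      · exact h
    have h3 : ∀ᶠ σ in 𝓝[Ioo 0 1] τ, g σ ∈ Cᶜ := hco hC.compl_mem_cocompact
    obtain ⟨W, hW, hsub⟩ := dom_near (S := S) (g := g) he
    obtain ⟨W', hW', hsub'⟩ := mem_nhdsWithin_iff_exists_mem_nhds_inter.1 h3
    obtain ⟨σ, hσ1, hσ2⟩ := mem_closure_iff_nhds.1 hτ (W ∩ W') (Filter.inter_mem hW hW')
    rcases hsub ⟨hσ2.1, hσ1.1⟩ with h | h
    · rw [h] at hσ2
      exact hD hσ2.1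
    · have h4 := hsub' ⟨hσ1.2, h⟩
      have h5 : ext S g σ ∈ C := hσ2.2
      rw [ext_Ioo h] at h5
      exact h4 h5

theorem exists_arc {S : Finset (ℝ × ℝ)} {A : Set (ℝ × ℝ)} (h : IsEdge S A) :
    ∃ α : Arc, α.g '' Ioo 0 1 = A ∧ ∀ e ∈ α.D, e ∉ Ioo (0 : ℝ) 1 → α.g e ∈ S := by
  obtain ⟨g, h1, h2, h3, h4⟩ := h
  refine ⟨{ g := ext S g
            D := dom S g
            sub := subset_union_left
            sup := ?_
            cont := ext_cont h1
            inj := ?_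
            proper := fun C hC => ext_proper h1 h4 hC }, ?_, ?_⟩
  · rintro τ (hτ | ⟨rfl | rfl, -⟩)
    · exact Ioo_subset_Icc_self hτ
    · simp
    · simp
  · intro a ha b hb hab
    rw [ext_Ioo ha, ext_Ioo hb] at hab
    exact h2 ha hb hab
  · rw [← h3]
    exact image_congr (fun τ hτ => ext_Ioo hτ)
  · rintro e (he | ⟨he, hex⟩) hI
    · exact absurd he hI
    · exact (ext_end hI hex).1

theorem decomp {t : ℕ} {Z : Set (ℝ × ℝ)} (hZ : IsClosed Z) (h1 : (comps Z).encard ≤ t)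
    (h2 : (sing Z).encard ≤ t) : ∃ S : Finset (ℝ × ℝ), S.card ≤ 2 * t ∧
      (S : Set (ℝ × ℝ)) ⊆ Z ∧ (∀ p ∈ Z \ (S : Set (ℝ × ℝ)), ArcAt Z p) ∧
      (∀ p ∈ Z, (connectedComponentIn Z p ∩ (S : Set (ℝ × ℝ))).Nonempty) ∧
      (comps (Z \ (S : Set (ℝ × ℝ)))).encard ≤ (comps (Z \ sing Z)).encard + t := by
  classical
  have hf1 : (comps Z).Finite := Set.finite_of_encard_le_coe h1
  have hf2 : (sing Z).Finite := Set.finite_of_encard_le_coe h2
  have hex : ∀ C ∈ comps Z, ∃ q, q ∈ C ∧ q ∈ Z := by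
    rintro C ⟨p, hp, rfl⟩
    exact ⟨p, mem_connectedComponentIn hp, hp⟩
  choose! q hq hq' using hex
  set Q : Finset (ℝ × ℝ) := hf1.toFinset.image q with hQ
  have hQc : Q.card ≤ t := by
    refine Finset.card_image_le.trans ?_
    have : (hf1.toFinset.card : ℕ∞) ≤ t := by
      rw [← hf1.encard_eq_coe_toFinset_card]
      exact h1
    exact_mod_cast this
  have hS0c : hf2.toFinset.card ≤ t := by
    have : (hf2.toFinset.card : ℕ∞) ≤ t := by
      rw [← hf2.encard_eq_coe_toFinset_card]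
      exact h2
    exact_mod_cast this
  have hQZ : (Q : Set (ℝ × ℝ)) ⊆ Z := by
    intro x hx
    rw [hQ, Finset.mem_coe, Finset.mem_image] at hx
    obtain ⟨C, hC, rfl⟩ := hx
    rw [Set.Finite.mem_toFinset] at hC
    exact hq' C hC
  have hcoe : ((hf2.toFinset ∪ Q : Finset (ℝ × ℝ)) : Set (ℝ × ℝ)) = sing Z ∪ Q := by
    rw [Finset.coe_union, Set.Finite.coe_toFinset]
  have hArc : ∀ p ∈ Z \ sing Z, ArcAt Z p := by
    rintro p ⟨hp, hps⟩
    by_contra hcon
    exact hps ⟨hp, hcon⟩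
  refine ⟨hf2.toFinset ∪ Q, ?_, ?_, ?_, ?_, ?_⟩
  · refine (Finset.card_union_le _ _).trans ?_
    omega
  · rw [hcoe]
    exact union_subset (fun p hp => hp.1) hQZ
  · rw [hcoe]
    rintro p ⟨hp, hps⟩
    exact hArc p ⟨hp, fun h => hps (Or.inl h)⟩
  · intro p hp
    rw [hcoe]
    have hC : connectedComponentIn Z p ∈ comps Z := ⟨p, hp, rfl⟩
    refine ⟨q (connectedComponentIn Z p), hq _ hC, Or.inr ?_⟩
    rw [hQ, Finset.mem_coe, Finset.mem_image]
    exact ⟨_, by rw [Set.Finite.mem_toFinset]; exact hC, rfl⟩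
  · rw [hcoe]
    refine (comps_union hZ hf2.isClosed hArc Q hQZ).trans ?_
    gcongr

section

variable {s t n : ℕ} {f : Fin n → ℝ × ℝ → ℝ} (hf : Family s t f)

theorem zero_closed (hf : Family s t f) (a b : Fin n) : IsClosed {p | f a p = f b p} :=
  isClosed_eq (hf.cont a) (hf.cont b)

open Classical in
/-- vertices of the curve of a pair -/
noncomputable def S0 (a b : Fin n) : Finset (ℝ × ℝ) :=
  if h : a ≠ b then (decomp (zero_closed hf a b) (hf.comp a b h) (hf.sing a b h)).choose else ∅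

theorem spec0 {a b : Fin n} (h : a ≠ b) : (S0 hf a b).card ≤ 2 * t ∧
    (S0 hf a b : Set (ℝ × ℝ)) ⊆ {p | f a p = f b p} ∧
    (∀ p ∈ {p | f a p = f b p} \ (S0 hf a b : Set (ℝ × ℝ)), ArcAt {p | f a p = f b p} p) ∧
    (∀ p ∈ {p | f a p = f b p}, (connectedComponentIn {p | f a p = f b p} p ∩
      (S0 hf a b : Set (ℝ × ℝ))).Nonempty) ∧
    (comps ({p | f a p = f b p} \ (S0 hf a b : Set (ℝ × ℝ)))).encard ≤
      (comps ({p | f a p = f b p} \ sing {p | f a p = f b p})).encard + t := by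
  have h1 : S0 hf a b =
      (decomp (zero_closed hf a b) (hf.comp a b h) (hf.sing a b h)).choose := dif_pos h
  rw [h1]
  exact (decomp (zero_closed hf a b) (hf.comp a b h) (hf.sing a b h)).choose_spec

/-- edges of the curve of a pair -/
def E0 (a b : Fin n) : Set (Set (ℝ × ℝ)) :=
  comps ({p | f a p = f b p} \ (S0 hf a b : Set (ℝ × ℝ)))

theorem E0_edge {a b : Fin n} (h : a ≠ b) {A : Set (ℝ × ℝ)} (hA : A ∈ E0 hf a b) :
    IsEdge (S0 hf a b) A := by
  obtain ⟨p, hp, rfl⟩ := hA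
  obtain ⟨-, -, h3, h4, -⟩ := spec0 hf h
  exact comp_isEdge (zero_closed hf a b) h3 h4 hp

theorem E0_disj {a b : Fin n} {A B : Set (ℝ × ℝ)} (hA : A ∈ E0 hf a b) (hB : B ∈ E0 hf a b)
    (hne : A ≠ B) : Disjoint A B := by
  obtain ⟨p, hp, rfl⟩ := hA
  obtain ⟨q, hq, rfl⟩ := hB
  rw [disjoint_left]
  intro x hx hx'
  exact hne ((connectedComponentIn_eq hx).trans (connectedComponentIn_eq hx').symm)

theorem E0_sub {a b : Fin n} {A : Set (ℝ × ℝ)} (hA : A ∈ E0 hf a b) :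
    A ⊆ {p | f a p = f b p} \ (S0 hf a b : Set (ℝ × ℝ)) := by
  obtain ⟨p, hp, rfl⟩ := hA
  exact connectedComponentIn_subset _ _

/-- arcs of the curve of a pair -/
def A0 (a b : Fin n) : Set Arc :=
  {α | ∃ A ∈ E0 hf a b, ∃ h : IsEdge (S0 hf a b) A, α = (exists_arc h).choose}

theorem A0_inj {a b : Fin n} {α β : Arc} (hα : α ∈ A0 hf a b) (hβ : β ∈ A0 hf a b)
    (h : α.g '' Ioo 0 1 = β.g '' Ioo 0 1) : α = β := by
  obtain ⟨A, hA, hEA, rfl⟩ := hα
  obtain ⟨B, hB, hEB, rfl⟩ := hβ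
  rw [(exists_arc hEA).choose_spec.1, (exists_arc hEB).choose_spec.1] at h
  subst h
  rfl

theorem A0_maps {a b : Fin n} {α : Arc} (hα : α ∈ A0 hf a b) :
    α.g '' Ioo 0 1 ∈ E0 hf a b := by
  obtain ⟨A, hA, hEA, rfl⟩ := hα
  rw [(exists_arc hEA).choose_spec.1]
  exact hA

theorem A0_card {a b : Fin n} : (A0 hf a b).encard ≤ (E0 hf a b).encard :=
  Set.encard_le_encard_of_injOn (f := fun α => α.g '' Ioo 0 1)
    (fun _ hα => A0_maps hf hα) (fun _ hα _ hβ he => A0_inj hf hα hβ he)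

theorem A0_cp {a b : Fin n} (h : a ≠ b) (A : Set Arc) (hA : A ⊆ A0 hf a b) :
    closure (⋃ α ∈ A, α.g '' Ioo 0 1) ⊆ ⋃ α ∈ A, closure (α.g '' Ioo 0 1) := by
  obtain ⟨-, -, h3, h4, -⟩ := spec0 hf h
  have h5 := comp_CP (zero_closed hf a b) (S0 hf a b).finite_toSet h3 h4
  have h6 := h5 ((fun α : Arc => α.g '' Ioo 0 1) '' A) (by
    rintro _ ⟨α, hα, rfl⟩
    exact A0_maps hf (hA hα))
  rw [sUnion_image] at h6
  intro p hp
  have h7 := h6 hp
  simp only [mem_iUnion, exists_prop] at h7 ⊢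
  obtain ⟨_, ⟨α, hα, rfl⟩, hp'⟩ := h7
  exact ⟨α, hα, hp'⟩

theorem minmax_ne {i j : Fin n} (h : i ≠ j) : min i j ≠ max i j := by
  rcases lt_or_gt_of_ne h with hlt | hlt
  · rw [min_eq_left hlt.le, max_eq_right hlt.le]
    exact h
  · rw [min_eq_right hlt.le, max_eq_left hlt.le]
    exact h.symm

theorem minmax_set (i j : Fin n) (p : ℝ × ℝ) :
    f i p = f j p ↔ f (min i j) p = f (max i j) p := by
  rcases le_total i j with hle | hle
  · rw [min_eq_left hle, max_eq_right hle]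
  · rw [min_eq_right hle, max_eq_left hle]
    exact eq_comm

/-- the working assumptions -/
noncomputable def toSetup : Setup (Fin n) s (2 * t) where
  f := f
  cont := hf.cont
  quad := by
    intro a b c d h1 h2 h3 h4 h5 h6 p g1 g2 g3
    exact hf.quad a b c d h1 h2 h3 h4 h5 h6 p ⟨g1, g2, g3⟩
  triple := by
    intro Q hQ
    obtain ⟨x, y, z, h1, h2, h3, rfl⟩ := Finset.card_eq_three.1 hQ
    refine (Set.encard_le_encard ?_).trans (hf.triple x y z h1 h2 h3)
    intro p hp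
    exact ⟨hp x (by simp) y (by simp), hp x (by simp) z (by simp)⟩
  S := fun i j => S0 hf (min i j) (max i j)
  Ssymm := by
    intro i j
    show S0 hf (min i j) (max i j) = S0 hf (min j i) (max j i)
    rw [min_comm, max_comm]
  Scard := fun i j h => (spec0 hf (minmax_ne h)).1
  arcs := fun i j => A0 hf (min i j) (max i j)
  arcsymm := by
    intro i j
    show A0 hf (min i j) (max i j) = A0 hf (min j i) (max j i)
    rw [min_comm, max_comm]
  cp := fun i j h A hA => A0_cp hf (minmax_ne h) A hA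
  cover := by
    intro i j hij p
    rw [minmax_set]
    have hne := minmax_ne hij
    set a := min i j
    set b := max i j
    obtain ⟨-, h2, -, -, -⟩ := spec0 hf hne
    constructor
    · intro hp
      by_cases hpS : p ∈ S0 hf a b
      · exact Or.inl hpS
      · right
        have hp' : p ∈ {p | f a p = f b p} \ (S0 hf a b : Set (ℝ × ℝ)) := ⟨hp, hpS⟩
        have hA : connectedComponentIn ({p | f a p = f b p} \ (S0 hf a b : Set (ℝ × ℝ))) p ∈
            E0 hf a b := ⟨p, hp', rfl⟩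
        have hE := E0_edge hf hne hA
        refine ⟨_, ⟨_, hA, hE, rfl⟩, ?_⟩
        have hpm := mem_connectedComponentIn hp'
        rw [← (exists_arc hE).choose_spec.1] at hpm
        exact hpm
    · rintro (hp | ⟨α, hα, τ, hτ, rfl⟩)
      · exact h2 hp
      · exact (E0_sub hf (A0_maps hf hα) ⟨τ, hτ, rfl⟩).1
  disjS := by
    intro i j hij α hα τ hτ hS
    exact (E0_sub hf (A0_maps hf hα) ⟨τ, hτ, rfl⟩).2 hS
  disj := by
    intro i j hij α hα β hβ τ hτ τ' hτ' he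
    by_contra hcon
    have h5 : α.g '' Ioo 0 1 ≠ β.g '' Ioo 0 1 := fun h => hcon (A0_inj hf hα hβ h)
    have h6 := E0_disj hf (A0_maps hf hα) (A0_maps hf hβ) h5
    exact disjoint_left.1 h6 ⟨τ, hτ, rfl⟩ ⟨τ', hτ', he.symm⟩
  ends := by
    intro i j hij α hα e he heI
    obtain ⟨A, hA, hEA, rfl⟩ := hα
    exact (exists_arc hEA).choose_spec.2 e he heI
  comps := by
    intro e he
    obtain ⟨i, j, hij, rfl⟩ := Finset.card_eq_two.1 he
    have h1 : T f ({i, j} : Finset (Fin n)) = {p | f i p = f j p} := by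
      ext p
      constructor
      · intro h
        exact h i (by simp) j (by simp)
      · intro h x hx y hy
        have h' : f i p = f j p := h
        simp only [Finset.mem_insert, Finset.mem_singleton] at hx hy
        rcases hx with rfl | rfl <;> rcases hy with rfl | rfl <;> simp [h']
    rw [h1]
    refine (hf.comp i j hij).trans ?_
    exact_mod_cast (by omega : t ≤ 2 * t)

theorem toSetup_f : (toSetup hf).f = f := rfl

theorem toSetup_arcs {m : ℕ} (hm : ∀ i j, i ≠ j →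
    (comps ({p | f i p = f j p} \ sing {p | f i p = f j p})).encard ≤ m)
    {i j : Fin n} (h : i ≠ j) : ((toSetup hf).arcs i j).encard ≤ ((m + t : ℕ) : ℕ∞) := by
  have hne := minmax_ne h
  refine (A0_card hf (a := min i j) (b := max i j)).trans ?_
  refine (spec0 hf hne).2.2.2.2.trans ?_
  push_cast
  gcongr
  exact hm _ _ hne

end

end Run7.h605
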