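import Mathlib

/-!
# Components of a subset of the unit interval
-/

set_option autoImplicit false

open Set Topology

namespace Run7.h605

/-- the component of `τ0` in `G`, inside the open unit interval -/
def compS (G : Set ℝ) (τ0 : ℝ) : Set ℝ := {τ | τ ∈ Ioo (0 : ℝ) 1 ∧ uIcc τ0 τ ⊆ G}

theorem compS_ord {G : Set ℝ} {τ0 : ℝ} : OrdConnected (compS G τ0) := by
  refine ⟨?_⟩
  rintro a ⟨ha, ha'⟩ b ⟨hb, hb'⟩ c ⟨hac, hcb⟩
  refine ⟨⟨lt_of_lt_of_le ha.1 hac, lt_of_le_of_lt hcb hb.2⟩, ?_⟩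
  intro τ' hτ'
  rw [mem_uIcc] at hτ'
  rcases hτ' with ⟨h1, h2⟩ | ⟨h1, h2⟩
  · exact hb' (mem_uIcc.2 (Or.inl ⟨h1, h2.trans hcb⟩))
  · exact ha' (mem_uIcc.2 (Or.inr ⟨hac.trans h1, h2⟩))

theorem compS_subG {G : Set ℝ} {τ0 τ1 : ℝ} (h : τ1 ∈ compS G τ0) : τ1 ∈ G :=
  h.2 right_mem_uIcc

theorem compS_sub {G : Set ℝ} {τ0 τ1 : ℝ} (h : τ1 ∈ compS G τ0) :
    compS G τ1 ⊆ compS G τ0 := by
  rintro τ ⟨hτ, hτ'⟩
  refine ⟨hτ, ?_⟩
  intro τ' hm
  rcases uIcc_subset_uIcc_union_uIcc (b := τ1) hm with h1 | h1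
  · exact h.2 h1
  · exact hτ' h1

theorem compS_symm {G : Set ℝ} {τ0 τ1 : ℝ} (h0 : τ0 ∈ Ioo (0 : ℝ) 1) (h : τ1 ∈ compS G τ0) :
    τ0 ∈ compS G τ1 := by
  refine ⟨h0, ?_⟩
  rw [uIcc_comm]
  exact h.2

theorem compS_eq {G : Set ℝ} {τ0 τ1 : ℝ} (h0 : τ0 ∈ Ioo (0 : ℝ) 1) (h : τ1 ∈ compS G τ0) :
    compS G τ1 = compS G τ0 :=
  Subset.antisymm (compS_sub h) (compS_sub (compS_symm h0 h))

theorem compS_self {G : Set ℝ} {τ0 : ℝ} (h0 : τ0 ∈ Ioo (0 : ℝ) 1) (h : τ0 ∈ G) :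
    τ0 ∈ compS G τ0 := by
  refine ⟨h0, ?_⟩
  rw [uIcc_self, singleton_subset_iff]
  exact h

/-- the set of components -/
def compsS (G : Set ℝ) : Set (Set ℝ) := {C | ∃ τ0 ∈ Ioo (0 : ℝ) 1, τ0 ∈ G ∧ C = compS G τ0}

/-- the number of components is at most one plus the number of boundary points -/
theorem compsS_card {G : Set ℝ} (hG : ∀ τ ∈ G, τ ∈ Ioo (0 : ℝ) 1 → G ∈ 𝓝 τ) :
    (compsS G).encard ≤ {τ | τ ∈ Ioo (0 : ℝ) 1 ∧ τ ∉ G ∧ τ ∈ closure G}.encard + 1 := by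
  set Z := {τ | τ ∈ Ioo (0 : ℝ) 1 ∧ τ ∉ G ∧ τ ∈ closure G} with hZ
  -- openness of components
  have hopen : ∀ τ0 τ1, τ1 ∈ compS G τ0 → ∃ δ > 0, Ioo (τ1 - δ) (τ1 + δ) ⊆ compS G τ0 := by
    intro τ0 τ1 h1
    have h2 : G ∩ Ioo (0 : ℝ) 1 ∈ 𝓝 τ1 :=
      Filter.inter_mem (hG τ1 (compS_subG h1) h1.1) (isOpen_Ioo.mem_nhds h1.1)
    obtain ⟨δ, hδ, hball⟩ := Metric.mem_nhds_iff.1 h2
    rw [Real.ball_eq_Ioo] at hball
    refine ⟨δ, hδ, ?_⟩
    intro τ hτ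
    refine ⟨(hball hτ).2, ?_⟩
    intro c hc
    rcases uIcc_subset_uIcc_union_uIcc (b := τ1) hc with h3 | h3
    · exact h1.2 h3
    · refine (hball ?_).1
      rw [mem_uIcc] at h3
      rcases h3 with h3 | h3
      · exact ⟨by linarith [h3.1], by linarith [h3.2, hτ.2]⟩
      · exact ⟨by linarith [h3.1, hτ.1], by linarith [h3.2]⟩
  have hmaps : MapsTo (fun C : Set ℝ => sInf C) (compsS G) (Z ∪ {0}) := by
    rintro C ⟨τ0, h0, hG0, rfl⟩
    have hself := compS_self h0 hG0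
    have hbdd : BddBelow (compS G τ0) := ⟨0, fun c hc => hc.1.1.le⟩
    have hge : 0 ≤ sInf (compS G τ0) := le_csInf ⟨_, hself⟩ (fun c hc => hc.1.1.le)
    have hle : sInf (compS G τ0) ≤ τ0 := csInf_le hbdd hself
    rcases hge.eq_or_lt with he | hlt
    · right
      show sInf (compS G τ0) = 0
      exact he.symm
    · left
      set a := sInf (compS G τ0) with ha
      have haI : a ∈ Ioo (0 : ℝ) 1 := ⟨hlt, lt_of_le_of_lt hle h0.2⟩
      have hcl : a ∈ closure (compS G τ0) := csInf_mem_closure ⟨_, hself⟩ hbdd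
      show a ∈ Z
      refine ⟨haI, ?_, closure_mono (fun c hc => compS_subG hc) hcl⟩
      intro haG
      -- then `a` is in the component, and so is something smaller
      have h2 : G ∩ Ioo (0 : ℝ) 1 ∈ 𝓝 a :=
        Filter.inter_mem (hG a haG haI) (isOpen_Ioo.mem_nhds haI)
      obtain ⟨δ, hδ, hball⟩ := Metric.mem_nhds_iff.1 h2
      obtain ⟨c, hc, hca⟩ := Metric.mem_closure_iff.1 hcl δ hδ
      rw [Real.ball_eq_Ioo] at hball
      rw [Real.dist_eq, abs_lt] at hca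
      have haC : a ∈ compS G τ0 := by
        refine ⟨haI, ?_⟩
        intro c' hc'
        rcases uIcc_subset_uIcc_union_uIcc (b := c) hc' with h3 | h3
        · exact hc.2 h3
        · refine (hball ?_).1
          rw [mem_uIcc] at h3
          rcases h3 with h3 | h3
          · exact ⟨by linarith [h3.1, hca.2], by linarith [h3.2]⟩
          · exact ⟨by linarith [h3.1], by linarith [h3.2, hca.1]⟩
      obtain ⟨δ', hδ', hsub⟩ := hopen τ0 a haC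
      have h4 : a - δ' / 2 ∈ compS G τ0 := hsub ⟨by linarith, by linarith⟩
      have h5 := csInf_le hbdd h4
      linarith
  have hinj : InjOn (fun C : Set ℝ => sInf C) (compsS G) := by
    have key : ∀ τ0 τ1, τ0 ∈ Ioo (0 : ℝ) 1 → τ1 ∈ Ioo (0 : ℝ) 1 → τ0 ∈ G → τ1 ∈ G → τ0 ≤ τ1 →
        sInf (compS G τ0) = sInf (compS G τ1) → compS G τ0 = compS G τ1 := by
      intro τ0 τ1 h0 h1 hG0 hG1 hle he
      have hself0 := compS_self h0 hG0
      have hself1 := compS_self h1 hG1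
      have hbdd0 : BddBelow (compS G τ0) := ⟨0, fun c hc => hc.1.1.le⟩
      have hlt : sInf (compS G τ0) < τ0 := by
        obtain ⟨δ', hδ', hsub⟩ := hopen τ0 τ0 hself0
        have h4 : τ0 - δ' / 2 ∈ compS G τ0 := hsub ⟨by linarith, by linarith⟩
        have h5 := csInf_le hbdd0 h4
        linarith
      rw [he] at hlt
      obtain ⟨d, hd, hdlt⟩ := exists_lt_of_csInf_lt ⟨_, hself1⟩ hlt
      have h6 : τ0 ∈ compS G τ1 := compS_ord.out hd hself1 ⟨hdlt.le, hle⟩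
      exact compS_eq h1 h6
    rintro C ⟨τ0, h0, hG0, rfl⟩ C' ⟨τ1, h1, hG1, rfl⟩ he
    rcases le_total τ0 τ1 with hle | hle
    · exact key τ0 τ1 h0 h1 hG0 hG1 hle he
    · exact (key τ1 τ0 h1 h0 hG1 hG0 hle he.symm).symm
  calc (compsS G).encard ≤ (Z ∪ {0}).encard := Set.encard_le_encard_of_injOn hmaps hinj
    _ ≤ Z.encard + ({0} : Set ℝ).encard := Set.encard_union_le _ _
    _ = Z.encard + 1 := by rw [Set.encard_singleton]

end Run7.h605
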