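import Mathlib

/-!
# A Clarkson-Shor type counting lemma
-/

set_option autoImplicit false

namespace Run7.h605

theorem choose_aux (N q : ℕ) : ∀ x : ℕ, x ≤ N →
    N.choose (q + 1) ≤ (N - x).choose (q + 1) + x * (N - 1).choose q := by
  intro x
  induction x with
  | zero => intro _; simp
  | succ x ih =>
    intro hx
    have h1 := ih (by omega)
    have h2 : (N - x).choose (q + 1)
        = (N - (x + 1)).choose q + (N - (x + 1)).choose (q + 1) := by
      have : N - x = (N - (x + 1)) + 1 := by omega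
      rw [this, Nat.choose_succ_succ]
    have h3 : (N - (x + 1)).choose q ≤ (N - 1).choose q :=
      Nat.choose_le_choose q (by omega)
    calc N.choose (q + 1) ≤ (N - x).choose (q + 1) + x * (N - 1).choose q := h1
      _ ≤ (N - 1).choose q + (N - (x + 1)).choose (q + 1) + x * (N - 1).choose q := by
          rw [h2]; omega
      _ = _ := by ring

theorem choose_half (N q x : ℕ) (h : 2 * x * q ≤ N) : N.choose q ≤ 2 * (N - x).choose q := by
  rcases Nat.eq_zero_or_pos q with hq | hq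
  · subst hq
    simp
  obtain ⟨q, rfl⟩ := Nat.exists_eq_succ_of_ne_zero hq.ne'
  have hxN : x ≤ N := by nlinarith
  have h1 := choose_aux N q x hxN
  rcases Nat.eq_zero_or_pos N with hN | hN
  · subst hN
    have : x = 0 := by omega
    subst this
    simp
  have h2 : N * (N - 1).choose q = N.choose (q + 1) * (q + 1) := by
    have := Nat.add_one_mul_choose_eq (N - 1) q
    rwa [Nat.sub_add_cancel hN] at this
  have h3 : 2 * (x * (N - 1).choose q) ≤ N.choose (q + 1) := by
    by_contra hcon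
    push Not at hcon
    have h4 : N * N.choose (q + 1) < N * (2 * (x * (N - 1).choose q)) :=
      Nat.mul_lt_mul_of_pos_left hcon hN
    have h5 : N * (2 * (x * (N - 1).choose q)) = 2 * x * (N.choose (q + 1) * (q + 1)) := by
      rw [← h2]; ring
    have h6 : 2 * x * (N.choose (q + 1) * (q + 1)) = (2 * x * (q + 1)) * N.choose (q + 1) := by
      ring
    have h7 : (2 * x * (q + 1)) * N.choose (q + 1) ≤ N * N.choose (q + 1) :=
      Nat.mul_le_mul_right _ h
    omega
  show N.choose (q + 1) ≤ 2 * (N - x).choose (q + 1)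
  omega

theorem cs_count {ι : Type*} [DecidableEq ι] (R P X : Finset ι) (k r : ℕ) (hP : P ⊆ R)
    (hP3 : P.card = 3) (hX : X ⊆ R \ P) (hXk : X.card ≤ k) (hr : 3 ≤ r)
    (hrn : 2 * k * (r - 3) ≤ R.card - 3) :
    (R.card - 3).choose (r - 3)
      ≤ 2 * ((R.powersetCard r).filter (fun R' => P ⊆ R' ∧ Disjoint X R')).card := by
  have h1 : (R \ P).card = R.card - 3 := by
    rw [Finset.card_sdiff_of_subset hP, hP3]
  have h2 : ((R \ P) \ X).card = R.card - 3 - X.card := by
    rw [Finset.card_sdiff_of_subset hX, h1]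
  have h3 : (R.card - 3).choose (r - 3) ≤ 2 * (R.card - 3 - X.card).choose (r - 3) := by
    refine choose_half _ _ _ (le_trans ?_ hrn)
    exact Nat.mul_le_mul_right _ (Nat.mul_le_mul_left _ hXk)
  refine h3.trans ?_
  have h4 : (((R \ P) \ X).powersetCard (r - 3)).card = (R.card - 3 - X.card).choose (r - 3) := by
    rw [Finset.card_powersetCard, h2]
  rw [← h4]
  refine Nat.mul_le_mul_left _ ?_
  refine Finset.card_le_card_of_injOn (fun T => P ∪ T) ?_ ?_
  · intro T hT
    simp only [Finset.mem_coe, Finset.mem_filter,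
      Finset.mem_powersetCard] at hT ⊢
    obtain ⟨hT1, hT2⟩ := hT
    have hdisj : Disjoint P T := by
      rw [Finset.disjoint_left]
      intro a ha haT
      have := hT1 haT
      simp [ha] at this
    refine ⟨⟨?_, ?_⟩, Finset.subset_union_left, ?_⟩
    · refine Finset.union_subset hP ?_
      intro a ha
      have := hT1 ha
      simp only [Finset.mem_sdiff] at this
      exact this.1.1
    · rw [Finset.card_union_of_disjoint hdisj, hP3, hT2]
      omega
    · rw [Finset.disjoint_left]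
      intro a ha haU
      rcases Finset.mem_union.1 haU with h | h
      · have := hX ha
        simp [h] at this
      · have := hT1 h
        simp [ha] at this
  · intro T hT T' hT' he
    simp only [Finset.mem_coe, Finset.mem_powersetCard] at hT hT'
    have he' : P ∪ T = P ∪ T' := he
    have hd : ∀ T : Finset ι, T ⊆ (R \ P) \ X → (P ∪ T) \ P = T := by
      intro T hT
      ext a
      simp only [Finset.mem_sdiff, Finset.mem_union]
      constructor
      · rintro ⟨h1 | h1, h2⟩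
        · exact absurd h1 h2
        · exact h1
      · intro h
        have := hT h
        simp only [Finset.mem_sdiff] at this
        exact ⟨Or.inr h, this.1.2⟩
    rw [← hd T hT.1, ← hd T' hT'.1, he']

theorem cs_main {ι Ω : Type*} [DecidableEq ι] (R : Finset ι) (O : Finset Ω)
    (P X : Ω → Finset ι) (k r B : ℕ)
    (hP : ∀ ω ∈ O, P ω ⊆ R) (hP3 : ∀ ω ∈ O, (P ω).card = 3)
    (hX : ∀ ω ∈ O, X ω ⊆ R \ P ω) (hXk : ∀ ω ∈ O, (X ω).card ≤ k)
    (hr : 3 ≤ r) (hrn : 2 * k * (r - 3) ≤ R.card - 3)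
    (hB : ∀ R' ∈ R.powersetCard r,
      (O.filter (fun ω => P ω ⊆ R' ∧ Disjoint (X ω) R')).card ≤ B) :
    O.card * (R.card - 3).choose (r - 3) ≤ 2 * B * R.card.choose r := by
  have h1 : ∑ ω ∈ O, ((R.powersetCard r).filter (fun R' => P ω ⊆ R' ∧ Disjoint (X ω) R')).card
      = ∑ R' ∈ R.powersetCard r, (O.filter (fun ω => P ω ⊆ R' ∧ Disjoint (X ω) R')).card := by
    have := Finset.sum_card_bipartiteAbove_eq_sum_card_bipartiteBelow
      (s := O) (t := R.powersetCard r) (fun ω R' => P ω ⊆ R' ∧ Disjoint (X ω) R')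
    exact this
  have h2 : ∑ R' ∈ R.powersetCard r, (O.filter (fun ω => P ω ⊆ R' ∧ Disjoint (X ω) R')).card
      ≤ R.card.choose r * B := by
    calc _ ≤ ∑ R' ∈ R.powersetCard r, B := Finset.sum_le_sum hB
      _ = R.card.choose r * B := by
        rw [Finset.sum_const, Finset.card_powersetCard, smul_eq_mul]
  have h3 : O.card * (R.card - 3).choose (r - 3)
      ≤ 2 * ∑ ω ∈ O,
        ((R.powersetCard r).filter (fun R' => P ω ⊆ R' ∧ Disjoint (X ω) R')).card := by
    rw [Finset.mul_sum, ← smul_eq_mul, ← Finset.sum_const]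
    refine Finset.sum_le_sum ?_
    intro ω hω
    exact cs_count R (P ω) (X ω) k r (hP ω hω) (hP3 ω hω) (hX ω hω) (hXk ω hω) hr hrn
  rw [h1] at h3
  calc _ ≤ _ := h3
    _ ≤ 2 * (R.card.choose r * B) := Nat.mul_le_mul_left _ h2
    _ = _ := by ring

theorem choose_ratio (n r : ℕ) (hn3 : 3 ≤ n) (hr3 : 3 ≤ r) :
    n * (n - 1) * (n - 2) * (n - 3).choose (r - 3)
      = r * (r - 1) * (r - 2) * n.choose r := by
    obtain ⟨q, rfl⟩ := Nat.exists_eq_add_of_le hr3
    obtain ⟨m, rfl⟩ := Nat.exists_eq_add_of_le hn3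
    have e1 := Nat.add_one_mul_choose_eq (m + 2) (q + 2)
    have e2 := Nat.add_one_mul_choose_eq (m + 1) (q + 1)
    have e3 := Nat.add_one_mul_choose_eq m q
    have f1 : 3 + m = m + 2 + 1 := by ring
    have f2 : 3 + q = q + 2 + 1 := by ring
    rw [f1, f2]
    simp only [Nat.add_sub_cancel]
    have g1 : m + 2 + 1 - 2 = m + 1 := by omega
    have g2 : m + 2 + 1 - 3 = m := by omega
    have g3 : q + 2 + 1 - 2 = q + 1 := by omega
    have g4 : q + 2 + 1 - 3 = q := by omega
    rw [g1, g2, g3, g4]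
    have e1' : (m + 2 + 1) * (m + 2).choose (q + 2) = (m + 2 + 1).choose (q + 2 + 1) * (q + 2 + 1) := e1
    have e2' : (m + 2) * (m + 1).choose (q + 1) = (m + 2).choose (q + 2) * (q + 2) := e2
    have e3' : (m + 1) * m.choose q = (m + 1).choose (q + 1) * (q + 1) := e3
    calc (m + 2 + 1) * (m + 2) * (m + 1) * m.choose q
        = (m + 2 + 1) * ((m + 2) * ((m + 1) * m.choose q)) := by ring
      _ = (m + 2 + 1) * ((m + 2) * (m + 1).choose (q + 1)) * (q + 1) := by rw [e3']; ring
      _ = ((m + 2 + 1) * (m + 2).choose (q + 2)) * (q + 2) * (q + 1) := by rw [e2']; ring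
      _ = (q + 2 + 1) * (q + 2) * (q + 1) * (m + 2 + 1).choose (q + 2 + 1) := by rw [e1']; ring

/-- convenient form of the counting lemma -/
theorem cs {ι Ω : Type*} [DecidableEq ι] (R : Finset ι) (O : Finset Ω)
    (P X : Ω → Finset ι) (k B : ℕ) (hk : 1 ≤ k) (hn : 6 * k ≤ R.card)
    (hP : ∀ ω ∈ O, P ω ⊆ R) (hP3 : ∀ ω ∈ O, (P ω).card = 3)
    (hX : ∀ ω ∈ O, X ω ⊆ R \ P ω) (hXk : ∀ ω ∈ O, (X ω).card ≤ k)
    (hB : ∀ R' ∈ R.powersetCard (R.card / (2 * k)),
      (O.filter (fun ω => P ω ⊆ R' ∧ Disjoint (X ω) R')).card ≤ B) :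
    O.card ≤ 171 * k ^ 3 * B := by
  set n := R.card with hndef
  set r := n / (2 * k) with hr
  have hr3 : 3 ≤ r := by
    rw [hr, Nat.le_div_iff_mul_le (by omega)]
    omega
  have hrle : 2 * k * r ≤ n := by
    rw [hr]
    exact Nat.mul_div_le n (2 * k)
  have hrlt : n < 2 * k * (r + 1) := by
    rw [hr]
    exact Nat.lt_mul_div_succ n (by omega)
  have hn3 : 3 ≤ n := by omega
  have hrn : 2 * k * (r - 3) ≤ n - 3 := by
    have e : 2 * k * (r - 3) + 6 * k = 2 * k * r := by
      obtain ⟨q, hq⟩ := Nat.exists_eq_add_of_le hr3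
      rw [hq]
      simp only [Nat.add_sub_cancel_left]
      ring
    generalize 2 * k * (r - 3) = u at e ⊢
    generalize 2 * k * r = v at e hrle
    omega
  have hrn' : r ≤ n := by nlinarith
  have h1 := cs_main R O P X k r B hP hP3 hX hXk hr3 hrn hB
  rw [← hndef] at h1
  -- ratio of binomial coefficients
  have h2 := choose_ratio n r hn3 hr3
  have hpos : 0 < (n - 3).choose (r - 3) := Nat.choose_pos (by omega)
  have h3 : O.card * (r * (r - 1) * (r - 2)) ≤ 2 * B * (n * (n - 1) * (n - 2)) := by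
    have h4 : O.card * (n - 3).choose (r - 3) * (r * (r - 1) * (r - 2))
        ≤ 2 * B * (n * (n - 1) * (n - 2)) * (n - 3).choose (r - 3) := by
      calc O.card * (n - 3).choose (r - 3) * (r * (r - 1) * (r - 2))
          ≤ 2 * B * n.choose r * (r * (r - 1) * (r - 2)) := Nat.mul_le_mul_right _ h1
        _ = 2 * B * (r * (r - 1) * (r - 2) * n.choose r) := by ring
        _ = 2 * B * (n * (n - 1) * (n - 2) * (n - 3).choose (r - 3)) := by rw [h2]
        _ = _ := by ring
    have h5 : O.card * (r * (r - 1) * (r - 2)) * (n - 3).choose (r - 3)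
        ≤ 2 * B * (n * (n - 1) * (n - 2)) * (n - 3).choose (r - 3) := by
      calc _ = O.card * (n - 3).choose (r - 3) * (r * (r - 1) * (r - 2)) := by ring
        _ ≤ _ := h4
    exact Nat.le_of_mul_le_mul_right h5 hpos
  have h6 : 2 * r ^ 3 ≤ 9 * (r * (r - 1) * (r - 2)) := by
    obtain ⟨q, hq⟩ := Nat.exists_eq_add_of_le hr3
    rw [hq]
    have g1 : 3 + q - 1 = q + 2 := by omega
    have g2 : 3 + q - 2 = q + 1 := by omega
    rw [g1, g2]
    nlinarith [Nat.zero_le q, Nat.zero_le (q ^ 2), Nat.zero_le (q ^ 3)]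
  have h7 : n * (n - 1) * (n - 2) ≤ n ^ 3 := by
    calc n * (n - 1) * (n - 2) ≤ n * n * n :=
          Nat.mul_le_mul (Nat.mul_le_mul le_rfl (by omega)) (by omega)
      _ = n ^ 3 := by ring
  have h8 : O.card * r ^ 3 ≤ 9 * B * n ^ 3 := by
    have a1 : O.card * (2 * r ^ 3) ≤ O.card * (9 * (r * (r - 1) * (r - 2))) :=
      Nat.mul_le_mul_left _ h6
    have a2 : 2 * B * (n * (n - 1) * (n - 2)) ≤ 2 * B * n ^ 3 := Nat.mul_le_mul_left _ h7
    nlinarith
  have h9 : 3 * n ≤ 8 * k * r := by nlinarith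
  have h10 : 27 * n ^ 3 ≤ 512 * k ^ 3 * r ^ 3 := by
    calc 27 * n ^ 3 = (3 * n) ^ 3 := by ring
      _ ≤ (8 * k * r) ^ 3 := Nat.pow_le_pow_left h9 3
      _ = _ := by ring
  have hn3' : 0 < n ^ 3 := by positivity
  have h11 : O.card * 27 * n ^ 3 ≤ (512 * 9 * k ^ 3 * B) * n ^ 3 := by
    calc O.card * 27 * n ^ 3 = O.card * (27 * n ^ 3) := by ring
      _ ≤ O.card * (512 * k ^ 3 * r ^ 3) := Nat.mul_le_mul_left _ h10
      _ = 512 * k ^ 3 * (O.card * r ^ 3) := by ring
      _ ≤ 512 * k ^ 3 * (9 * B * n ^ 3) := Nat.mul_le_mul_left _ h8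
      _ = _ := by ring
  have h12 : O.card * 27 ≤ 512 * 9 * k ^ 3 * B := Nat.le_of_mul_le_mul_right h11 hn3'
  nlinarith [Nat.zero_le (k ^ 3 * B)]

end Run7.h605
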