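import Mathlib
import Pool.Agent.Run7.h605.Defs

/-!
# The upper graph of a triple as a finite graph
-/

set_option autoImplicit false

open Set Topology

namespace Run7.h605

/-- the component of `τ0` in the set where `φ` is negative -/
def comp1 (φ : ℝ → ℝ) (τ0 : ℝ) : Set ℝ :=
  {τ | τ ∈ Ioo (0 : ℝ) 1 ∧ ∀ τ' ∈ uIcc τ0 τ, φ τ' < 0}

theorem comp1_ord {φ : ℝ → ℝ} {τ0 : ℝ} : OrdConnected (comp1 φ τ0) := by
  refine ⟨?_⟩
  rintro a ⟨ha, ha'⟩ b ⟨hb, hb'⟩ c ⟨hac, hcb⟩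
  refine ⟨⟨lt_of_lt_of_le ha.1 hac, lt_of_le_of_lt hcb hb.2⟩, ?_⟩
  intro τ' hτ'
  rw [mem_uIcc] at hτ'
  rcases hτ' with ⟨h1, h2⟩ | ⟨h1, h2⟩
  · exact hb' τ' (mem_uIcc.2 (Or.inl ⟨h1, h2.trans hcb⟩))
  · exact ha' τ' (mem_uIcc.2 (Or.inr ⟨hac.trans h1, h2⟩))

theorem comp1_sub {φ : ℝ → ℝ} {τ0 τ1 : ℝ} (h : τ1 ∈ comp1 φ τ0) :
    comp1 φ τ1 ⊆ comp1 φ τ0 := by
  rintro τ ⟨hτ, hτ'⟩
  refine ⟨hτ, ?_⟩
  intro τ' hm
  rcases uIcc_subset_uIcc_union_uIcc (b := τ1) hm with h1 | h1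
  · exact h.2 τ' h1
  · exact hτ' τ' h1

theorem comp1_symm {φ : ℝ → ℝ} {τ0 τ1 : ℝ} (h0 : τ0 ∈ Ioo (0 : ℝ) 1) (h : τ1 ∈ comp1 φ τ0) :
    τ0 ∈ comp1 φ τ1 := by
  refine ⟨h0, ?_⟩
  intro τ' hm
  rw [uIcc_comm] at hm
  exact h.2 τ' hm

theorem comp1_eq {φ : ℝ → ℝ} {τ0 τ1 : ℝ} (h0 : τ0 ∈ Ioo (0 : ℝ) 1) (h : τ1 ∈ comp1 φ τ0) :
    comp1 φ τ1 = comp1 φ τ0 :=
  Subset.antisymm (comp1_sub h) (comp1_sub (comp1_symm h0 h))

theorem comp1_self {φ : ℝ → ℝ} {τ0 : ℝ} (h0 : τ0 ∈ Ioo (0 : ℝ) 1) (h : φ τ0 < 0) :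
    τ0 ∈ comp1 φ τ0 := by
  refine ⟨h0, ?_⟩
  intro τ' hm
  rw [uIcc_self, mem_singleton_iff] at hm
  rw [hm]
  exact h

/-- no zero between two negative points: they are in the same component -/
theorem comp1_of_no_zero {φ : ℝ → ℝ} (hφ : ContinuousOn φ (Ioo 0 1)) {a b : ℝ}
    (ha : a ∈ Ioo (0 : ℝ) 1) (hb : b ∈ Ioo (0 : ℝ) 1) (hab : a ≤ b) (hφa : φ a < 0)
    (hz : ∀ c ∈ Icc a b, φ c ≠ 0) : b ∈ comp1 φ a := by
  refine ⟨hb, ?_⟩
  intro τ' hm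
  rw [uIcc_of_le hab] at hm
  by_contra hcon
  push Not at hcon
  have hsub : Icc a τ' ⊆ Ioo (0 : ℝ) 1 := fun c hc =>
    ⟨lt_of_lt_of_le ha.1 hc.1, lt_of_le_of_lt (hc.2.trans hm.2) hb.2⟩
  have h1 := intermediate_value_Icc hm.1 (hφ.mono hsub)
  obtain ⟨c, hc, hc0⟩ := h1 ⟨hφa.le, hcon⟩
  exact hz c ⟨hc.1, hc.2.trans hm.2⟩ hc0

theorem comp1_finite {φ : ℝ → ℝ} (hφ : ContinuousOn φ (Ioo 0 1))
    (hz : {τ | τ ∈ Ioo (0 : ℝ) 1 ∧ φ τ = 0}.Finite) :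
    {C : Set ℝ | ∃ τ0 ∈ Ioo (0 : ℝ) 1, φ τ0 < 0 ∧ C = comp1 φ τ0}.Finite := by
  classical
  set Z := {τ | τ ∈ Ioo (0 : ℝ) 1 ∧ φ τ = 0} with hZ
  have hpow : (𝒫 Z).Finite := hz.powerset
  have key : ∀ a b, a ∈ Ioo (0 : ℝ) 1 → b ∈ Ioo (0 : ℝ) 1 → φ a < 0 → φ b < 0 →
      Z ∩ Iio a = Z ∩ Iio b → a ≤ b → comp1 φ a = comp1 φ b := by
    intro a b ha hb hφa hφb he hab
    have h1 : b ∈ comp1 φ a := by
      refine comp1_of_no_zero hφ ha hb hab hφa ?_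
      intro c hc hc0
      have hcI : c ∈ Ioo (0 : ℝ) 1 := ⟨lt_of_lt_of_le ha.1 hc.1, lt_of_le_of_lt hc.2 hb.2⟩
      have hcb : c ≠ b := by
        rintro rfl
        exact absurd hc0 hφb.ne
      have h2 : c ∈ Z ∩ Iio b := ⟨⟨hcI, hc0⟩, lt_of_le_of_ne hc.2 hcb⟩
      rw [← he] at h2
      exact absurd hc.1 (not_le.2 h2.2)
    exact (comp1_eq ha h1).symm
  -- choose representatives
  let r : Set ℝ → Set ℝ := fun X =>
    if h : ∃ τ0 ∈ Ioo (0 : ℝ) 1, φ τ0 < 0 ∧ Z ∩ Iio τ0 = X then comp1 φ h.choose else ∅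
  refine (hpow.image r).subset ?_
  rintro C ⟨τ0, h0, hneg, rfl⟩
  refine ⟨Z ∩ Iio τ0, inter_subset_left, ?_⟩
  have h : ∃ τ1 ∈ Ioo (0 : ℝ) 1, φ τ1 < 0 ∧ Z ∩ Iio τ1 = Z ∩ Iio τ0 := ⟨τ0, h0, hneg, rfl⟩
  have hr : r (Z ∩ Iio τ0) = comp1 φ h.choose := dif_pos h
  rw [hr]
  obtain ⟨h1, h2, h3⟩ := h.choose_spec
  rcases le_total h.choose τ0 with hle | hle
  · exact key _ _ h1 h0 h2 hneg h3 hle
  · exact (key _ _ h0 h1 hneg h2 h3.symm hle).symm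

/-- closure of a piece of an arc -/
theorem Arc.closure_image (α : Arc) {C : Set ℝ} (hC : C ⊆ α.D) :
    closure (α.g '' C) ⊆ α.g '' (closure C ∩ α.D) := by
  intro p hp
  set A := α.D ∩ α.g ⁻¹' (Metric.closedBall p 1) with hA
  have hAc : IsCompact A := α.proper _ (isCompact_closedBall p 1)
  have h1 : IsCompact (closure C ∩ A) := hAc.inter_left isClosed_closure
  have h2 : IsCompact (α.g '' (closure C ∩ A)) :=
    h1.image_of_continuousOn (α.cont.mono (fun x hx => hx.2.1))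
  have h3 : p ∈ closure (α.g '' (closure C ∩ A)) := by
    rw [mem_closure_iff_nhds] at hp ⊢
    intro W hW
    obtain ⟨q, ⟨hq1, hq2⟩, hq3⟩ := hp (W ∩ Metric.closedBall p 1)
      (Filter.inter_mem hW (Metric.closedBall_mem_nhds p one_pos))
    obtain ⟨τ, hτ, rfl⟩ := hq3
    exact ⟨α.g τ, hq1, τ, ⟨subset_closure hτ, hC hτ, hq2⟩, rfl⟩
  rw [h2.isClosed.closure_eq] at h3
  obtain ⟨τ, hτ, rfl⟩ := h3
  exact ⟨τ, ⟨hτ.1, hτ.2.1⟩, rfl⟩

namespace Setup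

variable {ι : Type} [DecidableEq ι] {s t : ℕ} (M : Setup ι s t)

/-- difference of two functions along an arc -/
def dif (z x : ι) (α : Arc) (τ : ℝ) : ℝ := M.f z (α.g τ) - M.f x (α.g τ)

theorem dif_cont (z x : ι) (α : Arc) : ContinuousOn (M.dif z x α) α.D := by
  unfold dif
  exact ((M.cont z).comp_continuousOn α.cont).sub ((M.cont x).comp_continuousOn α.cont)

/-- the vertices of the upper graph of a triple -/
def Nodes (P : Finset ι) : Set (ℝ × ℝ) :=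
  T M.f P ∪ {p | ∃ x ∈ P, ∃ y ∈ P, x ≠ y ∧ p ∈ M.S x y}

/-- the open edges of the upper graph of a triple -/
def Pieces (P : Finset ι) : Set (Set (ℝ × ℝ)) :=
  {B | ∃ x y z α τ0, x ≠ y ∧ x ≠ z ∧ y ≠ z ∧ P = {x, y, z} ∧ α ∈ M.arcs x y ∧
    τ0 ∈ Ioo (0 : ℝ) 1 ∧ M.dif z x α τ0 < 0 ∧ B = α.g '' comp1 (M.dif z x α) τ0}

variable {M}

theorem mem_T_of {x y z : ι} {p : ℝ × ℝ} (h1 : M.f x p = M.f y p) (h2 : M.f z p = M.f x p) :
    p ∈ T M.f ({x, y, z} : Finset ι) := by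
  intro a ha b hb
  simp only [Finset.mem_insert, Finset.mem_singleton] at ha hb
  rcases ha with rfl | rfl | rfl <;> rcases hb with rfl | rfl | rfl <;>
    first
      | rfl
      | linarith

theorem mem_U_of {x y z : ι} {p : ℝ × ℝ} (hxy : x ≠ y) (h1 : M.f x p = M.f y p)
    (h2 : M.f z p ≤ M.f x p) : p ∈ U M.f ({x, y, z} : Finset ι) := by
  refine ⟨x, by simp, y, by simp, hxy, h1, ?_⟩
  intro a ha
  simp only [Finset.mem_insert, Finset.mem_singleton] at ha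
  rcases ha with rfl | rfl | rfl
  · exact le_rfl
  · exact h1.ge
  · exact h2

theorem zeros_finite {x y z : ι} (hxy : x ≠ y) (hxz : x ≠ z) (hyz : y ≠ z) {α : Arc}
    (hα : α ∈ M.arcs x y) : {τ | τ ∈ Ioo (0 : ℝ) 1 ∧ M.dif z x α τ = 0}.Finite := by
  have hT : (T M.f ({x, y, z} : Finset ι)).Finite := by
    have h3 : ({x, y, z} : Finset ι).card = 3 := by
      rw [Finset.card_eq_three]
      exact ⟨x, y, z, hxy, hxz, hyz, rfl⟩
    exact Set.finite_of_encard_le_coe (M.triple _ h3)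
  refine Set.Finite.of_finite_image (hT.subset ?_) (α.inj.mono (fun τ hτ => hτ.1))
  rintro p ⟨τ, ⟨h1, h2⟩, rfl⟩
  refine mem_T_of (M.eq_of_arc hxy hα (α.sub h1)) ?_
  unfold dif at h2
  linarith

theorem T_finite {Q : Finset ι} (hQ : Q.card = 3) : (T M.f Q).Finite :=
  Set.finite_of_encard_le_coe (M.triple _ hQ)

/-- only finitely many arcs of a pair meet the set of common points with a third graph -/
theorem arcs_zero_finite {x y z : ι} (hxy : x ≠ y) (hxz : x ≠ z) (hyz : y ≠ z) :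
    {α | α ∈ M.arcs x y ∧ ∃ τ ∈ Ioo (0 : ℝ) 1, M.dif z x α τ = 0}.Finite := by
  have h3 : ({x, y, z} : Finset ι).card = 3 := by
    rw [Finset.card_eq_three]
    exact ⟨x, y, z, hxy, hxz, hyz, rfl⟩
  have hT : (T M.f ({x, y, z} : Finset ι)).Finite := T_finite h3
  have hex : ∀ α ∈ {α | α ∈ M.arcs x y ∧ ∃ τ ∈ Ioo (0 : ℝ) 1, M.dif z x α τ = 0},
      ∃ p, p ∈ T M.f ({x, y, z} : Finset ι) ∧ ∃ τ ∈ Ioo (0 : ℝ) 1, α.g τ = p := by
    rintro α ⟨hα, τ, hτ, h0⟩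
    refine ⟨α.g τ, mem_T_of (M.eq_of_arc hxy hα (α.sub hτ)) ?_, τ, hτ, rfl⟩
    unfold dif at h0
    linarith
  choose! r hr1 hr2 using hex
  refine Set.Finite.of_injOn (f := r) (fun α hα => hr1 α hα) ?_ hT
  intro α hα β hβ he
  obtain ⟨τ, hτ, h1⟩ := hr2 α hα
  obtain ⟨σ, hσ, h2⟩ := hr2 β hβ
  exact M.disj x y hxy α hα.1 β hβ.1 τ hτ σ hσ (by rw [h1, h2, he])

/-- a piece of an arc without zeros is the whole arc -/
theorem comp1_whole {x z : ι} {α : Arc} (hno : ∀ τ ∈ Ioo (0 : ℝ) 1, M.dif z x α τ ≠ 0) {τ0 : ℝ}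
    (h0 : τ0 ∈ Ioo (0 : ℝ) 1) (hneg : M.dif z x α τ0 < 0) :
    comp1 (M.dif z x α) τ0 = Ioo 0 1 := by
  refine Subset.antisymm (fun τ hτ => hτ.1) ?_
  intro τ hτ
  have hc : ContinuousOn (M.dif z x α) (Ioo 0 1) := (M.dif_cont z x α).mono α.sub
  rcases le_total τ0 τ with hle | hle
  · refine comp1_of_no_zero hc h0 hτ hle hneg ?_
    intro c hc'
    exact hno c ⟨lt_of_lt_of_le h0.1 hc'.1, lt_of_le_of_lt hc'.2 hτ.2⟩
  · have hτneg : M.dif z x α τ < 0 := by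
      by_contra hcon
      push Not at hcon
      have hsub : uIcc τ τ0 ⊆ Ioo (0 : ℝ) 1 := ordConnected_Ioo.uIcc_subset hτ h0
      have h13 : uIcc (M.dif z x α τ) (M.dif z x α τ0) ⊆ M.dif z x α '' uIcc τ τ0 :=
        intermediate_value_uIcc (hc.mono hsub)
      obtain ⟨c, hc1, hc2⟩ := h13 (mem_uIcc.2 (Or.inr ⟨hneg.le, hcon⟩) : (0 : ℝ) ∈ _)
      exact hno c (hsub hc1) hc2
    refine comp1_symm hτ (comp1_of_no_zero hc hτ h0 hle hτneg ?_)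
    intro c hc'
    exact hno c ⟨lt_of_lt_of_le hτ.1 hc'.1, lt_of_le_of_lt hc'.2 h0.2⟩

theorem arcs_cp {i j : ι} (hij : i ≠ j) :
    CP {B : Set (ℝ × ℝ) | ∃ α ∈ M.arcs i j, B = α.g '' Ioo 0 1} := by
  intro G hG
  set A : Set Arc := {α | α ∈ M.arcs i j ∧ α.g '' Ioo 0 1 ∈ G} with hA
  have h1 : ⋃₀ G ⊆ ⋃ α ∈ A, α.g '' Ioo 0 1 := by
    rintro p ⟨B, hB, hp⟩
    obtain ⟨α, hα, rfl⟩ := hG hB
    simp only [mem_iUnion, exists_prop]
    exact ⟨α, ⟨hα, hB⟩, hp⟩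
  intro p hp
  have h2 := M.cp i j hij A (fun α hα => hα.1) (closure_mono h1 hp)
  simp only [mem_iUnion, exists_prop] at h2 ⊢
  obtain ⟨α, hα, hpα⟩ := h2
  exact ⟨_, hα.2, hpα⟩

theorem pieces_cp (P : Finset ι) : CP (M.Pieces P) := by
  have h1 : M.Pieces P ⊆ ⋃ x ∈ (P : Set ι), ⋃ y ∈ (P : Set ι), ⋃ z ∈ (P : Set ι),
      {B | x ≠ y ∧ x ≠ z ∧ y ≠ z ∧
      ∃ α ∈ M.arcs x y, ∃ C ∈ {C : Set ℝ | ∃ τ0 ∈ Ioo (0 : ℝ) 1, M.dif z x α τ0 < 0 ∧
        C = comp1 (M.dif z x α) τ0}, B = α.g '' C} := by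
    rintro B ⟨x, y, z, α, τ0, h1, h2, h3, rfl, h5, h6, h7, h8⟩
    simp only [mem_iUnion, exists_prop]
    exact ⟨x, by simp, y, by simp, z, by simp, h1, h2, h3, α, h5, _, ⟨τ0, h6, h7, rfl⟩, h8⟩
  refine CP.mono ?_ h1
  refine CP.biUnion (Finset.finite_toSet P) (fun x _ => ?_)
  refine CP.biUnion (Finset.finite_toSet P) (fun y _ => ?_)
  refine CP.biUnion (Finset.finite_toSet P) (fun z _ => ?_)
  by_cases hh : x ≠ y ∧ x ≠ z ∧ y ≠ z
  swap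
  · refine CP.of_finite (Set.Finite.subset Set.finite_empty ?_)
    rintro B ⟨h1, h2, h3, -⟩
    exact absurd ⟨h1, h2, h3⟩ hh
  obtain ⟨hxy, hxz, hyz⟩ := hh
  have h2 : {B | x ≠ y ∧ x ≠ z ∧ y ≠ z ∧
      ∃ α ∈ M.arcs x y, ∃ C ∈ {C : Set ℝ | ∃ τ0 ∈ Ioo (0 : ℝ) 1, M.dif z x α τ0 < 0 ∧
        C = comp1 (M.dif z x α) τ0}, B = α.g '' C} ⊆
      {B : Set (ℝ × ℝ) | ∃ α ∈ M.arcs x y, B = α.g '' Ioo 0 1} ∪
      ⋃ α ∈ {α | α ∈ M.arcs x y ∧ ∃ τ ∈ Ioo (0 : ℝ) 1, M.dif z x α τ = 0},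
        (fun C => α.g '' C) '' {C : Set ℝ | ∃ τ0 ∈ Ioo (0 : ℝ) 1,
          M.dif z x α τ0 < 0 ∧ C = comp1 (M.dif z x α) τ0} := by
    rintro B ⟨-, -, -, α, hα, C, ⟨τ0, h0, hneg, rfl⟩, rfl⟩
    by_cases hz : ∃ τ ∈ Ioo (0 : ℝ) 1, M.dif z x α τ = 0
    · right
      simp only [mem_iUnion, exists_prop]
      exact ⟨α, ⟨hα, hz⟩, _, ⟨τ0, h0, hneg, rfl⟩, rfl⟩
    · left
      push Not at hz
      exact ⟨α, hα, by rw [comp1_whole hz h0 hneg]⟩
  refine CP.mono ?_ h2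
  refine CP.union (arcs_cp hxy) (CP.of_finite ?_)
  refine (arcs_zero_finite hxy hxz hyz).biUnion (fun α hα => ?_)
  refine Set.Finite.image _ ?_
  exact comp1_finite ((M.dif_cont z x α).mono α.sub) (zeros_finite hxy hxz hyz hα.1)

theorem piece_preconnected {P : Finset ι} {B : Set (ℝ × ℝ)} (hB : B ∈ M.Pieces P) :
    IsPreconnected B := by
  obtain ⟨x, y, z, α, τ0, h1, h2, h3, h4, h5, h6, h7, rfl⟩ := hB
  refine comp1_ord.isPreconnected.image _ (α.cont.mono ?_)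
  intro τ hτ
  exact α.sub hτ.1

theorem piece_nonempty {P : Finset ι} {B : Set (ℝ × ℝ)} (hB : B ∈ M.Pieces P) :
    B.Nonempty := by
  obtain ⟨x, y, z, α, τ0, h1, h2, h3, h4, h5, h6, h7, rfl⟩ := hB
  exact ⟨α.g τ0, τ0, comp1_self h6 h7, rfl⟩

theorem piece_sub_U {P : Finset ι} {B : Set (ℝ × ℝ)} (hB : B ∈ M.Pieces P) : B ⊆ U M.f P := by
  obtain ⟨x, y, z, α, τ0, h1, h2, h3, rfl, h5, h6, h7, rfl⟩ := hB
  rintro p ⟨τ, hτ, rfl⟩
  have h8 : M.dif z x α τ < 0 := hτ.2 τ right_mem_uIcc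
  unfold dif at h8
  exact mem_U_of h1 (M.eq_of_arc h1 h5 (α.sub hτ.1)) (by linarith)

theorem piece_disj_nodes {P : Finset ι} {B : Set (ℝ × ℝ)} (hB : B ∈ M.Pieces P) :
    Disjoint B (M.Nodes P) := by
  obtain ⟨x, y, z, α, τ0, h1, h2, h3, rfl, h5, h6, h7, rfl⟩ := hB
  rw [disjoint_left]
  rintro p ⟨τ, hτ, rfl⟩ hN
  have h8 : M.dif z x α τ < 0 := hτ.2 τ right_mem_uIcc
  unfold dif at h8
  have h9 := M.eq_of_arc h1 h5 (α.sub hτ.1)
  rcases hN with hN | ⟨a, ha, b, hb, hab, hN⟩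
  · have h10 := hN x (by simp) z (by simp)
    linarith
  · have h10 : M.f a (α.g τ) = M.f b (α.g τ) := (M.cover a b hab _).2 (Or.inl hN)
    have h11 := M.disjS x y h1 α h5 τ hτ.1
    have h12 := M.Ssymm x y
    simp only [Finset.mem_insert, Finset.mem_singleton] at ha hb
    rcases ha with rfl | rfl | rfl <;> rcases hb with rfl | rfl | rfl <;>
      first
        | exact hab rfl
        | exact h11 hN
        | (rw [← h12] at hN; exact h11 hN)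
        | (exfalso; linarith)

/-- two pieces that meet coincide -/
theorem piece_eq {P : Finset ι} {B B' : Set (ℝ × ℝ)} (hB : B ∈ M.Pieces P)
    (hB' : B' ∈ M.Pieces P) (h : (B ∩ B').Nonempty) : B = B' := by
  obtain ⟨p, hp, hp'⟩ := h
  obtain ⟨x, y, z, α, τ0, h1, h2, h3, hP, h5, h6, h7, rfl⟩ := hB
  obtain ⟨x', y', z', β, σ0, h1', h2', h3', hP', h5', h6', h7', rfl⟩ := hB'
  obtain ⟨τ, hτ, rfl⟩ := hp
  obtain ⟨σ, hσ, he⟩ := hp'
  have h8 : M.dif z x α τ < 0 := hτ.2 τ right_mem_uIcc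
  have h8' : M.dif z' x' β σ < 0 := hσ.2 σ right_mem_uIcc
  unfold dif at h8 h8'
  have h9 := M.eq_of_arc h1 h5 (α.sub hτ.1)
  have h9' := M.eq_of_arc h1' h5' (β.sub hσ.1)
  rw [he] at h8' h9'
  have hx' : x' ∈ P := by rw [hP']; simp
  have hy' : y' ∈ P := by rw [hP']; simp
  have hz' : z' ∈ P := by rw [hP']; simp
  rw [hP] at hx' hy' hz'
  simp only [Finset.mem_insert, Finset.mem_singleton] at hx' hy' hz'
  have hzz : z' = z := by
    rcases hz' with rfl | rfl | rfl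
    · exfalso
      rcases hx' with rfl | rfl | rfl
      · exact h2' rfl
      · linarith
      · linarith
    · exfalso
      rcases hx' with rfl | rfl | rfl
      · linarith
      · exact h2' rfl
      · linarith
    · rfl
  subst hzz
  have hxy : (x' = x ∧ y' = y) ∨ (x' = y ∧ y' = x) := by
    rcases hx' with rfl | rfl | rfl
    · rcases hy' with rfl | rfl | rfl
      · exact absurd rfl h1'
      · exact Or.inl ⟨rfl, rfl⟩
      · exact absurd rfl h3'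
    · rcases hy' with rfl | rfl | rfl
      · exact Or.inr ⟨rfl, rfl⟩
      · exact absurd rfl h1'
      · exact absurd rfl h3'
    · exact absurd rfl h2'
  have hβ : β ∈ M.arcs x y := by
    rcases hxy with ⟨rfl, rfl⟩ | ⟨rfl, rfl⟩
    · exact h5'
    · rw [M.arcsymm]
      exact h5'
  have hαβ : α = β := M.disj x y h1 α h5 β hβ τ hτ.1 σ hσ.1 he.symm
  subst hαβ
  have hτσ : σ = τ := α.inj hσ.1 hτ.1 he
  subst hτσ
  have hc1 : comp1 (M.dif z' x α) τ0 = comp1 (M.dif z' x α) σ := (comp1_eq h6 hτ).symm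
  have hc2 : comp1 (M.dif z' x' α) σ0 = comp1 (M.dif z' x' α) σ := (comp1_eq h6' hσ).symm
  rw [hc1, hc2]
  congr 1
  have hx'e : ∀ τ' ∈ Ioo (0 : ℝ) 1, M.dif z' x α τ' = M.dif z' x' α τ' := by
    intro τ' hτ'
    unfold dif
    rcases hxy with ⟨rfl, rfl⟩ | ⟨rfl, rfl⟩
    · rfl
    · rw [M.eq_of_arc h1 h5 (α.sub hτ')]
  ext τ'
  constructor
  · rintro ⟨k1, k2⟩
    refine ⟨k1, fun c hc => ?_⟩
    rw [← hx'e c]
    · exact k2 c hc
    · exact ordConnected_Ioo.uIcc_subset hσ.1 k1 hc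
  · rintro ⟨k1, k2⟩
    refine ⟨k1, fun c hc => ?_⟩
    rw [hx'e c]
    · exact k2 c hc
    · exact ordConnected_Ioo.uIcc_subset hσ.1 k1 hc

/-- limit points of a piece -/
theorem piece_end {x y z : ι} {α : Arc} {τ0 : ℝ}
    (h1 : x ≠ y) (h5 : α ∈ M.arcs x y) (h6 : τ0 ∈ Ioo (0 : ℝ) 1) {b : ℝ}
    (hb : b ∈ closure (comp1 (M.dif z x α) τ0)) (hbD : b ∈ α.D) :
    b ∈ comp1 (M.dif z x α) τ0 ∨ α.g b ∈ M.Nodes ({x, y, z} : Finset ι) := by
  by_cases hbI : b ∈ Ioo (0 : ℝ) 1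
  swap
  · right
    right
    exact ⟨x, by simp, y, by simp, h1, M.ends x y h1 α h5 b hbD hbI⟩
  have hcont := M.dif_cont z x α
  set φ := M.dif z x α with hφ
  have hcb : ContinuousAt φ b := by
    have : α.D ∈ 𝓝 b := Filter.mem_of_superset (isOpen_Ioo.mem_nhds hbI) α.sub
    exact (hcont b hbD).continuousAt this
  have hle : φ b ≤ 0 := by
    by_contra hcon
    push Not at hcon
    have h10 : {τ | 0 < φ τ} ∈ 𝓝 b := hcb.eventually (isOpen_Ioi.mem_nhds hcon)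
    obtain ⟨τ1, h11, h12⟩ := mem_closure_iff_nhds.1 hb _ h10
    have h13 := h12.2 τ1 right_mem_uIcc
    have h14 : 0 < φ τ1 := h11
    linarith
  rcases hle.lt_or_eq with hlt | heq
  · left
    have h10 : {τ | φ τ < 0} ∈ 𝓝 b := hcb.eventually (isOpen_Iio.mem_nhds hlt)
    obtain ⟨δ, hδ, hball⟩ := Metric.mem_nhds_iff.1 h10
    obtain ⟨τ1, h11, h12⟩ := Metric.mem_closure_iff.1 hb δ hδ
    refine ⟨hbI, ?_⟩
    intro τ' hm
    rcases uIcc_subset_uIcc_union_uIcc (b := τ1) hm with k | k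
    · exact h11.2 τ' k
    · refine hball ?_
      rw [Real.ball_eq_Ioo]
      rw [Real.dist_eq, abs_lt] at h12
      rw [mem_uIcc] at k
      rcases k with k | k
      · exact ⟨by linarith [k.1, h12.1, h12.2], by linarith [k.2]⟩
      · exact ⟨by linarith [k.1], by linarith [k.2, h12.1, h12.2]⟩
  · right
    left
    refine mem_T_of (M.eq_of_arc h1 h5 hbD) ?_
    rw [hφ] at heq
    unfold dif at heq
    linarith

theorem piece_closure {P : Finset ι} {B : Set (ℝ × ℝ)} (hB : B ∈ M.Pieces P) :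
    closure B ⊆ B ∪ M.Nodes P := by
  obtain ⟨x, y, z, α, τ0, h1, h2, h3, rfl, h5, h6, h7, rfl⟩ := hB
  intro p hp
  obtain ⟨b, ⟨hb, hbD⟩, rfl⟩ := α.closure_image (fun τ hτ => α.sub hτ.1) hp
  rcases piece_end h1 h5 h6 hb hbD with h | h
  · exact Or.inl ⟨b, h, rfl⟩
  · exact Or.inr h

/-- a piece is visible from each of its ends -/
theorem piece_star {P : Finset ι} {B : Set (ℝ × ℝ)} (hB : B ∈ M.Pieces P) {w : ℝ × ℝ}
    (hw : w ∈ closure B) (hwN : w ∈ M.Nodes P) : B ⊆ Star M P w := by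
  have hdisj := piece_disj_nodes hB
  obtain ⟨x, y, z, α, τ0, h1, h2, h3, hP, h5, h6, h7, rfl⟩ := hB
  obtain ⟨b, ⟨hb, hbD⟩, rfl⟩ := α.closure_image (fun τ hτ => α.sub hτ.1) hw
  have hbC : b ∉ comp1 (M.dif z x α) τ0 := by
    intro h
    exact disjoint_left.1 hdisj ⟨b, h, rfl⟩ hwN
  rintro p ⟨τ, hτ, rfl⟩
  have hne : τ ≠ b := by
    rintro rfl
    exact hbC hτ
  refine ⟨x, y, z, α, b, τ, ⟨h1, h2, h3, hP, h5, hbD, hτ.1, hne, ?_⟩, rfl, rfl⟩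
  intro τ' hm hτ'b
  have key : τ' ∈ comp1 (M.dif z x α) τ0 := by
    rw [mem_uIcc] at hm
    rcases hm with ⟨k1, k2⟩ | ⟨k1, k2⟩
    · have hlt : b < τ' := lt_of_le_of_ne k1 (Ne.symm hτ'b)
      obtain ⟨τ'', h11, h12⟩ := mem_closure_iff.1 hb (Iio τ') isOpen_Iio hlt
      exact comp1_ord.out h12 hτ ⟨(le_of_lt h11), k2⟩
    · have hlt : τ' < b := lt_of_le_of_ne k2 hτ'b
      obtain ⟨τ'', h11, h12⟩ := mem_closure_iff.1 hb (Ioi τ') isOpen_Ioi hlt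
      exact comp1_ord.out hτ h12 ⟨k1, le_of_lt h11⟩
  have h13 := key.2 τ' right_mem_uIcc
  unfold dif at h13
  linarith

theorem U_cover {P : Finset ι} (hP : P.card = 3) : U M.f P ⊆ M.Nodes P ∪ ⋃₀ M.Pieces P := by
  intro p hp
  obtain ⟨x, y, z, h1, h2, h3, rfl, h4, h5⟩ := U_rep hP hp
  rcases (M.cover x y h1 p).1 h4 with hS | ⟨α, hα, τ, hτ, rfl⟩
  · left
    right
    exact ⟨x, by simp, y, by simp, h1, hS⟩
  · rcases h5.lt_or_eq with hlt | heq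
    · right
      have h6 : M.dif z x α τ < 0 := by
        unfold dif
        linarith
      exact ⟨α.g '' comp1 (M.dif z x α) τ,
        ⟨x, y, z, α, τ, h1, h2, h3, rfl, hα, hτ, h6, rfl⟩, τ, comp1_self hτ h6, rfl⟩
    · left
      left
      exact mem_T_of h4 heq

theorem nodes_card {P : Finset ι} (hP : P.card = 3) :
    (M.Nodes P).encard ≤ ((s + 3 * t : ℕ) : ℕ∞) := by
  have hT := M.triple P hP
  obtain ⟨x, y, z, h1, h2, h3, rfl⟩ := Finset.card_eq_three.1 hP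
  have hsub : M.Nodes ({x, y, z} : Finset ι) ⊆
      T M.f ({x, y, z} : Finset ι) ∪ ((M.S x y ∪ M.S x z ∪ M.S y z : Finset (ℝ × ℝ)) : Set (ℝ × ℝ)) := by
    rintro p (hp | ⟨a, ha, b, hb, hab, hp⟩)
    · exact Or.inl hp
    · right
      simp only [Finset.coe_union, mem_union, Finset.mem_coe]
      have e1 := M.Ssymm x y
      have e2 := M.Ssymm x z
      have e3 := M.Ssymm y z
      simp only [Finset.mem_insert, Finset.mem_singleton] at ha hb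
      rcases ha with rfl | rfl | rfl <;> rcases hb with rfl | rfl | rfl <;>
        first
          | exact absurd rfl hab
          | exact Or.inl (Or.inl hp)
          | exact Or.inl (Or.inr hp)
          | exact Or.inr hp
          | (rw [← e1] at hp; exact Or.inl (Or.inl hp))
          | (rw [← e2] at hp; exact Or.inl (Or.inr hp))
          | (rw [← e3] at hp; exact Or.inr hp)
  calc (M.Nodes ({x, y, z} : Finset ι)).encard ≤ _ := Set.encard_le_encard hsub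
    _ ≤ _ := Set.encard_union_le _ _
    _ ≤ (s : ℕ∞) + ((3 * t : ℕ) : ℕ∞) := by
        refine add_le_add hT ?_
        rw [Set.encard_coe_eq_coe_finsetCard]
        have := Finset.card_union_le (M.S x y ∪ M.S x z) (M.S y z)
        have h4 := Finset.card_union_le (M.S x y) (M.S x z)
        have h5 := M.Scard x y h1
        have h6 := M.Scard x z h2
        have h7 := M.Scard y z h3
        exact_mod_cast (by omega)
    _ = _ := by push_cast; rfl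

theorem nodes_finite {P : Finset ι} (hP : P.card = 3) : (M.Nodes P).Finite :=
  Set.finite_of_encard_le_coe (nodes_card hP)

end Setup

end Run7.h605
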