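import Mathlib
import Pool.Agent.Run7.h605.Pieces

/-!
# Charging long stars to vertices of low level
-/

set_option autoImplicit false

open Set Topology

namespace Run7.h605

/-- the first `q` elements with respect to a real parameter -/
theorem sort_aux {ι : Type*} (D : Finset ι) (σ : ι → ℝ) (q : ℕ) (hq : q ≤ D.card) :
    q ≤ (D.filter (fun d => (D.filter (fun d' => σ d' < σ d)).card < q)).card := by
  classical
  by_contra hcon
  push Not at hcon
  set A := D.filter (fun d => (D.filter (fun d' => σ d' < σ d)).card < q) with hA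
  have hne : (D \ A).Nonempty := by
    rw [← Finset.card_pos]
    have hAD : A ⊆ D := Finset.filter_subset _ _
    have := Finset.card_sdiff_add_card_eq_card hAD
    omega
  obtain ⟨d, hd, hmin⟩ := Finset.exists_min_image (D \ A) σ hne
  rw [Finset.mem_sdiff] at hd
  apply hd.2
  rw [hA, Finset.mem_filter]
  refine ⟨hd.1, lt_of_le_of_lt (Finset.card_le_card ?_) hcon⟩
  intro d' hd'
  rw [Finset.mem_filter] at hd'
  by_contra h
  have := hmin d' (Finset.mem_sdiff.2 ⟨hd'.1, h⟩)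
  linarith [hd'.2]

namespace Setup

variable {ι : Type} [DecidableEq ι] {s t : ℕ} {M : Setup ι s t}

/-- points of a ray -/
theorem ray_mem {P : Finset ι} {x y z : ι} {α : Arc} {e τ : ℝ} (h : IsRay M P x y z α e τ)
    {τ' : ℝ} (hm : τ' ∈ uIcc e τ) (hne : τ' ≠ e) : τ' ∈ Ioo (0 : ℝ) 1 := by
  obtain ⟨-, -, -, -, -, he, hτ, hτe, -⟩ := h
  have he' := α.sup he
  rw [mem_uIcc] at hm
  rcases hm with ⟨k1, k2⟩ | ⟨k1, k2⟩
  · have := lt_of_le_of_ne k1 (Ne.symm hne)
    exact ⟨lt_of_le_of_lt he'.1 this, lt_of_le_of_lt k2 hτ.2⟩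
  · have := lt_of_le_of_ne k2 hne
    exact ⟨lt_of_lt_of_le hτ.1 k1, lt_of_lt_of_le this he'.2⟩

theorem ray_memD {P : Finset ι} {x y z : ι} {α : Arc} {e τ : ℝ} (h : IsRay M P x y z α e τ)
    {τ' : ℝ} (hm : τ' ∈ uIcc e τ) : τ' ∈ α.D := by
  by_cases hne : τ' = e
  · rw [hne]
    exact h.2.2.2.2.2.1
  · exact α.sub (ray_mem h hm hne)

theorem ray_shorten {P : Finset ι} {x y z : ι} {α : Arc} {e τ : ℝ} (h : IsRay M P x y z α e τ)
    {τ' : ℝ} (hm : τ' ∈ uIcc e τ) (hne : τ' ≠ e) : IsRay M P x y z α e τ' := by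
  have hI := ray_mem h hm hne
  obtain ⟨h1, h2, h3, h4, h5, h6, h7, h8, h9⟩ := h
  refine ⟨h1, h2, h3, h4, h5, h6, hI, hne, ?_⟩
  intro c hc hce
  exact h9 c (uIcc_subset_uIcc_left hm hc) hce

/-- at the start of a ray the third function is not above -/
theorem ray_end_le {P : Finset ι} {x y z : ι} {α : Arc} {e τ : ℝ}
    (h : IsRay M P x y z α e τ) : M.f z (α.g e) ≤ M.f x (α.g e) := by
  by_contra hcon
  push Not at hcon
  have hD := fun τ' (hm : τ' ∈ uIcc e τ) => ray_memD h hm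
  obtain ⟨h1, h2, h3, h4, h5, h6, h7, h8, h9⟩ := h
  have hc : ContinuousOn (M.dif z x α) (uIcc e τ) := (M.dif_cont z x α).mono hD
  have hpos : 0 < M.dif z x α e := by unfold dif; linarith
  have hneg : M.dif z x α τ < 0 := by
    have := h9 τ right_mem_uIcc h8
    unfold dif; linarith
  -- points close to `e` have positive value
  have h10 := hc e left_mem_uIcc
  have h11 : {c | 0 < M.dif z x α c} ∈ 𝓝[uIcc e τ] e := h10.eventually (isOpen_Ioi.mem_nhds hpos)
  have h12 : e ∈ closure (uIcc e τ \ {e}) := by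
    rcases lt_or_gt_of_ne h8 with hlt | hlt
    · have : Ioo τ e ⊆ uIcc e τ \ {e} := by
        intro c hc
        exact ⟨mem_uIcc.2 (Or.inr ⟨hc.1.le, hc.2.le⟩), hc.2.ne⟩
      refine closure_mono this ?_
      rw [closure_Ioo hlt.ne]
      exact ⟨hlt.le, le_rfl⟩
    · have : Ioo e τ ⊆ uIcc e τ \ {e} := by
        intro c hc
        exact ⟨mem_uIcc.2 (Or.inl ⟨hc.1.le, hc.2.le⟩), hc.1.ne'⟩
      refine closure_mono this ?_
      rw [closure_Ioo (ne_of_lt hlt)]
      exact ⟨le_rfl, hlt.le⟩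
  obtain ⟨W, hW, hW2⟩ := mem_nhdsWithin_iff_exists_mem_nhds_inter.1 h11
  obtain ⟨c, hc1, hc2, hc3⟩ := mem_closure_iff_nhds.1 h12 W hW
  have h13 : 0 < M.dif z x α c := hW2 ⟨hc1, hc2⟩
  have h14 := h9 c hc2 hc3
  unfold dif at h13
  linarith

/-- the first point of a ray at which `d` is reached -/
theorem first_hit {P : Finset ι} {x y z : ι} {α : Arc} {e τ : ℝ} (h : IsRay M P x y z α e τ)
    {R : Finset ι} {d : ι} (hd : d ∈ cr M.f R P (α.g '' uIcc e τ))
    (hd0 : d ∉ cr M.f R P {α.g e}) :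
    ∃ c ∈ uIcc e τ, c ≠ e ∧ M.f d (α.g c) = M.f x (α.g c) ∧
      ∀ c' ∈ uIcc e c, c' ≠ c → M.f x (α.g c') < M.f d (α.g c') := by
  have hrl := ray_end_le h
  have hD := fun τ' (hm : τ' ∈ uIcc e τ) => ray_memD h hm
  obtain ⟨h1, h2, h3, h4, h5, h6, h7, h8, h9⟩ := h
  rw [mem_cr] at hd
  obtain ⟨hdR, hdP, p, ⟨τ1, hτ1, rfl⟩, x', hx', hle⟩ := hd
  have hnot : ∀ a ∈ P, M.f a (α.g e) < M.f d (α.g e) := by
    intro a ha
    by_contra hcon
    push Not at hcon
    exact hd0 (mem_cr.2 ⟨hdR, hdP, α.g e, rfl, a, ha, hcon⟩)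
  have hxe : 0 < M.dif d x α e := by
    have := hnot x (by rw [h4]; simp)
    unfold dif; linarith
  have hmax : ∀ c ∈ uIcc e τ, ∀ a ∈ P, M.f a (α.g c) ≤ M.f x (α.g c) := by
    intro c hc a ha
    rw [h4] at ha
    simp only [Finset.mem_insert, Finset.mem_singleton] at ha
    rcases ha with rfl | rfl | rfl
    · exact le_rfl
    · exact (M.eq_of_arc h1 h5 (hD c hc)).ge
    · by_cases hce : c = e
      · rw [hce]; exact hrl
      · exact (h9 c hc hce).le
  have hτ1le : M.dif d x α τ1 ≤ 0 := by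
    have := hle.trans (hmax τ1 hτ1 x' hx')
    unfold dif; linarith
  have hcont : ContinuousOn (M.dif d x α) (uIcc e τ) := (M.dif_cont d x α).mono hD
  -- minimise the distance to `e` over the closed set where the difference is `≤ 0`
  set Z : Set ℝ := {c | c ∈ uIcc e τ ∧ M.dif d x α c ≤ 0} with hZ
  have hZc : IsCompact Z := by
    have h10 : IsClosed (uIcc e τ ∩ (M.dif d x α) ⁻¹' Iic 0) :=
      hcont.preimage_isClosed_of_isClosed isClosed_Icc isClosed_Iic
    exact (isCompact_uIcc.inter_right h10).of_isClosed_subset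
      (by
        have : Z = uIcc e τ ∩ (M.dif d x α) ⁻¹' Iic 0 := by
          ext c; rfl
        rw [this]; exact h10)
      (fun c hc => ⟨hc.1, hc.1, hc.2⟩)
  obtain ⟨c, hcZ, hcmin⟩ := hZc.exists_isMinOn ⟨τ1, hτ1, hτ1le⟩
    (f := fun c => |c - e|) (by fun_prop)
  have hce : c ≠ e := by
    rintro rfl
    have := hcZ.2
    linarith
  have hbefore : ∀ c' ∈ uIcc e c, c' ≠ c → 0 < M.dif d x α c' := by
    intro c' hc' hne
    by_contra hcon
    push Not at hcon
    have h11 : c' ∈ Z := ⟨uIcc_subset_uIcc_left hcZ.1 hc', hcon⟩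
    have h12 : |c - e| ≤ |c' - e| := hcmin h11
    rw [mem_uIcc] at hc'
    rcases hc' with ⟨k1, k2⟩ | ⟨k1, k2⟩
    · rw [abs_of_nonneg (by linarith), abs_of_nonneg (by linarith)] at h12
      exact hne (by linarith)
    · rw [abs_of_nonpos (by linarith), abs_of_nonpos (by linarith)] at h12
      exact hne (by linarith)
  have heq : M.dif d x α c = 0 := by
    refine le_antisymm hcZ.2 ?_
    by_contra hcon
    push Not at hcon
    have hsub : uIcc e c ⊆ uIcc e τ := uIcc_subset_uIcc_left hcZ.1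
    have h13 : uIcc (M.dif d x α e) (M.dif d x α c) ⊆ M.dif d x α '' uIcc e c :=
      intermediate_value_uIcc (hcont.mono hsub)
    obtain ⟨c', hc', h0⟩ := h13 (mem_uIcc.2 (Or.inr ⟨hcon.le, hxe.le⟩) : (0 : ℝ) ∈ _)
    by_cases hc'c : c' = c
    · subst hc'c
      linarith
    · have := hbefore c' hc' hc'c
      linarith
  refine ⟨c, hcZ.1, hce, ?_, ?_⟩
  · unfold dif at heq; linarith
  · intro c' hc' hne
    have := hbefore c' hc' hne
    unfold dif at this; linarith

/-- `d` is cheap: it crosses a ray from `w` at a point of low level -/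
def Cheap (M : Setup ι s t) (R P : Finset ι) (w : ℝ × ℝ) (k : ℕ) (d : ι) : Prop :=
  ∃ x y z α e τ, IsRay M P x y z α e τ ∧ α.g e = w ∧ M.f d (α.g τ) = M.f x (α.g τ) ∧
    (cr M.f R {x, y, d} {α.g τ}).card ≤ k

/-- crossings of a single ray -/
theorem ray_cross {P : Finset ι} {x y z : ι} {α : Arc} {e τ : ℝ} (h : IsRay M P x y z α e τ)
    {R : Finset ι} {l : ℕ} (hl : (cr M.f R P {α.g e}).card ≤ l) :
    ∃ σ : ι → ℝ, ∀ d ∈ cr M.f R P (α.g '' uIcc e τ) \ cr M.f R P {α.g e},
      ∃ c, IsRay M P x y z α e c ∧ M.f d (α.g c) = M.f x (α.g c) ∧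
        (cr M.f R {x, y, d} {α.g c}).card ≤ 1 + l +
          ((cr M.f R P (α.g '' uIcc e τ) \ cr M.f R P {α.g e}).filter
            (fun d' => σ d' < σ d)).card := by
  classical
  set D1 := cr M.f R P (α.g '' uIcc e τ) \ cr M.f R P {α.g e} with hD1
  have hex : ∀ d ∈ D1, ∃ c ∈ uIcc e τ, c ≠ e ∧ M.f d (α.g c) = M.f x (α.g c) ∧
      ∀ c' ∈ uIcc e c, c' ≠ c → M.f x (α.g c') < M.f d (α.g c') := by
    intro d hd
    rw [hD1, Finset.mem_sdiff] at hd
    exact first_hit h hd.1 hd.2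
  let hit : ι → ℝ := fun d => if hd : d ∈ D1 then (hex d hd).choose else e
  have hhit : ∀ d ∈ D1, hit d ∈ uIcc e τ ∧ hit d ≠ e ∧
      M.f d (α.g (hit d)) = M.f x (α.g (hit d)) ∧
      ∀ c' ∈ uIcc e (hit d), c' ≠ hit d → M.f x (α.g c') < M.f d (α.g c') := by
    intro d hd
    have : hit d = (hex d hd).choose := dif_pos hd
    rw [this]
    exact (hex d hd).choose_spec
  refine ⟨fun d => |hit d - e|, ?_⟩
  intro d hd
  obtain ⟨hc1, hc2, hc3, hc4⟩ := hhit d hd
  have hray := ray_shorten h hc1 hc2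
  refine ⟨hit d, hray, hc3, ?_⟩
  obtain ⟨h1, h2, h3, h4, h5, h6, h7, h8, h9⟩ := h
  set c := hit d with hc
  have hxP : x ∈ P := by rw [h4]; simp
  have hyP : y ∈ P := by rw [h4]; simp
  have hdP : d ∉ P := by
    rw [hD1, Finset.mem_sdiff] at hd
    exact (mem_cr.1 hd.1).2.1
  have hcD : c ∈ α.D := ray_memD hray right_mem_uIcc
  have hxy : M.f x (α.g c) = M.f y (α.g c) := M.eq_of_arc h1 h5 hcD
  have hsub : cr M.f R {x, y, d} {α.g c} ⊆
      {z} ∪ cr M.f R P {α.g e} ∪ D1.filter (fun d' => |hit d' - e| < |c - e|) := by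
    intro d' hd'
    rw [mem_cr] at hd'
    obtain ⟨hR, hnQ, p, hp, a, ha, hle⟩ := hd'
    rw [mem_singleton_iff] at hp
    subst hp
    simp only [Finset.mem_insert, Finset.mem_singleton, not_or] at hnQ ha
    have hle' : M.f d' (α.g c) ≤ M.f x (α.g c) := by
      rcases ha with rfl | rfl | rfl
      · exact hle
      · linarith
      · linarith
    by_cases hz : d' = z
    · rw [Finset.mem_union, Finset.mem_union]
      left; left
      simp [hz]
    by_cases h0 : d' ∈ cr M.f R P {α.g e}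
    · rw [Finset.mem_union, Finset.mem_union]
      left; right
      exact h0
    rw [Finset.mem_union]
    right
    have hnP : d' ∉ P := by
      rw [h4]
      simp only [Finset.mem_insert, Finset.mem_singleton, not_or]
      exact ⟨hnQ.1, hnQ.2.1, hz⟩
    have hD' : d' ∈ D1 := by
      rw [hD1, Finset.mem_sdiff]
      exact ⟨mem_cr.2 ⟨hR, hnP, α.g c, ⟨c, hc1, rfl⟩, x, hxP, hle'⟩, h0⟩
    rw [Finset.mem_filter]
    refine ⟨hD', ?_⟩
    obtain ⟨g1, g2, g3, g4⟩ := hhit d' hD'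
    set c' := hit d' with hc'
    have hcc : c' ≠ c := by
      intro he
      rw [he] at g3
      refine M.quad x y d d' h1 ?_ ?_ ?_ ?_ ?_ (α.g c) hxy hc3.symm g3.symm
      · rintro rfl; exact hdP hxP
      · rintro rfl; exact hnP hxP
      · rintro rfl; exact hdP hyP
      · rintro rfl; exact hnP hyP
      · exact Ne.symm hnQ.2.2
    have hmem : c ∉ uIcc e c' := by
      intro hm
      have := g4 c hm hcc.symm
      linarith
    -- both `c` and `c'` lie on the same side of `e`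
    rw [mem_uIcc] at hc1 g1
    have hmem' : ¬ (e ≤ c ∧ c ≤ c') ∧ ¬ (c' ≤ c ∧ c ≤ e) := by
      rw [mem_uIcc] at hmem
      exact not_or.1 hmem
    rcases hc1 with ⟨k1, k2⟩ | ⟨k1, k2⟩
    · rcases g1 with ⟨m1, m2⟩ | ⟨m1, m2⟩
      · have : c' < c := by
          by_contra hcon
          push Not at hcon
          exact hmem'.1 ⟨k1, hcon⟩
        rw [abs_of_nonneg (by linarith), abs_of_nonneg (by linarith)]
        linarith
      · exfalso
        have : e = τ := le_antisymm (k1.trans k2) (m1.trans m2)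
        exact h8 this.symm
    · rcases g1 with ⟨m1, m2⟩ | ⟨m1, m2⟩
      · exfalso
        have : e = τ := le_antisymm (m1.trans m2) (k1.trans k2)
        exact h8 this.symm
      · have : c < c' := by
          by_contra hcon
          push Not at hcon
          exact hmem'.2 ⟨hcon, k2⟩
        rw [abs_of_nonpos (by linarith), abs_of_nonpos (by linarith)]
        linarith
  calc _ ≤ _ := Finset.card_le_card hsub
    _ ≤ _ := Finset.card_union_le _ _
    _ ≤ _ := Nat.add_le_add_right (Finset.card_union_le _ _) _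
    _ ≤ _ := by
      rw [Finset.card_singleton]
      exact Nat.add_le_add_right (Nat.add_le_add_left hl _) _

open Classical in
/-- many functions are cheap at a long star -/
theorem cheap_many {R P : Finset ι} {w : ℝ × ℝ} {l k : ℕ}
    (hl : (cr M.f R P {w}).card ≤ l) (hk : k ≤ (cr M.f R P (Star M P w)).card) :
    k - l ≤ ((R \ P).filter (Cheap M R P w k)).card := by
  rcases Nat.lt_or_ge l k with hlk | hlk
  swap
  · rw [Nat.sub_eq_zero_of_le hlk]
    exact Nat.zero_le _
  -- case A: a single ray is crossed often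
  by_cases hA : ∃ x y z α e τ, IsRay M P x y z α e τ ∧ α.g e = w ∧
      k - l ≤ (cr M.f R P (α.g '' uIcc e τ) \ cr M.f R P {α.g e}).card
  · obtain ⟨x, y, z, α, e, τ, hray, he, hcard⟩ := hA
    rw [← he] at hl
    obtain ⟨σ, hσ⟩ := ray_cross hray hl
    refine (sort_aux _ σ _ hcard).trans (Finset.card_le_card ?_)
    intro d hd
    rw [Finset.mem_filter] at hd
    obtain ⟨c, hc1, hc2, hc3⟩ := hσ d hd.1
    rw [Finset.mem_filter]
    refine ⟨?_, x, y, z, α, e, c, hc1, he, hc2, ?_⟩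
    · have := (Finset.mem_sdiff.1 hd.1).1
      exact cr_sub_sdiff this
    · have := hd.2
      omega
  · push Not at hA
    have hsub : cr M.f R P (Star M P w) \ cr M.f R P {w} ⊆ (R \ P).filter (Cheap M R P w k) := by
      intro d hd
      rw [Finset.mem_sdiff] at hd
      obtain ⟨hd1, hd2⟩ := hd
      have hd1' := mem_cr.1 hd1
      obtain ⟨hdR, hdP, p, ⟨x, y, z, α, e, τ, hray, he, rfl⟩, a, ha, hle⟩ := hd1'
      rw [Finset.mem_filter]
      refine ⟨Finset.mem_sdiff.2 ⟨hdR, hdP⟩, ?_⟩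
      have hcard := hA x y z α e τ hray he
      rw [← he] at hl hd2
      obtain ⟨σ, hσ⟩ := ray_cross hray hl
      have hdD : d ∈ cr M.f R P (α.g '' uIcc e τ) \ cr M.f R P {α.g e} := by
        rw [Finset.mem_sdiff]
        exact ⟨mem_cr.2 ⟨hdR, hdP, α.g τ, ⟨τ, right_mem_uIcc, rfl⟩, a, ha, hle⟩, hd2⟩
      obtain ⟨c, hc1, hc2, hc3⟩ := hσ d hdD
      refine ⟨x, y, z, α, e, c, hc1, he, hc2, ?_⟩
      have h1 : ((cr M.f R P (α.g '' uIcc e τ) \ cr M.f R P {α.g e}).filter
          (fun d' => σ d' < σ d)).card ≤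
          (cr M.f R P (α.g '' uIcc e τ) \ cr M.f R P {α.g e}).card :=
        Finset.card_filter_le _ _
      omega
    have h1 := Finset.card_le_card hsub
    have h2 := Finset.le_card_sdiff (cr M.f R P {w}) (cr M.f R P (Star M P w))
    omega

end Setup

end Run7.h605
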