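import Mathlib
import Pool.Agent.Run7.h605.Charge

/-!
# Double counting for long stars
-/

set_option autoImplicit false

open Set Topology

namespace Run7.h605

namespace Setup

variable {ι : Type} [DecidableEq ι] {s t : ℕ} {M : Setup ι s t}

theorem side_count {R : Finset ι} {x y : ι} {u : ℝ × ℝ} {l : ℕ} {ε : ℝ} (hε : ε = 1 ∨ ε = -1)
    (Z : Finset ι) (hZR : Z ⊆ R)
    (hZ : ∀ z ∈ Z, ∃ α e τ, IsRay M {x, y, z} x y z α e τ ∧
      (cr M.f R {x, y, z} {α.g e}).card ≤ l ∧ α.g τ = u ∧ 0 < ε * (τ - e)) :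
    Z.card ≤ l + 1 := by
  classical
  by_cases hne : Z.Nonempty
  swap
  · rw [Finset.not_nonempty_iff_eq_empty] at hne
    simp [hne]
  have hArc : Nonempty Arc := ⟨(hZ _ hne.choose_spec).choose⟩
  choose! α e τ hray hlev hu hside using hZ
  obtain ⟨z0, hz0, hmin⟩ := Finset.exists_min_image Z (fun z => ε * (τ z - e z)) hne
  have h0 := hray z0 hz0
  have hsub : Z ⊆ {z0} ∪ cr M.f R {x, y, z0} {(α z0).g (e z0)} := by
    intro z hz
    by_cases hzz : z = z0
    · simp [hzz]
    rw [Finset.mem_union]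
    right
    have h1 := hray z hz
    have hα : α z = α z0 :=
      M.disj x y h0.1 (α z) h1.2.2.2.2.1 (α z0) h0.2.2.2.2.1 (τ z) h1.2.2.2.2.2.2.1 (τ z0)
        h0.2.2.2.2.2.2.1 ((hu z hz).trans (hu z0 hz0).symm)
    have hτ : τ z = τ z0 := by
      have h2 : (α z0).g (τ z) = (α z0).g (τ z0) := by
        rw [hu z0 hz0, ← hα, hu z hz]
      exact (α z0).inj h1.2.2.2.2.2.2.1 h0.2.2.2.2.2.2.1 h2
    have hm := hmin z hz
    have hs0 := hside z0 hz0
    have hs1 := hside z hz
    rw [hτ] at hm hs1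
    have hmem : e z0 ∈ uIcc (e z) (τ z) := by
      rw [hτ, mem_uIcc]
      rcases hε with rfl | rfl
      · left
        constructor <;> linarith
      · right
        constructor <;> linarith
    have hle : M.f z ((α z0).g (e z0)) ≤ M.f x ((α z0).g (e z0)) := by
      rw [← hα]
      by_cases he : e z0 = e z
      · rw [he]
        exact ray_end_le h1
      · obtain ⟨-, -, -, -, -, -, -, -, h9⟩ := h1
        exact (h9 (e z0) hmem he).le
    rw [mem_cr]
    refine ⟨hZR hz, ?_, _, rfl, x, by simp, hle⟩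
    simp only [Finset.mem_insert, Finset.mem_singleton, not_or]
    exact ⟨Ne.symm h1.2.1, Ne.symm h1.2.2.1, hzz⟩
  calc Z.card ≤ _ := Finset.card_le_card hsub
    _ ≤ _ := Finset.card_union_le _ _
    _ ≤ 1 + l := by
      rw [Finset.card_singleton]
      exact Nat.add_le_add_left (hlev z0 hz0) _
    _ = l + 1 := by ring

theorem NF_finite (R : Finset ι) (k : ℕ) : (NF M R k).Finite := by
  have h1 : NF M R k ⊆ ⋃ Q ∈ R.powersetCard 3, (fun p => (Q, p)) '' T M.f Q := by
    rintro ⟨Q, p⟩ ⟨h1, h2, h3, h4⟩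
    simp only [mem_iUnion, exists_prop]
    exact ⟨Q, Finset.mem_powersetCard.2 ⟨h1, h2⟩, p, h3, rfl⟩
  refine Set.Finite.subset ?_ h1
  refine (Finset.finite_toSet (R.powersetCard 3)).biUnion (fun Q hQ => ?_)
  have hQ' : Q.card = 3 := (Finset.mem_powersetCard.1 hQ).2
  exact (T_finite hQ').image _

/-- the number of vertices of level at most `k` -/
noncomputable def NN (M : Setup ι s t) (R : Finset ι) (k : ℕ) : ℕ := (NF M R k).ncard

open Classical in
/-- the triples with a long star -/
noncomputable def LongF (M : Setup ι s t) (R : Finset ι) (l k : ℕ) : Finset (Finset ι) :=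
  (R.powersetCard 3).filter (fun P => Long M R l k P)

/-- the charging relation -/
def Rel (M : Setup ι s t) (R : Finset ι) (l : ℕ) (P : Finset ι) (q : Finset ι × (ℝ × ℝ)) : Prop :=
  ∃ x y z α e τ, IsRay M P x y z α e τ ∧ (cr M.f R P {α.g e}).card ≤ l ∧
    ∃ d, d ∈ R ∧ d ∉ P ∧ q.1 = {x, y, d} ∧ α.g τ = q.2

theorem charging (R : Finset ι) (l k : ℕ) :
    (LongF M R l k).card * (k - l) ≤ NN M R k * (18 * (l + 1)) := by
  classical
  unfold NN
  rw [Set.ncard_eq_toFinset_card _ (NF_finite R k)]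
  refine Finset.card_mul_le_card_mul (Rel M R l) ?_ ?_
  · intro P hP
    unfold LongF at hP
    rw [Finset.mem_filter, Finset.mem_powersetCard] at hP
    obtain ⟨⟨hPR, hPc⟩, w, hwU, hl, hk⟩ := hP
    refine (cheap_many hl hk).trans ?_
    have hch : ∀ d ∈ (R \ P).filter (Cheap M R P w k), ∃ q : Finset ι × (ℝ × ℝ),
        q ∈ NF M R k ∧ Rel M R l P q ∧ q.1 \ P = {d} := by
      intro d hd
      rw [Finset.mem_filter, Finset.mem_sdiff] at hd
      obtain ⟨⟨hdR, hdP⟩, x, y, z, α, e, τ, hray, he, hdx, hlev⟩ := hd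
      have hxP : x ∈ P := by rw [hray.2.2.2.1]; simp
      have hyP : y ∈ P := by rw [hray.2.2.2.1]; simp
      have hxd : x ≠ d := by rintro rfl; exact hdP hxP
      have hyd : y ≠ d := by rintro rfl; exact hdP hyP
      refine ⟨({x, y, d}, α.g τ), ⟨?_, ?_, ?_, hlev⟩, ?_, ?_⟩
      · intro a ha
        simp only [Finset.mem_insert, Finset.mem_singleton] at ha
        rcases ha with rfl | rfl | rfl
        · exact hPR hxP
        · exact hPR hyP
        · exact hdR
      · rw [Finset.card_eq_three]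
        exact ⟨x, y, d, hray.1, hxd, hyd, rfl⟩
      · exact mem_T_of (M.eq_of_arc hray.1 hray.2.2.2.2.1 (α.sub hray.2.2.2.2.2.2.1)) hdx
      · refine ⟨x, y, z, α, e, τ, hray, ?_, d, hdR, hdP, rfl, rfl⟩
        rw [he]
        exact hl
      · ext a
        simp only [Finset.mem_sdiff, Finset.mem_insert, Finset.mem_singleton]
        constructor
        · rintro ⟨rfl | rfl | rfl, h⟩
          · exact absurd hxP h
          · exact absurd hyP h
          · rfl
        · rintro rfl
          exact ⟨Or.inr (Or.inr rfl), hdP⟩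
    choose! q hq1 hq2 hq3 using hch
    refine Finset.card_le_card_of_injOn q ?_ ?_
    · intro d hd
      rw [Finset.mem_coe] at hd
      rw [Finset.mem_coe, Finset.mem_bipartiteAbove, Set.Finite.mem_toFinset]
      exact ⟨hq1 d hd, hq2 d hd⟩
    · intro d hd d' hd' he
      rw [Finset.mem_coe] at hd hd'
      have h1 := hq3 d hd
      have h2 := hq3 d' hd'
      rw [he, h2] at h1
      exact (Finset.singleton_injective h1).symm
  · rintro ⟨Q, u⟩ hq
    rw [Set.Finite.mem_toFinset] at hq
    obtain ⟨hQR, hQ3, hu, hlev⟩ := hq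
    have hQR' : Q ⊆ R := hQR
    have hQ3' : Q.card = 3 := hQ3
    let Zs : ι × ι → ℝ → Finset ι := fun p ε => R.filter (fun z => ∃ α e τ,
      IsRay M {p.1, p.2, z} p.1 p.2 z α e τ ∧
      (cr M.f R {p.1, p.2, z} {α.g e}).card ≤ l ∧ α.g τ = u ∧ 0 < ε * (τ - e))
    have hZs : ∀ p ε, (ε = 1 ∨ ε = -1) → (Zs p ε).card ≤ l + 1 := by
      intro p ε hε
      refine side_count (M := M) (x := p.1) (y := p.2) (u := u) hε (Zs p ε) (Finset.filter_subset _ _) ?_
      intro z hz
      exact (Finset.mem_filter.1 hz).2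
    have hsub : Finset.bipartiteBelow (Rel M R l) (LongF M R l k) (Q, u) ⊆
        (Q ×ˢ Q).biUnion (fun p => (Zs p 1).image (fun z => ({p.1, p.2, z} : Finset ι)) ∪
          (Zs p (-1)).image (fun z => ({p.1, p.2, z} : Finset ι))) := by
      intro P hP
      rw [Finset.mem_bipartiteBelow] at hP
      obtain ⟨hPL, x, y, z, α, e, τ, hray, hl, d, hdR, hdP, hQ, hτ⟩ := hP
      have hPL' : P ⊆ R := by
        unfold LongF at hPL
        rw [Finset.mem_filter, Finset.mem_powersetCard] at hPL
        exact hPL.1.1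
      have hPe : P = {x, y, z} := hray.2.2.2.1
      subst hPe
      have hzR : z ∈ R := hPL' (by simp)
      have hQ' : Q = {x, y, d} := hQ
      rw [Finset.mem_biUnion]
      refine ⟨(x, y), ?_, ?_⟩
      · rw [Finset.mem_product, hQ']
        simp
      · rw [Finset.mem_union, Finset.mem_image, Finset.mem_image]
        rcases lt_or_gt_of_ne hray.2.2.2.2.2.2.2.1 with hlt | hlt
        · right
          refine ⟨z, ?_, rfl⟩
          refine Finset.mem_filter.2 ⟨hzR, α, e, τ, hray, hl, hτ, ?_⟩
          linarith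
        · left
          refine ⟨z, ?_, rfl⟩
          refine Finset.mem_filter.2 ⟨hzR, α, e, τ, hray, hl, hτ, ?_⟩
          linarith
    calc _ ≤ _ := Finset.card_le_card hsub
      _ ≤ ∑ p ∈ Q ×ˢ Q, ((Zs p 1).image (fun z => ({p.1, p.2, z} : Finset ι)) ∪
          (Zs p (-1)).image (fun z => ({p.1, p.2, z} : Finset ι))).card :=
          Finset.card_biUnion_le
      _ ≤ ∑ p ∈ Q ×ˢ Q, 2 * (l + 1) := by
          refine Finset.sum_le_sum ?_
          intro p _
          have h1 := Finset.card_union_le ((Zs p 1).image (fun z => ({p.1, p.2, z} : Finset ι)))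
            ((Zs p (-1)).image (fun z => ({p.1, p.2, z} : Finset ι)))
          have h2 : ((Zs p 1).image (fun z => ({p.1, p.2, z} : Finset ι))).card ≤ (Zs p 1).card :=
            Finset.card_image_le
          have h3 : ((Zs p (-1)).image (fun z => ({p.1, p.2, z} : Finset ι))).card
              ≤ (Zs p (-1)).card := Finset.card_image_le
          have h4 := hZs p 1 (Or.inl rfl)
          have h5 := hZs p (-1) (Or.inr rfl)
          omega
      _ = 18 * (l + 1) := by
          rw [Finset.sum_const, Finset.card_product, hQ3', smul_eq_mul]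
          ring

end Setup

end Run7.h605
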