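import Mathlib
import Pool.Agent.Run7.h605.Pieces

/-!
# Either some star is long or the component of the upper graph is crossed by few functions
-/

set_option autoImplicit false

open Set Topology

namespace Run7.h605

namespace Setup

variable {ι : Type} [DecidableEq ι] {s t : ℕ} {M : Setup ι s t}

/-- nodes of level at most `k` -/
def Good (M : Setup ι s t) (R P : Finset ι) (k : ℕ) : Set (ℝ × ℝ) :=
  {w | w ∈ M.Nodes P ∧ w ∈ U M.f P ∧ (cr M.f R P {w}).card ≤ k}

theorem good_finite {P : Finset ι} (hP : P.card = 3) (R : Finset ι) (k : ℕ) :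
    (Good M R P k).Finite := (nodes_finite hP).subset (fun _ hw => hw.1)

theorem good_ncard {P : Finset ι} (hP : P.card = 3) (R : Finset ι) (k : ℕ) :
    (Good M R P k).ncard ≤ s + 3 * t := by
  have h1 : (Good M R P k).encard ≤ ((s + 3 * t : ℕ) : ℕ∞) :=
    (Set.encard_le_encard (fun _ hw => hw.1)).trans (nodes_card hP)
  rw [← (good_finite hP R k).cast_ncard_eq] at h1
  exact_mod_cast h1

/-- if no star at a node of level at most `k` is long, and no node has level in `(k, k']`, then
the component of the upper graph has few crossings -/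
theorem dicho_core {P : Finset ι} (hP : P.card = 3) (R : Finset ι) {k k' : ℕ} (hkk : k ≤ k')
    (hlong : ¬ Long M R k k' P) (hgood : Good M R P k = Good M R P k')
    {v : ℝ × ℝ} (hv : v ∈ T M.f P) (hvk : (cr M.f R P {v}).card ≤ k) :
    (cr M.f R P (connectedComponentIn (U M.f P) v)).card ≤ (s + 3 * t) * (2 * k') := by
  classical
  have hUc : IsClosed (U M.f P) := U_closed M.cont P
  have hvU : v ∈ U M.f P := T_sub_U (by omega) hv
  have hstar : ∀ w ∈ Good M R P k, (cr M.f R P (Star M P w)).card < k' := by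
    intro w hw
    by_contra hcon
    push Not at hcon
    exact hlong ⟨w, hw.2.1, hw.2.2, hcon⟩
  set G := Good M R P k with hG
  set Y : Set (ℝ × ℝ) := G ∪ ⋃ B ∈ {B | B ∈ M.Pieces P ∧ (closure B ∩ G).Nonempty}, B with hY
  set Y' : Set (ℝ × ℝ) := ((M.Nodes P ∩ U M.f P) \ G) ∪
    ⋃ B ∈ {B | B ∈ M.Pieces P ∧ ¬ (closure B ∩ G).Nonempty}, B with hY'
  have hGfin : G.Finite := good_finite hP R k
  have hclB : ∀ B ∈ M.Pieces P, closure B ⊆ B ∪ (M.Nodes P ∩ U M.f P) := by
    intro B hB p hp
    rcases piece_closure hB hp with h | h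
    · exact Or.inl h
    · exact Or.inr ⟨h, closure_minimal (piece_sub_U hB) hUc hp⟩
  have hYcl : IsClosed Y := by
    rw [← closure_subset_iff_isClosed]
    rw [hY, closure_union, hGfin.isClosed.closure_eq, ← sUnion_eq_biUnion]
    rintro p (hp | hp)
    · exact Or.inl hp
    · replace hp : p ∈ ⋃ B ∈ {B | B ∈ M.Pieces P ∧ (closure B ∩ G).Nonempty}, closure B :=
        (pieces_cp P) {B | B ∈ M.Pieces P ∧ (closure B ∩ G).Nonempty} (fun _ h => h.1) hp
      simp only [mem_iUnion, exists_prop] at hp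
      obtain ⟨B, ⟨hB, hBG⟩, hp⟩ := hp
      rcases hclB B hB hp with h | h
      · right
        exact ⟨B, ⟨hB, hBG⟩, h⟩
      · left
        obtain ⟨w, hw1, hw2⟩ := hBG
        rw [hgood]
        refine ⟨h.1, h.2, ?_⟩
        have h1 := M.level_closure (R := R) h.2 hp
        have h2 := Finset.card_le_card (cr_mono (f := M.f) (R := R) (P := P)
          (piece_star hB hw1 hw2.1))
        have h3 := hstar w hw2
        omega
  have hY'cl : IsClosed Y' := by
    rw [← closure_subset_iff_isClosed]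
    have hfin : ((M.Nodes P ∩ U M.f P) \ G).Finite :=
      (nodes_finite hP).subset (fun _ h => h.1.1)
    rw [hY', closure_union, hfin.isClosed.closure_eq, ← sUnion_eq_biUnion]
    rintro p (hp | hp)
    · exact Or.inl hp
    · replace hp : p ∈ ⋃ B ∈ {B | B ∈ M.Pieces P ∧ ¬ (closure B ∩ G).Nonempty}, closure B :=
        (pieces_cp P) {B | B ∈ M.Pieces P ∧ ¬ (closure B ∩ G).Nonempty} (fun _ h => h.1) hp
      simp only [mem_iUnion, exists_prop] at hp
      obtain ⟨B, ⟨hB, hBG⟩, hp⟩ := hp
      rcases hclB B hB hp with h | h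
      · right
        exact ⟨B, ⟨hB, hBG⟩, h⟩
      · left
        exact ⟨h, fun hpG => hBG ⟨p, hp, hpG⟩⟩
  have hdisj : Disjoint Y Y' := by
    rw [disjoint_left]
    rintro p (hp | hp) (hp' | hp')
    · exact hp'.2 hp
    · simp only [mem_iUnion, exists_prop] at hp'
      obtain ⟨B, ⟨hB, hBG⟩, hp'⟩ := hp'
      exact disjoint_left.1 (piece_disj_nodes hB) hp' hp.1
    · simp only [mem_iUnion, exists_prop] at hp
      obtain ⟨B, ⟨hB, hBG⟩, hp⟩ := hp
      exact disjoint_left.1 (piece_disj_nodes hB) hp hp'.1.1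
    · simp only [mem_iUnion, exists_prop] at hp hp'
      obtain ⟨B, ⟨hB, hBG⟩, hp⟩ := hp
      obtain ⟨B', ⟨hB', hBG'⟩, hp'⟩ := hp'
      have := piece_eq hB hB' ⟨p, hp, hp'⟩
      subst this
      exact hBG' hBG
  have hcov : U M.f P ⊆ Y ∪ Y' := by
    intro p hp
    rcases U_cover hP hp with h | h
    · by_cases hpG : p ∈ G
      · exact Or.inl (Or.inl hpG)
      · exact Or.inr (Or.inl ⟨⟨h, hp⟩, hpG⟩)
    · obtain ⟨B, hB, hpB⟩ := h
      by_cases hBG : (closure B ∩ G).Nonempty
      · left
        right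
        simp only [mem_iUnion, exists_prop]
        exact ⟨B, ⟨hB, hBG⟩, hpB⟩
      · right
        right
        simp only [mem_iUnion, exists_prop]
        exact ⟨B, ⟨hB, hBG⟩, hpB⟩
  set K := connectedComponentIn (U M.f P) v with hK
  have hKpre : IsPreconnected K := isPreconnected_connectedComponentIn
  have hKU : K ⊆ U M.f P := connectedComponentIn_subset _ _
  have hvK : v ∈ K := mem_connectedComponentIn hvU
  have hvY : v ∈ Y := Or.inl ⟨Or.inl hv, hvU, hvk⟩
  have hKY : K ⊆ Y := by
    rcases (isPreconnected_iff_subset_of_disjoint_closed.1 hKpre) Y Y' hYcl hY'cl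
      (hKU.trans hcov) (by rw [hdisj.inter_eq, inter_empty]) with h | h
    · exact h
    · exact absurd (h hvK) (disjoint_left.1 hdisj hvY)
  have hsub : cr M.f R P K ⊆ hGfin.toFinset.biUnion
      (fun w => cr M.f R P {w} ∪ cr M.f R P (Star M P w)) := by
    intro d hd
    have hd' := cr_mono hKY hd
    rw [mem_cr] at hd'
    obtain ⟨hdR, hdP, p, hp, x, hx, hle⟩ := hd'
    rw [Finset.mem_biUnion]
    rcases hp with hp | hp
    · refine ⟨p, hGfin.mem_toFinset.2 hp, Finset.mem_union_left _ ?_⟩
      rw [mem_cr]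
      exact ⟨hdR, hdP, p, rfl, x, hx, hle⟩
    · simp only [mem_iUnion, exists_prop] at hp
      obtain ⟨B, ⟨hB, w, hw1, hw2⟩, hp⟩ := hp
      refine ⟨w, hGfin.mem_toFinset.2 hw2, Finset.mem_union_right _ ?_⟩
      rw [mem_cr]
      exact ⟨hdR, hdP, p, piece_star hB hw1 hw2.1 hp, x, hx, hle⟩
  calc (cr M.f R P K).card ≤ _ := Finset.card_le_card hsub
    _ ≤ ∑ w ∈ hGfin.toFinset, (cr M.f R P {w} ∪ cr M.f R P (Star M P w)).card :=
        Finset.card_biUnion_le
    _ ≤ ∑ w ∈ hGfin.toFinset, (2 * k') := by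
        refine Finset.sum_le_sum ?_
        intro w hw
        have hw' := hGfin.mem_toFinset.1 hw
        have h1 := Finset.card_union_le (cr M.f R P {w}) (cr M.f R P (Star M P w))
        have h2 := hstar w hw'
        have h3 := hw'.2.2
        omega
    _ = hGfin.toFinset.card * (2 * k') := by rw [Finset.sum_const, smul_eq_mul]
    _ ≤ (s + 3 * t) * (2 * k') := by
        refine Nat.mul_le_mul_right _ ?_
        rw [← Set.ncard_eq_toFinset_card _ hGfin]
        exact good_ncard hP R k

/-- the dichotomy -/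
theorem dicho {P : Finset ι} (hP : P.card = 3) (R : Finset ι) {k : ℕ → ℕ} (hk : Monotone k)
    {v : ℝ × ℝ} (hv : v ∈ T M.f P) (hvk : (cr M.f R P {v}).card ≤ k 0)
    (hlong : ∀ j < s + 3 * t, ¬ Long M R (k j) (k (j + 1)) P) :
    (cr M.f R P (connectedComponentIn (U M.f P) v)).card
      ≤ (s + 3 * t) * (2 * k (s + 3 * t)) := by
  have hvU : v ∈ U M.f P := T_sub_U (by omega) hv
  have hmono : ∀ j, Good M R P (k j) ⊆ Good M R P (k (j + 1)) := by
    intro j w hw
    exact ⟨hw.1, hw.2.1, hw.2.2.trans (hk (Nat.le_succ j))⟩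
  have hex : ∃ j < s + 3 * t, Good M R P (k j) = Good M R P (k (j + 1)) := by
    by_contra hcon
    push Not at hcon
    have h1 : ∀ j ≤ s + 3 * t, j + 1 ≤ (Good M R P (k j)).ncard := by
      intro j
      induction j with
      | zero =>
        intro _
        have : (Good M R P (k 0)).Nonempty := ⟨v, Or.inl hv, hvU, hvk⟩
        have := (Set.ncard_pos (good_finite hP R (k 0))).2 this
        omega
      | succ j ih =>
        intro hj
        have h2 := ih (by omega)
        have h3 : Good M R P (k j) ⊂ Good M R P (k (j + 1)) :=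
          (hmono j).ssubset_of_ne (hcon j (by omega))
        have h4 := Set.ncard_lt_ncard h3 (good_finite hP R (k (j + 1)))
        omega
    have h2 := h1 (s + 3 * t) le_rfl
    have h3 := good_ncard (M := M) hP R (k (s + 3 * t))
    omega
  obtain ⟨j, hj, hje⟩ := hex
  have h1 := dicho_core hP R (hk (Nat.le_succ j)) (hlong j hj) hje hv
    (hvk.trans (hk (Nat.zero_le j)))
  refine h1.trans (Nat.mul_le_mul_left _ (Nat.mul_le_mul_left _ (hk ?_)))
  omega

end Setup

end Run7.h605
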