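import Mathlib
import Pool.Agent.N491.HP.Jan
import Pool.Agent.Run7.h605.Defs

/-!
# Topology of the plane: thin connected neighbourhoods and frontiers of complementary components
-/

set_option autoImplicit false

open Set Topology

namespace Run7.h605

/-- a closed connected set has a closed connected neighbourhood inside any open set containing it -/
theorem thick {E : Type*} [NormedAddCommGroup E] [NormedSpace ℝ E] [ProperSpace E]
    {K V : Set E} (hK : IsClosed K) (hKc : IsConnected K) (hV : IsOpen V) (hKV : K ⊆ V) :
    ∃ N : Set E, IsClosed N ∧ IsConnected N ∧ K ⊆ interior N ∧ N ⊆ V := by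
  by_cases hVu : V = univ
  · refine ⟨univ, isClosed_univ, ?_, by simp, by rw [hVu]⟩
    have : Nonempty E := ⟨hKc.nonempty.some⟩
    exact isConnected_univ
  have hVn : (Vᶜ).Nonempty := by
    rwa [nonempty_compl]
  have hVcl : IsClosed Vᶜ := hV.isClosed_compl
  set N : Set E := {y | 2 * Metric.infDist y K ≤ Metric.infDist y Vᶜ} with hN
  have hcl : IsClosed N :=
    isClosed_le (continuous_const.mul (Metric.continuous_infDist_pt K))
      (Metric.continuous_infDist_pt _)
  have hKint : K ⊆ interior N := by
    intro x hx
    have hop : IsOpen {y : E | 2 * Metric.infDist y K < Metric.infDist y Vᶜ} :=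
      isOpen_lt (continuous_const.mul (Metric.continuous_infDist_pt K))
        (Metric.continuous_infDist_pt _)
    refine mem_interior.2 ⟨_, ?_, hop, ?_⟩
    · intro y hy
      have hy' : 2 * Metric.infDist y K < Metric.infDist y Vᶜ := hy
      exact hy'.le
    · have h1 : Metric.infDist x K = 0 := Metric.infDist_zero_of_mem hx
      have h2 : 0 < Metric.infDist x Vᶜ := by
        refine (hVcl.notMem_iff_infDist_pos hVn).1 ?_
        simpa using hKV hx
      show 2 * Metric.infDist x K < Metric.infDist x Vᶜ
      rw [h1]
      simpa using h2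
  have hNV : N ⊆ V := by
    intro y hy
    by_contra hyV
    have h1 : Metric.infDist y Vᶜ = 0 := Metric.infDist_zero_of_mem hyV
    have h2 : Metric.infDist y K = 0 := by
      have h3 : 2 * Metric.infDist y K ≤ Metric.infDist y Vᶜ := hy
      have h4 := Metric.infDist_nonneg (x := y) (s := K)
      linarith
    have h5 : y ∈ K := by
      rw [hK.mem_iff_infDist_zero hKc.nonempty]
      exact h2
    exact hyV (hKV h5)
  refine ⟨N, hcl, ?_, hKint, hNV⟩
  obtain ⟨⟨k0, hk0⟩, hKp⟩ := hKc
  refine ⟨⟨k0, interior_subset (hKint hk0)⟩, ?_⟩
  refine isPreconnected_of_forall k0 ?_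
  intro y hy
  obtain ⟨x, hx, hxy⟩ := hK.exists_infDist_eq_dist ⟨k0, hk0⟩ y
  refine ⟨K ∪ segment ℝ x y, ?_, Or.inl hk0, Or.inr (right_mem_segment ℝ x y), ?_⟩
  · rintro z (hz | hz)
    · exact interior_subset (hKint hz)
    · rw [segment_eq_image'] at hz
      obtain ⟨θ, ⟨hθ0, hθ1⟩, rfl⟩ := hz
      set z : E := x + θ • (y - x) with hzdef
      have h1 : Metric.infDist z K ≤ θ * dist y x := by
        have h2 := Metric.infDist_le_dist_of_mem (x := z) hx
        have h3 : dist z x = θ * dist y x := by
          rw [dist_eq_norm, dist_eq_norm, hzdef]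
          have : x + θ • (y - x) - x = θ • (y - x) := by abel
          rw [this, norm_smul, Real.norm_of_nonneg hθ0]
        rwa [h3] at h2
      have h4 : Metric.infDist y Vᶜ ≤ Metric.infDist z Vᶜ + (1 - θ) * dist y x := by
        have h5 := Metric.infDist_le_infDist_add_dist (s := Vᶜ) (x := y) (y := z)
        have h6 : dist y z = (1 - θ) * dist y x := by
          rw [dist_eq_norm, dist_eq_norm, hzdef]
          have : y - (x + θ • (y - x)) = (1 - θ) • (y - x) := by
            rw [sub_smul, one_smul]
            abel
          rw [this, norm_smul, Real.norm_of_nonneg (by linarith)]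
        rwa [h6] at h5
      have h7 : 2 * Metric.infDist y K ≤ Metric.infDist y Vᶜ := hy
      rw [hxy] at h7
      show 2 * Metric.infDist z K ≤ Metric.infDist z Vᶜ
      have h8 : 0 ≤ dist y x := dist_nonneg
      have h9 : θ * dist y x ≤ dist y x := by nlinarith
      nlinarith
  · exact IsPreconnected.union x hx (left_mem_segment ℝ x y) hKp (convex_segment x y).isPreconnected

/-- the frontier of a component of the complement of a closed connected set -/
theorem front {N : Set (ℝ × ℝ)} (hN : IsClosed N) (hNc : IsConnected N) (q : ℝ × ℝ) :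
    IsPreconnected (frontier (connectedComponentIn Nᶜ q)) ∧
    frontier (connectedComponentIn Nᶜ q) ⊆ N ∧
    Disjoint (frontier (connectedComponentIn Nᶜ q)) (interior N) := by
  set O := connectedComponentIn Nᶜ q with hO
  have hOo : IsOpen O := hN.isOpen_compl.connectedComponentIn
  have h1 : IsPreconnected Oᶜ := Pool.Agent.N491.HP.compl_comp_preconnected hN hNc q
  have h2 : IsPreconnected (closure O) := isPreconnected_connectedComponentIn.closure
  have h3 := Pool.Agent.H777R2.unicoherent (isClosed_closure (s := O)) hOo.isClosed_compl h2 h1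
    (by
      ext z
      simp only [mem_union, mem_univ, iff_true]
      by_cases hz : z ∈ O
      · exact Or.inl (subset_closure hz)
      · exact Or.inr hz)
  have hfr : closure O ∩ Oᶜ = frontier O := by
    rw [hOo.frontier_eq]
    rfl
  rw [hfr] at h3
  refine ⟨h3, ?_, ?_⟩
  · intro z hz
    have := Pool.Agent.N491.HP.frontier_comp hN.isOpen_compl hz
    simpa using this
  · rw [disjoint_left]
    intro z hz hzi
    have h4 : z ∈ closure Nᶜ := closure_mono (connectedComponentIn_subset _ _) hz.1
    rw [closure_compl] at h4
    exact h4 hzi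

/-- if a closed set is a union of a closure preserving family of preconnected sets, its
components are isolated -/
theorem diff_comp_closed {X : Type*} [TopologicalSpace X] {A : Set X} (hA : IsClosed A)
    {F : Set (Set X)} (hF : CP F) (hpre : ∀ B ∈ F, IsPreconnected B)
    (hsub : ∀ B ∈ F, B ⊆ A) (hcov : A ⊆ ⋃₀ F) (v : X) :
    IsClosed (A \ connectedComponentIn A v) := by
  set K := connectedComponentIn A v with hK
  have key : A \ K = ⋃ B ∈ {B ∈ F | Disjoint B K}, closure B := by
    ext p
    simp only [mem_sdiff, mem_iUnion, mem_ofPred_eq, exists_prop]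
    constructor
    · rintro ⟨hp, hpK⟩
      obtain ⟨B, hB, hpB⟩ := hcov hp
      refine ⟨B, ⟨hB, ?_⟩, subset_closure hpB⟩
      rw [disjoint_left]
      intro q hqB hqK
      apply hpK
      have e1 : connectedComponentIn A v = connectedComponentIn A q := connectedComponentIn_eq hqK
      rw [hK, e1]
      exact (hpre B hB).subset_connectedComponentIn hqB (hsub B hB) hpB
    · rintro ⟨B, ⟨hB, hd⟩, hp⟩
      have hcl : closure B ⊆ A := closure_minimal (hsub B hB) hA
      refine ⟨hcl hp, ?_⟩
      intro hpK
      have hBne : B.Nonempty := closure_nonempty_iff.1 ⟨p, hp⟩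
      obtain ⟨q, hq⟩ := hBne
      have e1 : connectedComponentIn A v = connectedComponentIn A p := connectedComponentIn_eq hpK
      have h5 : q ∈ K := by
        rw [hK, e1]
        exact (hpre B hB).closure.subset_connectedComponentIn hp hcl (subset_closure hq)
      exact disjoint_left.1 hd hq h5
  rw [key]
  exact (hF.mono (fun B hB => hB.1)).isClosed

end Run7.h605
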