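import Mathlib

/-!
# The number of branches in a tree-like separation structure
-/

set_option autoImplicit false

namespace Run7.h605

/-- `c i j` is the side of `i` on which `j` lies; total number of sides is less than twice the
number of elements -/
theorem tree {I β : Type*} [DecidableEq I] [DecidableEq β] (c : I → I → β) :
    ∀ (n : ℕ) (A : Finset I), A.card = n →
    (∀ i ∈ A, ∀ j ∈ A, ∀ k ∈ A, i ≠ j → i ≠ k → j ≠ k → c i k ≠ c i j → c j k = c j i) →
    A.Nonempty → ∑ i ∈ A, ((A.erase i).image (c i)).card + 2 ≤ 2 * A.card := by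
  intro n
  induction n with
  | zero =>
    intro A hA _ hne
    rw [Finset.card_eq_zero] at hA
    exact absurd hne (by rw [hA]; simp)
  | succ n ih =>
    intro A hAn hT hne
    by_cases h1 : A.card = 1
    · obtain ⟨a, rfl⟩ := Finset.card_eq_one.1 h1
      simp
    have h2 : 1 < A.card := by
      have := hne.card_pos
      omega
    obtain ⟨a, ha, b, hb, hab⟩ := Finset.one_lt_card.1 h2
    -- minimal class
    have hpn : ((A ×ˢ A).filter (fun p => p.1 ≠ p.2)).Nonempty :=
      ⟨(a, b), by simp [ha, hb, hab]⟩
    obtain ⟨⟨i, j⟩, hij, hmin⟩ := Finset.exists_min_image _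
      (fun p : I × I => ((A.erase p.1).filter (fun k => c p.1 k = c p.1 p.2)).card) hpn
    simp only [Finset.mem_filter, Finset.mem_product] at hij
    obtain ⟨⟨hiA, hjA⟩, hne'⟩ := hij
    have hleaf : ∀ k ∈ A, k ≠ j → c j k = c j i := by
      intro k hk hkj
      by_contra hcon
      have hki : k ≠ i := by
        rintro rfl
        exact hcon rfl
      have h3 := hmin (j, k) (by simp [hjA, hk, hkj.symm])
      have h4 : ((A.erase j).filter (fun m => c j m = c j k)).card
          < ((A.erase i).filter (fun m => c i m = c i j)).card := by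
        refine Finset.card_lt_card ⟨?_, ?_⟩
        · intro m hm
          simp only [Finset.mem_filter, Finset.mem_erase] at hm ⊢
          obtain ⟨⟨hmj, hmA⟩, hmc⟩ := hm
          have hmi : m ≠ i := by
            rintro rfl
            exact hcon hmc.symm
          refine ⟨⟨hmi, hmA⟩, ?_⟩
          refine hT j hjA i hiA m hmA hne'.symm hmj.symm hmi.symm ?_
          rw [hmc]
          exact hcon
        · intro hsub
          have h5 : j ∈ (A.erase i).filter (fun m => c i m = c i j) := by
            simp [hne'.symm, hjA]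
          have h6 := hsub h5
          simp at h6
      exact absurd h3 (not_le.2 h4)
    have hA'c : (A.erase j).card = n := by
      rw [Finset.card_erase_of_mem hjA, hAn]
      rfl
    have hA'n : (A.erase j).Nonempty := ⟨i, by simp [hne', hiA]⟩
    have IH := ih (A.erase j) hA'c
      (fun i hi j hj k hk => hT i (Finset.mem_of_mem_erase hi) j (Finset.mem_of_mem_erase hj)
        k (Finset.mem_of_mem_erase hk)) hA'n
    set A' := A.erase j with hA'
    -- degree of the leaf
    have hdj : ((A.erase j).image (c j)).card ≤ 1 := by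
      rw [Finset.card_le_one]
      intro x hx y hy
      simp only [Finset.mem_image, Finset.mem_erase] at hx hy
      obtain ⟨k, ⟨hk1, hk2⟩, rfl⟩ := hx
      obtain ⟨l, ⟨hl1, hl2⟩, rfl⟩ := hy
      rw [hleaf k hk2 hk1, hleaf l hl2 hl1]
    -- exceptional set
    set X := A'.filter (fun i => c i j ∉ (A'.erase i).image (c i)) with hX
    have hX1 : X.card ≤ 1 := by
      rw [Finset.card_le_one]
      intro x hx y hy
      by_contra hxy
      simp only [hX, Finset.mem_filter] at hx hy
      obtain ⟨hxA, hx2⟩ := hx
      obtain ⟨hyA, hy2⟩ := hy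
      have hxA1 : x ∈ A := Finset.mem_of_mem_erase hxA
      have hyA1 : y ∈ A := Finset.mem_of_mem_erase hyA
      have hxj : x ≠ j := Finset.ne_of_mem_erase hxA
      have hyj : y ≠ j := Finset.ne_of_mem_erase hyA
      have h7 : c x j ≠ c x y := by
        intro h
        apply hx2
        rw [h]
        exact Finset.mem_image_of_mem _ (Finset.mem_erase.2 ⟨Ne.symm hxy, hyA⟩)
      have h8 := hT x hxA1 y hyA1 j hjA hxy hxj hyj h7
      apply hy2
      rw [h8]
      exact Finset.mem_image_of_mem _ (Finset.mem_erase.2 ⟨hxy, hxA⟩)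
    have hdeg : ∀ i ∈ A', ((A.erase i).image (c i)).card
        ≤ ((A'.erase i).image (c i)).card + (if i ∈ X then 1 else 0) := by
      intro i hi
      have hij : i ≠ j := Finset.ne_of_mem_erase hi
      have h9 : A.erase i = insert j (A'.erase i) := by
        ext k
        simp only [hA', Finset.mem_erase, Finset.mem_insert]
        constructor
        · rintro ⟨hk1, hk2⟩
          by_cases hkj : k = j
          · exact Or.inl hkj
          · exact Or.inr ⟨hk1, hkj, hk2⟩
        · rintro (rfl | ⟨hk1, _, hk2⟩)
          · exact ⟨hij.symm, hjA⟩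
          · exact ⟨hk1, hk2⟩
      rw [h9, Finset.image_insert]
      by_cases hiX : i ∈ X
      · rw [if_pos hiX]
        exact Finset.card_insert_le _ _
      · rw [if_neg hiX]
        have h10 : c i j ∈ (A'.erase i).image (c i) := by
          by_contra h
          exact hiX (by simp only [hX, Finset.mem_filter]; exact ⟨hi, h⟩)
        rw [Finset.insert_eq_of_mem h10]
        simp
    have hsum : ∑ i ∈ A, ((A.erase i).image (c i)).card
        = ∑ i ∈ A', ((A.erase i).image (c i)).card + ((A.erase j).image (c j)).card := by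
      rw [hA', Finset.sum_erase_add _ _ hjA]
    have hs2 : ∑ i ∈ A', ((A.erase i).image (c i)).card
        ≤ ∑ i ∈ A', ((A'.erase i).image (c i)).card + X.card := by
      calc ∑ i ∈ A', ((A.erase i).image (c i)).card
          ≤ ∑ i ∈ A', (((A'.erase i).image (c i)).card + (if i ∈ X then 1 else 0)) :=
            Finset.sum_le_sum hdeg
        _ = ∑ i ∈ A', ((A'.erase i).image (c i)).card + X.card := by
            rw [Finset.sum_add_distrib]
            congr 1
            rw [Finset.sum_ite_mem, Finset.inter_eq_right.2 (Finset.filter_subset _ _),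
              Finset.sum_const, smul_eq_mul, mul_one]
    have hcard : A'.card + 1 = A.card := Finset.card_erase_add_one hjA
    omega

/-- few branching elements -/
theorem tree_count {I β : Type*} [DecidableEq I] [DecidableEq β] (c : I → I → β) (A B : Finset I)
    (hBA : B ⊆ A)
    (hT : ∀ i ∈ A, ∀ j ∈ A, ∀ k ∈ A, i ≠ j → i ≠ k → j ≠ k → c i k ≠ c i j → c j k = c j i)
    (hB : ∀ i ∈ A, i ∉ B → 3 ≤ ((A.erase i).image (c i)).card) :
    A.card ≤ 2 * B.card := by
  by_cases hne : A.Nonempty
  swap
  · rw [Finset.not_nonempty_iff_eq_empty] at hne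
    simp [hne]
  by_cases h1 : A.card = 1
  · obtain ⟨a, rfl⟩ := Finset.card_eq_one.1 h1
    by_contra hcon
    have h2 : B.card = 0 := by
      rw [h1] at hcon
      omega
    rw [Finset.card_eq_zero] at h2
    have h3 := hB a (by simp) (by simp [h2])
    simp at h3
  have h2 : 1 < A.card := by
    have := hne.card_pos
    omega
  have h3 := tree c _ A rfl hT hne
  have h4 : ∑ i ∈ A, (if i ∈ B then 1 else 3) ≤ ∑ i ∈ A, ((A.erase i).image (c i)).card := by
    refine Finset.sum_le_sum ?_
    intro i hi
    by_cases hiB : i ∈ B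
    · rw [if_pos hiB]
      obtain ⟨j, hj, hji⟩ := Finset.exists_mem_ne h2 i
      exact Finset.card_pos.2 ⟨c i j, Finset.mem_image_of_mem _ (Finset.mem_erase.2 ⟨hji, hj⟩)⟩
    · rw [if_neg hiB]
      exact hB i hi hiB
  have h5 : ∑ i ∈ A, (if i ∈ B then 1 else 3) + 2 * B.card = 3 * A.card := by
    have h6 : ∀ i ∈ A, (if i ∈ B then 1 else 3) + (if i ∈ B then 2 else 0) = 3 := by
      intro i _
      by_cases hiB : i ∈ B <;> simp [hiB]
    have h7 : ∑ i ∈ A, ((if i ∈ B then 1 else 3) + (if i ∈ B then 2 else 0)) = 3 * A.card := by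
      rw [Finset.sum_congr rfl h6]
      simp [mul_comm]
    rw [Finset.sum_add_distrib] at h7
    have h8 : ∑ i ∈ A, (if i ∈ B then 2 else 0) = 2 * B.card := by
      rw [Finset.sum_ite_mem, Finset.inter_eq_right.2 hBA]
      simp [mul_comm]
    omega
  omega

end Run7.h605
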