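import Mathlib
import Pool.Agent.Run7.h605.Topo
import Pool.Agent.Run7.h605.Tree
import Pool.Agent.Run7.h605.Pieces

/-!
# The number of triples with an uncrossed component
-/

set_option autoImplicit false

open Set Topology

namespace Run7.h605

/-- abstract data for the counting of uncrossed components -/
structure Clean (ι : Type) [DecidableEq ι] where
  f : ι → ℝ × ℝ → ℝ
  cont : ∀ i, Continuous (f i)
  R : Finset ι
  F : Finset (Finset ι)
  sub : ∀ P ∈ F, P ⊆ R
  card : ∀ P ∈ F, P.card = 3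
  v : Finset ι → ℝ × ℝ
  vT : ∀ P ∈ F, v P ∈ T f P
  clean : ∀ P ∈ F, cr f R P (connectedComponentIn (U f P) (v P)) = ∅
  iso : ∀ P ∈ F, IsClosed (U f P \ connectedComponentIn (U f P) (v P))

namespace Clean

variable {ι : Type} [DecidableEq ι] (A : Clean ι)

/-- the component -/
def K (P : Finset ι) : Set (ℝ × ℝ) := connectedComponentIn (U A.f P) (A.v P)

variable {A}

theorem vU {P : Finset ι} (hP : P ∈ A.F) : A.v P ∈ U A.f P :=
  T_sub_U (by rw [A.card P hP]; norm_num) (A.vT P hP)

theorem vK {P : Finset ι} (hP : P ∈ A.F) : A.v P ∈ A.K P := mem_connectedComponentIn (vU hP)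

theorem K_conn {P : Finset ι} (hP : P ∈ A.F) : IsConnected (A.K P) :=
  ⟨⟨_, vK hP⟩, isPreconnected_connectedComponentIn⟩

theorem K_sub {P : Finset ι} : A.K P ⊆ U A.f P := connectedComponentIn_subset _ _

theorem K_closed {P : Finset ι} (hP : P ∈ A.F) : IsClosed (A.K P) := by
  rw [← closure_subset_iff_isClosed]
  refine IsPreconnected.subset_connectedComponentIn (K_conn hP).isPreconnected.closure
    (subset_closure (vK hP)) ?_
  exact closure_minimal K_sub (U_closed A.cont P)

theorem K_lt {P : Finset ι} (hP : P ∈ A.F) {p : ℝ × ℝ} (hp : p ∈ A.K P) {d : ι} (hd : d ∈ A.R)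
    (hdP : d ∉ P) {x : ι} (hx : x ∈ P) : A.f x p < A.f d p := by
  by_contra hcon
  push Not at hcon
  have h1 : d ∈ cr A.f A.R P (connectedComponentIn (U A.f P) (A.v P)) :=
    mem_cr.2 ⟨hd, hdP, p, hp, x, hx, hcon⟩
  rw [A.clean P hP] at h1
  simp at h1

theorem exists_diff {P P' : Finset ι} (hP : P ∈ A.F) (hP' : P' ∈ A.F) (hne : P ≠ P') :
    ∃ d ∈ P', d ∉ P := by
  by_contra hcon
  push Not at hcon
  have h1 : P' ⊆ P := hcon
  exact hne (Finset.eq_of_subset_of_card_le h1 (by rw [A.card P hP, A.card P' hP'])).symm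

theorem K_disj {P P' : Finset ι} (hP : P ∈ A.F) (hP' : P' ∈ A.F) (hne : P ≠ P') {p : ℝ × ℝ}
    (hp : p ∈ A.K P) : p ∉ A.K P' := by
  intro hp'
  obtain ⟨d, hd, hdP⟩ := exists_diff hP hP' hne
  obtain ⟨d', hd', hdP'⟩ := exists_diff hP' hP hne.symm
  have h1 := K_lt hP hp (A.sub P' hP' hd) hdP hd'
  have h2 := K_lt hP' hp' (A.sub P hP hd') hdP' hd
  linarith

variable (A) in
/-- an open neighbourhood of the component -/
def V (P : Finset ι) : Set (ℝ × ℝ) :=
  {p | ∀ d ∈ A.R \ P, ∀ x ∈ P, A.f x p < A.f d p} ∩ (U A.f P \ A.K P)ᶜ ∩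
    {p | ∀ P' ∈ A.F.erase P, Metric.infDist p (A.K P) < Metric.infDist p (A.K P')}

theorem V_open {P : Finset ι} (hP : P ∈ A.F) : IsOpen (A.V P) := by
  have h1 : IsOpen {p | ∀ d ∈ A.R \ P, ∀ x ∈ P, A.f x p < A.f d p} := by
    have : {p | ∀ d ∈ A.R \ P, ∀ x ∈ P, A.f x p < A.f d p} =
        ⋂ d ∈ A.R \ P, ⋂ x ∈ P, {p | A.f x p < A.f d p} := by
      ext p
      simp only [mem_iInter, mem_ofPred_eq]
    rw [this]
    refine (Finset.finite_toSet _).isOpen_biInter (fun d _ => ?_)
    exact (Finset.finite_toSet _).isOpen_biInter (fun x _ => isOpen_lt (A.cont x) (A.cont d))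
  have h2 : IsOpen {p | ∀ P' ∈ A.F.erase P,
      Metric.infDist p (A.K P) < Metric.infDist p (A.K P')} := by
    have : {p | ∀ P' ∈ A.F.erase P,
        Metric.infDist p (A.K P) < Metric.infDist p (A.K P')} =
        ⋂ P' ∈ A.F.erase P, {p | Metric.infDist p (A.K P) < Metric.infDist p (A.K P')} := by
      ext p
      simp only [mem_iInter, mem_ofPred_eq]
    rw [this]
    exact (Finset.finite_toSet _).isOpen_biInter (fun P' _ =>
      isOpen_lt (Metric.continuous_infDist_pt _) (Metric.continuous_infDist_pt _))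
  exact (h1.inter (A.iso P hP).isOpen_compl).inter h2

theorem K_sub_V {P : Finset ι} (hP : P ∈ A.F) : A.K P ⊆ A.V P := by
  intro p hp
  refine ⟨⟨?_, ?_⟩, ?_⟩
  · intro d hd x hx
    rw [Finset.mem_sdiff] at hd
    exact K_lt hP hp hd.1 hd.2 hx
  · intro h
    exact h.2 hp
  · intro P' hP'
    rw [Finset.mem_erase] at hP'
    rw [Metric.infDist_zero_of_mem hp]
    exact ((K_closed hP'.2).notMem_iff_infDist_pos ⟨_, vK hP'.2⟩).1
      (K_disj hP hP'.2 hP'.1.symm hp)

theorem V_disj {P P' : Finset ι} (hP : P ∈ A.F) (hP' : P' ∈ A.F) (hne : P ≠ P') :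
    Disjoint (A.V P) (A.V P') := by
  rw [disjoint_left]
  rintro p ⟨-, h1⟩ ⟨-, h2⟩
  have h3 := h1 P' (Finset.mem_erase.2 ⟨hne.symm, hP'⟩)
  have h4 := h2 P (Finset.mem_erase.2 ⟨hne, hP⟩)
  linarith

theorem exists_N {P : Finset ι} (hP : P ∈ A.F) :
    ∃ N : Set (ℝ × ℝ), IsClosed N ∧ IsConnected N ∧ A.K P ⊆ interior N ∧ N ⊆ A.V P :=
  thick (K_closed hP) (K_conn hP) (V_open hP) (K_sub_V hP)

variable (A) in
open Classical in
/-- a closed connected neighbourhood -/
noncomputable def N (P : Finset ι) : Set (ℝ × ℝ) :=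
  if h : P ∈ A.F then (exists_N h).choose else ∅

theorem N_spec {P : Finset ι} (hP : P ∈ A.F) :
    IsClosed (A.N P) ∧ IsConnected (A.N P) ∧ A.K P ⊆ interior (A.N P) ∧ A.N P ⊆ A.V P := by
  have : A.N P = (exists_N hP).choose := dif_pos hP
  rw [this]
  exact (exists_N hP).choose_spec

theorem N_disj {P P' : Finset ι} (hP : P ∈ A.F) (hP' : P' ∈ A.F) (hne : P ≠ P') :
    Disjoint (A.N P) (A.N P') :=
  (V_disj hP hP' hne).mono (N_spec hP).2.2.2 (N_spec hP').2.2.2

theorem v_mem_N {P : Finset ι} (hP : P ∈ A.F) : A.v P ∈ A.N P :=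
  interior_subset ((N_spec hP).2.2.1 (vK hP))

theorem v_notMem_N {P P' : Finset ι} (hP : P ∈ A.F) (hP' : P' ∈ A.F) (hne : P ≠ P') :
    A.v P' ∉ A.N P := by
  intro h
  exact disjoint_left.1 (N_disj hP hP' hne) h (v_mem_N hP')

variable (A) in
/-- the side of `P` on which `P'` lies -/
def side (P P' : Finset ι) : Set (ℝ × ℝ) := connectedComponentIn (A.N P)ᶜ (A.v P')

theorem v_mem_side {P P' : Finset ι} (hP : P ∈ A.F) (hP' : P' ∈ A.F) (hne : P ≠ P') :
    A.v P' ∈ A.side P P' := mem_connectedComponentIn (v_notMem_N hP hP' hne)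

theorem N_sub_side {P P' : Finset ι} (hP : P ∈ A.F) (hP' : P' ∈ A.F) (hne : P ≠ P') :
    A.N P' ⊆ A.side P P' := by
  refine (N_spec hP').2.1.isPreconnected.subset_connectedComponentIn (v_mem_N hP') ?_
  intro p hp hp'
  exact disjoint_left.1 (N_disj hP hP' hne) hp' hp

theorem side_tree {P P' P'' : Finset ι} (hP : P ∈ A.F) (hP' : P' ∈ A.F) (hP'' : P'' ∈ A.F)
    (h1 : P ≠ P') (h2 : P ≠ P'') (_h3 : P' ≠ P'') (h : A.side P P'' ≠ A.side P P') :
    A.side P' P'' = A.side P' P := by
  have hdisj : Disjoint (A.side P P'') (A.side P P') := by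
    rw [disjoint_left]
    intro p hp hp'
    exact h ((connectedComponentIn_eq hp).trans (connectedComponentIn_eq hp').symm)
  obtain ⟨hNcl, hNc, hKN, hNV⟩ := N_spec hP
  -- the union of the side and `N P` is preconnected
  obtain ⟨q, hq⟩ := Pool.Agent.N491.HP.frontier_comp_nonempty (O := (A.N P)ᶜ) (b := A.v P'')
    (v_notMem_N hP hP'' h2) ⟨A.v P, by simpa using v_mem_N hP⟩
  have hqN : q ∈ A.N P := (front hNcl hNc _).2.1 hq
  have hpre : IsPreconnected (A.side P P'' ∪ {q} ∪ A.N P) := by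
    refine IsPreconnected.union q (Or.inr rfl) hqN ?_ hNc.isPreconnected
    exact Pool.Agent.N491.HP.comp_union_frontier (by rintro x rfl; exact hq)
  have hsub : A.side P P'' ∪ {q} ∪ A.N P ⊆ (A.N P')ᶜ := by
    rintro p ((hp | hp) | hp) hp'
    · exact disjoint_left.1 hdisj hp (N_sub_side hP hP' h1 hp')
    · rw [mem_singleton_iff] at hp
      subst hp
      exact disjoint_left.1 (N_disj hP hP' h1) hqN hp'
    · exact disjoint_left.1 (N_disj hP hP' h1) hp hp'
  have h4 : A.v P ∈ A.side P P'' ∪ {q} ∪ A.N P := Or.inr (v_mem_N hP)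
  have h5 : A.v P'' ∈ A.side P P'' ∪ {q} ∪ A.N P := Or.inl (Or.inl (v_mem_side hP hP'' h2))
  have h6 := hpre.subset_connectedComponentIn h5 hsub h4
  exact connectedComponentIn_eq h6

/-- the dominating function on the frontier of a side -/
theorem exists_typ {P P' : Finset ι} (hP : P ∈ A.F) :
    ∃ b ∈ P, ∀ p ∈ frontier (A.side P P'), ∀ x ∈ P, x ≠ b → A.f x p < A.f b p := by
  obtain ⟨hNcl, hNc, hKN, hNV⟩ := N_spec hP
  obtain ⟨h1, h2, h3⟩ := front hNcl hNc (A.v P')
  have hPne : P.Nonempty := by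
    rw [← Finset.card_pos, A.card P hP]
    norm_num
  refine strict_max A.cont hPne h1 ?_
  rw [disjoint_left]
  intro p hp hpU
  have h4 := hNV (h2 hp)
  have h5 : p ∉ A.K P := fun hK => disjoint_left.1 h3 hp (hKN hK)
  exact h4.1.2 ⟨hpU, h5⟩

variable (A) in
open Classical in
/-- the dominating function as a function of the side -/
noncomputable def typ (P : Finset ι) (C : Set (ℝ × ℝ)) : Option ι :=
  if h : ∃ b ∈ P, ∀ p ∈ frontier C, ∀ x ∈ P, x ≠ b → A.f x p < A.f b p then some h.choose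
  else none

theorem typ_spec {P P' : Finset ι} (hP : P ∈ A.F) :
    ∃ b ∈ P, A.typ P (A.side P P') = some b ∧
      ∀ p ∈ frontier (A.side P P'), ∀ x ∈ P, x ≠ b → A.f x p < A.f b p := by
  have h := exists_typ (P' := P') hP
  refine ⟨h.choose, h.choose_spec.1, dif_pos h, h.choose_spec.2⟩

/-- two triples that share a pair, and whose vertices lie in the same component of its curve -/
theorem typ_notMem {P P' e : Finset ι} (hP : P ∈ A.F) (hP' : P' ∈ A.F) (hne : P ≠ P')
    (heP : e ⊆ P) (he : e.card = 2)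
    (hc : connectedComponentIn (T A.f e) (A.v P) = connectedComponentIn (T A.f e) (A.v P'))
    (hvT : A.v P' ∈ T A.f e)
    {b : ι} (hb : A.typ P (A.side P P') = some b) : b ∉ e := by
  intro hbe
  obtain ⟨b', hb', hb1, hb2⟩ := typ_spec (P' := P') hP
  rw [hb] at hb1
  have : b = b' := by simpa using hb1
  subst this
  have hvTP : A.v P ∈ T A.f e := fun x hx y hy => A.vT P hP x (heP hx) y (heP hy)
  have hpre : IsPreconnected (connectedComponentIn (T A.f e) (A.v P)) :=
    isPreconnected_connectedComponentIn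
  obtain ⟨p, hp1, hp2⟩ := Pool.Agent.N491.HP.meets_frontier (F := A.side P P') hpre
    ⟨A.v P', by rw [hc]; exact mem_connectedComponentIn hvT, v_mem_side hP hP' hne⟩
    ⟨A.v P, mem_connectedComponentIn hvTP, fun h =>
      connectedComponentIn_subset _ _ h (v_mem_N hP)⟩
  have hpT : p ∈ T A.f e := connectedComponentIn_subset _ _ hp1
  obtain ⟨a, ha, hab⟩ := Finset.exists_mem_ne (by omega : 1 < e.card) b
  have h1 := hb2 p hp2 a (heP ha) hab
  have h2 := hpT a ha b hbe
  linarith

open Classical in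
/-- the number of triples with an uncrossed component -/
theorem count (A : Clean ι) (t : ℕ)
    (hcomp : ∀ e : Finset ι, e.card = 2 →
      {C : Set (ℝ × ℝ) | ∃ p ∈ T A.f e, C = connectedComponentIn (T A.f e) p}.encard ≤ t) :
    A.F.card ≤ 2 * (t * (A.R.powersetCard 2).card) := by
  set B := A.F.filter (fun P => ∃ b ∈ P, ∀ P' ∈ A.F, P' ≠ P →
    A.typ P (A.side P P') ≠ some b) with hB
  have hTree : A.F.card ≤ 2 * B.card := by
    refine tree_count A.side A.F B (Finset.filter_subset _ _) ?_ ?_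
    · intro i hi j hj k hk h1 h2 h3 h
      exact side_tree hi hj hk h1 h2 h3 h
    · intro P hP hPB
      have h1 : ∀ b ∈ P, ∃ P' ∈ A.F, P' ≠ P ∧ A.typ P (A.side P P') = some b := by
        intro b hb
        by_contra hcon
        push Not at hcon
        exact hPB (Finset.mem_filter.2 ⟨hP, b, hb, hcon⟩)
      have h2 : P.image some ⊆ ((A.F.erase P).image (A.side P)).image (A.typ P) := by
        intro o ho
        rw [Finset.mem_image] at ho
        obtain ⟨b, hb, rfl⟩ := ho
        obtain ⟨P', hP', hne, htyp⟩ := h1 b hb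
        rw [Finset.mem_image]
        exact ⟨A.side P P', Finset.mem_image_of_mem _ (Finset.mem_erase.2 ⟨hne, hP'⟩), htyp⟩
      calc 3 = (P.image some).card := by
            rw [Finset.card_image_of_injective _ (Option.some_injective ι), A.card P hP]
        _ ≤ _ := Finset.card_le_card h2
        _ ≤ _ := Finset.card_image_le
  -- counting `B`
  have hBex : ∀ P ∈ B, ∃ b ∈ P, ∀ P' ∈ A.F, P' ≠ P → A.typ P (A.side P P') ≠ some b := by
    intro P hP
    exact (Finset.mem_filter.1 hP).2
  let bb : Finset ι → Finset ι := fun P =>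
    if h : P ∈ B then P.erase (hBex P h).choose else ∅
  have hbb : ∀ P ∈ B, ∃ b ∈ P, bb P = P.erase b ∧
      ∀ P' ∈ A.F, P' ≠ P → A.typ P (A.side P P') ≠ some b := by
    intro P hP
    have : bb P = P.erase (hBex P hP).choose := dif_pos hP
    exact ⟨(hBex P hP).choose, (hBex P hP).choose_spec.1, this, (hBex P hP).choose_spec.2⟩
  have hBF : B ⊆ A.F := Finset.filter_subset _ _
  have hmaps : ∀ P ∈ B, bb P ∈ A.R.powersetCard 2 := by
    intro P hP
    obtain ⟨b, hb, he, -⟩ := hbb P hP
    rw [he, Finset.mem_powersetCard, Finset.card_erase_of_mem hb, A.card P (hBF hP)]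
    exact ⟨(Finset.erase_subset _ _).trans (A.sub P (hBF hP)), rfl⟩
  have hfib : ∀ e ∈ A.R.powersetCard 2, (B.filter (fun P => bb P = e)).card ≤ t := by
    intro e he
    have he2 : e.card = 2 := (Finset.mem_powersetCard.1 he).2
    have hsubP : ∀ P ∈ B.filter (fun P => bb P = e), e ⊆ P := by
      intro P hP
      rw [Finset.mem_filter] at hP
      obtain ⟨b, hb, heq, -⟩ := hbb P hP.1
      rw [← hP.2, heq]
      exact Finset.erase_subset _ _
    have hvT : ∀ P ∈ B.filter (fun P => bb P = e), A.v P ∈ T A.f e := by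
      intro P hP x hx y hy
      have hPF : P ∈ A.F := hBF (Finset.mem_filter.1 hP).1
      exact A.vT P hPF x (hsubP P hP hx) y (hsubP P hP hy)
    have hmaps' : MapsTo (fun P => connectedComponentIn (T A.f e) (A.v P))
        ((B.filter (fun P => bb P = e) : Finset (Finset ι)) : Set (Finset ι))
        {C : Set (ℝ × ℝ) | ∃ p ∈ T A.f e, C = connectedComponentIn (T A.f e) p} := by
      intro P hP
      exact ⟨A.v P, hvT P hP, rfl⟩
    have hinj : InjOn (fun P => connectedComponentIn (T A.f e) (A.v P))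
        ((B.filter (fun P => bb P = e) : Finset (Finset ι)) : Set (Finset ι)) := by
      intro P hP P' hP' heq
      by_contra hne
      have hP1 : P ∈ B.filter (fun P => bb P = e) := hP
      have hP1' : P' ∈ B.filter (fun P => bb P = e) := hP'
      have hPF : P ∈ A.F := hBF (Finset.mem_filter.1 hP1).1
      have hPF' : P' ∈ A.F := hBF (Finset.mem_filter.1 hP1').1
      obtain ⟨b, hb, hbe, hb2⟩ := hbb P (Finset.mem_filter.1 hP1).1
      obtain ⟨b', hb', htyp, -⟩ := typ_spec (P' := P') hPF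
      have h3 : b' ∉ e := typ_notMem hPF hPF' hne (hsubP P hP1) he2 heq (hvT P' hP1') htyp
      have h4 : b' = b := by
        by_contra h5
        apply h3
        rw [← (Finset.mem_filter.1 hP1).2, hbe]
        exact Finset.mem_erase.2 ⟨h5, hb'⟩
      rw [h4] at htyp
      exact hb2 P' hPF' (Ne.symm hne) htyp
    have h6 := (Set.encard_le_encard_of_injOn hmaps' hinj).trans (hcomp e he2)
    rw [Set.encard_coe_eq_coe_finsetCard] at h6
    exact_mod_cast h6
  have h7 := Finset.card_le_mul_card_image_of_maps_to hmaps t hfib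
  omega

end Clean

namespace Setup

variable {ι : Type} [DecidableEq ι] {s t : ℕ} {M : Setup ι s t}

theorem iso_comp {P : Finset ι} (hP : P.card = 3) (v : ℝ × ℝ) :
    IsClosed (U M.f P \ connectedComponentIn (U M.f P) v) := by
  refine diff_comp_closed (F := M.Pieces P ∪ (fun p => {p}) '' (M.Nodes P ∩ U M.f P))
    (U_closed M.cont P) ?_ ?_ ?_ ?_ v
  · exact (pieces_cp P).union
      (CP.of_finite (((nodes_finite hP).subset inter_subset_left).image _))
  · rintro B (hB | ⟨p, -, rfl⟩)
    · exact piece_preconnected hB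
    · exact isPreconnected_singleton
  · rintro B (hB | ⟨p, hp, rfl⟩)
    · exact piece_sub_U hB
    · exact singleton_subset_iff.2 hp.2
  · intro p hp
    rcases U_cover hP hp with h | ⟨B, hB, hpB⟩
    · exact ⟨{p}, Or.inr ⟨p, ⟨h, hp⟩, rfl⟩, rfl⟩
    · exact ⟨B, Or.inl hB, hpB⟩

open Classical in
/-- the triples with an uncrossed component through a common point -/
noncomputable def LowF (M : Setup ι s t) (R : Finset ι) (b : ℕ) : Finset (Finset ι) :=
  (R.powersetCard 3).filter (fun P => ∃ v ∈ T M.f P,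
    (cr M.f R P (connectedComponentIn (U M.f P) v)).card ≤ b)

theorem low_zero (R : Finset ι) : (LowF M R 0).card ≤ t * R.card ^ 2 := by
  classical
  by_cases hne : (LowF M R 0).Nonempty
  swap
  · rw [Finset.not_nonempty_iff_eq_empty] at hne
    rw [hne]
    simp
  have hv : ∀ P ∈ LowF M R 0, ∃ v : ℝ × ℝ, v ∈ T M.f P ∧
      cr M.f R P (connectedComponentIn (U M.f P) v) = ∅ := by
    intro P hP
    unfold LowF at hP
    rw [Finset.mem_filter] at hP
    obtain ⟨-, v, hv, hc⟩ := hP
    exact ⟨v, hv, Finset.card_eq_zero.1 (Nat.le_zero.1 hc)⟩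
  choose! v hv1 hv2 using hv
  have hmem : ∀ P ∈ LowF M R 0, P ⊆ R ∧ P.card = 3 := by
    intro P hP
    unfold LowF at hP
    rw [Finset.mem_filter, Finset.mem_powersetCard] at hP
    exact hP.1
  let A : Clean ι :=
    { f := M.f
      cont := M.cont
      R := R
      F := LowF M R 0
      sub := fun P hP => (hmem P hP).1
      card := fun P hP => (hmem P hP).2
      v := v
      vT := hv1
      clean := hv2
      iso := fun P hP => iso_comp (hmem P hP).2 _ }
  have h1 := Clean.count A t M.comps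
  have h2 : (R.powersetCard 2).card * 2 ≤ R.card ^ 2 := by
    rw [Finset.card_powersetCard, Nat.choose_two_right]
    have := Nat.div_mul_le_self (R.card * (R.card - 1)) 2
    calc _ ≤ R.card * (R.card - 1) := this
      _ ≤ R.card * R.card := Nat.mul_le_mul_left _ (Nat.sub_le _ _)
      _ = _ := by ring
  calc (LowF M R 0).card ≤ 2 * (t * (R.powersetCard 2).card) := h1
    _ = t * ((R.powersetCard 2).card * 2) := by ring
    _ ≤ t * R.card ^ 2 := Nat.mul_le_mul_left _ h2

end Setup

end Run7.h605
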