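import Mathlib
import Pool.Agent.Run7.h605.CS
import Pool.Agent.Run7.h605.Dicho
import Pool.Agent.Run7.h605.Charge2
import Pool.Agent.Run7.h605.GBound

/-!
# The combinatorial recursion
-/

set_option autoImplicit false

open Set Topology

namespace Run7.h605

namespace Setup

variable {ι : Type} [DecidableEq ι] {s t : ℕ} {M : Setup ι s t}

theorem T_ncard {Q : Finset ι} (hQ : Q.card = 3) : (T M.f Q).ncard ≤ s := by
  have h1 := M.triple Q hQ
  rw [← (T_finite (M := M) hQ).cast_ncard_eq] at h1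
  exact_mod_cast h1

/-- counting pairs (triple, point) by triples -/
theorem pairs_count (X : Set (Finset ι × (ℝ × ℝ))) (F : Finset (Finset ι))
    (hF : ∀ P ∈ F, P.card = 3) (hX : ∀ q ∈ X, q.1 ∈ F ∧ q.2 ∈ T M.f q.1) :
    X.ncard ≤ s * F.card := by
  classical
  have hsub : X ⊆ ((F.biUnion (fun P => if h : P.card = 3 then
      (T_finite (M := M) h).toFinset.image (fun p => (P, p)) else ∅) :
      Finset (Finset ι × (ℝ × ℝ))) : Set (Finset ι × (ℝ × ℝ))) := by
    rintro ⟨P, p⟩ hq
    obtain ⟨h1, h2⟩ := hX _ hq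
    rw [Finset.mem_coe, Finset.mem_biUnion]
    refine ⟨P, h1, ?_⟩
    rw [dif_pos (hF P h1), Finset.mem_image]
    exact ⟨p, (Set.Finite.mem_toFinset _).2 h2, rfl⟩
  have h1 := Set.ncard_le_ncard hsub (Finset.finite_toSet _)
  rw [Set.ncard_coe_finset] at h1
  calc X.ncard ≤ _ := h1
    _ ≤ ∑ P ∈ F, _ := Finset.card_biUnion_le
    _ ≤ ∑ P ∈ F, s := by
      refine Finset.sum_le_sum ?_
      intro P hP
      rw [dif_pos (hF P hP)]
      refine Finset.card_image_le.trans ?_
      rw [← Set.ncard_eq_toFinset_card _ (T_finite (M := M) (hF P hP))]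
      exact T_ncard (hF P hP)
    _ = s * F.card := by rw [Finset.sum_const, smul_eq_mul, mul_comm]

theorem NN_trivial (R : Finset ι) (k : ℕ) : NN M R k ≤ s * R.card ^ 3 := by
  have h1 : NN M R k ≤ s * (R.powersetCard 3).card := by
    refine pairs_count (M := M) _ _ (fun P hP => (Finset.mem_powersetCard.1 hP).2) ?_
    rintro ⟨P, p⟩ ⟨h1, h2, h3, -⟩
    exact ⟨Finset.mem_powersetCard.2 ⟨h1, h2⟩, h3⟩
  refine h1.trans (Nat.mul_le_mul_left _ ?_)
  rw [Finset.card_powersetCard]
  exact Nat.choose_le_pow R.card 3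

/-- the recursion for the number of visible vertices -/
theorem comb_rec (R : Finset ι) (k : ℕ → ℕ) (hk : Monotone k) :
    NN M R 0 ≤ s * (∑ j ∈ Finset.range (s + 3 * t), (LongF M R (k j) (k (j + 1))).card +
      (LowF M R ((s + 3 * t) * (2 * k (s + 3 * t)))).card) := by
  classical
  set F := (Finset.range (s + 3 * t)).biUnion (fun j => LongF M R (k j) (k (j + 1))) ∪
    LowF M R ((s + 3 * t) * (2 * k (s + 3 * t))) with hF
  have hF3 : ∀ P ∈ F, P.card = 3 := by
    intro P hP
    rw [hF, Finset.mem_union, Finset.mem_biUnion] at hP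
    rcases hP with ⟨j, -, hP⟩ | hP
    · unfold LongF at hP
      rw [Finset.mem_filter, Finset.mem_powersetCard] at hP
      exact hP.1.2
    · unfold LowF at hP
      rw [Finset.mem_filter, Finset.mem_powersetCard] at hP
      exact hP.1.2
  have h1 : NN M R 0 ≤ s * F.card := by
    refine pairs_count (M := M) _ _ hF3 ?_
    rintro ⟨P, p⟩ ⟨h1, h2, h3, h4⟩
    refine ⟨?_, h3⟩
    have h1' : P ⊆ R := h1
    have h2' : P.card = 3 := h2
    have h3' : p ∈ T M.f P := h3
    have h4' : (cr M.f R P {p}).card ≤ 0 := h4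
    have hPm : P ∈ R.powersetCard 3 := Finset.mem_powersetCard.2 ⟨h1', h2'⟩
    show P ∈ F
    rw [hF, Finset.mem_union, Finset.mem_biUnion]
    by_cases hlong : ∃ j < s + 3 * t, Long M R (k j) (k (j + 1)) P
    · obtain ⟨j, hj, hL⟩ := hlong
      left
      refine ⟨j, Finset.mem_range.2 hj, ?_⟩
      unfold LongF
      rw [Finset.mem_filter]
      exact ⟨hPm, hL⟩
    · right
      push Not at hlong
      unfold LowF
      rw [Finset.mem_filter]
      exact ⟨hPm, p, h3', dicho h2' R hk h3' (h4'.trans (Nat.zero_le _)) hlong⟩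
  refine h1.trans (Nat.mul_le_mul_left _ ?_)
  calc F.card ≤ _ := Finset.card_union_le _ _
    _ ≤ _ := Nat.add_le_add_right Finset.card_biUnion_le _

/-- sampling bound for vertices of low level -/
theorem NN_sample (R : Finset ι) (k B : ℕ) (hk : 1 ≤ k) (hn : 6 * k ≤ R.card)
    (hB : ∀ R' ⊆ R, R'.card = R.card / (2 * k) → NN M R' 0 ≤ B) :
    NN M R k ≤ 171 * k ^ 3 * B := by
  classical
  have hfin := NF_finite (M := M) R k
  unfold NN
  rw [Set.ncard_eq_toFinset_card _ hfin]
  refine cs R hfin.toFinset (fun q => q.1) (fun q => cr M.f R q.1 {q.2}) k B hk hn ?_ ?_ ?_ ?_ ?_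
  · intro q hq
    rw [Set.Finite.mem_toFinset] at hq
    exact hq.1
  · intro q hq
    rw [Set.Finite.mem_toFinset] at hq
    exact hq.2.1
  · intro q _
    exact cr_sub_sdiff
  · intro q hq
    rw [Set.Finite.mem_toFinset] at hq
    exact hq.2.2.2
  · intro R' hR'
    rw [Finset.mem_powersetCard] at hR'
    refine le_trans ?_ (hB R' hR'.1 hR'.2)
    unfold NN
    rw [Set.ncard_eq_toFinset_card _ (NF_finite (M := M) R' 0)]
    refine Finset.card_le_card ?_
    intro q hq
    rw [Finset.mem_filter, Set.Finite.mem_toFinset] at hq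
    rw [Set.Finite.mem_toFinset]
    obtain ⟨⟨h1, h2, h3, h4⟩, h5, h6⟩ := hq
    refine ⟨h5, h2, h3, ?_⟩
    rw [Nat.le_zero, Finset.card_eq_zero, Finset.eq_empty_iff_forall_notMem]
    intro d hd
    rw [mem_cr] at hd
    obtain ⟨g1, g2, g3⟩ := hd
    exact Finset.disjoint_left.1 h6 (mem_cr.2 ⟨hR'.1 g1, g2, g3⟩) g1

/-- sampling bound for the triples with a component of low level -/
theorem Low_sample (R : Finset ι) (b : ℕ) (hb : 1 ≤ b) (hn : 6 * b ≤ R.card) :
    (LowF M R b).card ≤ 171 * b ^ 3 * (t * (R.card / (2 * b)) ^ 2) := by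
  classical
  have hv : ∀ P ∈ LowF M R b, ∃ v : ℝ × ℝ, v ∈ T M.f P ∧
      (cr M.f R P (connectedComponentIn (U M.f P) v)).card ≤ b := by
    intro P hP
    unfold LowF at hP
    rw [Finset.mem_filter] at hP
    obtain ⟨-, v, hv, hc⟩ := hP
    exact ⟨v, hv, hc⟩
  choose! v hv1 hv2 using hv
  have hmem : ∀ P ∈ LowF M R b, P ⊆ R ∧ P.card = 3 := by
    intro P hP
    unfold LowF at hP
    rw [Finset.mem_filter, Finset.mem_powersetCard] at hP
    exact hP.1
  refine cs R (LowF M R b) (fun P => P)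
    (fun P => cr M.f R P (connectedComponentIn (U M.f P) (v P))) b _ hb hn ?_ ?_ ?_ ?_ ?_
  · intro P hP
    exact (hmem P hP).1
  · intro P hP
    exact (hmem P hP).2
  · intro P _
    exact cr_sub_sdiff
  · intro P hP
    exact hv2 P hP
  · intro R' hR'
    rw [Finset.mem_powersetCard] at hR'
    have h1 := low_zero (M := M) R'
    rw [hR'.2] at h1
    refine le_trans (Finset.card_le_card ?_) h1
    intro P hP
    rw [Finset.mem_filter] at hP
    obtain ⟨h2, h3, h4⟩ := hP
    unfold LowF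
    rw [Finset.mem_filter, Finset.mem_powersetCard]
    refine ⟨⟨h3, (hmem P h2).2⟩, v P, hv1 P h2, ?_⟩
    rw [Nat.le_zero, Finset.card_eq_zero, Finset.eq_empty_iff_forall_notMem]
    intro d hd
    rw [mem_cr] at hd
    obtain ⟨g1, g2, g3⟩ := hd
    exact Finset.disjoint_left.1 h4 (mem_cr.2 ⟨hR'.1 g1, g2, g3⟩) g1

end Setup

end Run7.h605
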