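import Mathlib
import Pool.Agent.Run7.h605.Stmt
import Pool.Agent.Run7.h605.Comp
import Pool.Agent.Run7.h605.Rec1

/-!
# The complexity in terms of the number of visible vertices
-/

set_option autoImplicit false

open Set Topology

namespace Run7.h605

namespace Setup

variable {n s t : ℕ} {M : Setup (Fin n) s t}

theorem att_closed (i : Fin n) : IsClosed (att M.f i) := by
  have : att M.f i = ⋂ k, {p | M.f i p ≤ M.f k p} := by
    ext p
    simp only [att, mem_iInter, mem_ofPred_eq]
  rw [this]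
  exact isClosed_iInter (fun k => isClosed_le (M.cont i) (M.cont k))

/-- number of visible vertices -/
noncomputable abbrev VV (M : Setup (Fin n) s t) : ℕ := NN M Finset.univ 0

theorem vis_NF {i j k : Fin n} (hij : i ≠ j) (hik : i ≠ k) (hjk : j ≠ k) {p : ℝ × ℝ}
    (hi : p ∈ att M.f i) (hj : p ∈ att M.f j) (hk : p ∈ att M.f k) :
    (({i, j, k} : Finset (Fin n)), p) ∈ NF M Finset.univ 0 := by
  have h1 : M.f i p = M.f j p := le_antisymm (hi j) (hj i)
  have h2 : M.f k p = M.f i p := le_antisymm (hk i) (hi k)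
  refine ⟨Finset.subset_univ _, Finset.card_eq_three.2 ⟨i, j, k, hij, hik, hjk, rfl⟩,
    mem_T_of h1 h2, ?_⟩
  rw [Nat.le_zero, Finset.card_eq_zero, Finset.eq_empty_iff_forall_notMem]
  intro d hd
  rw [mem_cr] at hd
  obtain ⟨-, hd2, q, hq, x, hx, hle⟩ := hd
  rw [mem_singleton_iff] at hq
  subst hq
  have hx' : M.f x q = M.f i q := by
    have := mem_T_of (M := M) h1 h2
    exact this x hx i (by simp)
  simp only [Finset.mem_insert, Finset.mem_singleton, not_or] at hd2
  have h3 : M.f i q = M.f d q := le_antisymm (hi d) (by linarith)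
  exact M.quad i j k d hij hik (Ne.symm hd2.1) hjk (Ne.symm hd2.2.1) (Ne.symm hd2.2.2) q h1
    h2.symm h3

theorem verts_card : (verts M.f).encard ≤ VV M := by
  have hfin := NF_finite (M := M) Finset.univ 0
  have h1 : verts M.f ⊆ Prod.snd '' (NF M Finset.univ 0) := by
    rintro p ⟨i, j, k, hij, hjk, ⟨hi, hj⟩, hk⟩
    exact ⟨_, vis_NF hij.ne (hij.trans hjk).ne hjk.ne hi hj hk, rfl⟩
  calc (verts M.f).encard ≤ _ := Set.encard_le_encard h1
    _ ≤ _ := Set.encard_image_le _ _
    _ = _ := by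
      rw [← hfin.cast_ncard_eq]
      rfl

/-- visible vertices on the curve of `i` and `j` -/
def Vis (M : Setup (Fin n) s t) (q : Fin n × Fin n) : Set (ℝ × ℝ) :=
  {p | ∃ k, k ≠ q.1 ∧ k ≠ q.2 ∧ p ∈ att M.f q.1 ∧ p ∈ att M.f q.2 ∧ p ∈ att M.f k}

theorem Vis_sub {q : Fin n × Fin n} (hq : q.1 ≠ q.2) : Vis M q ⊆
    Prod.snd '' {ω | ω ∈ NF M Finset.univ 0 ∧ q.1 ∈ ω.1 ∧ q.2 ∈ ω.1} := by
  rintro p ⟨k, hk1, hk2, hi, hj, hk⟩
  exact ⟨_, ⟨vis_NF hq hk1.symm hk2.symm hi hj hk, by simp, by simp⟩, rfl⟩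

theorem Vis_finite {q : Fin n × Fin n} (hq : q.1 ≠ q.2) : (Vis M q).Finite :=
  (((NF_finite (M := M) Finset.univ 0).subset (fun _ h => h.1)).image _).subset (Vis_sub hq)

open Classical in
theorem Vis_sum : ∑ q ∈ (Finset.univ : Finset (Fin n × Fin n)).filter (fun q => q.1 ≠ q.2),
    (Vis M q).ncard ≤ 9 * VV M := by
  have hfin := NF_finite (M := M) Finset.univ 0
  set F := hfin.toFinset with hF
  have h1 : ∀ q ∈ (Finset.univ : Finset (Fin n × Fin n)).filter (fun q => q.1 ≠ q.2),
      (Vis M q).ncard ≤ (F.filter (fun ω => q.1 ∈ ω.1 ∧ q.2 ∈ ω.1)).card := by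
    intro q hq
    have hq' : q.1 ≠ q.2 := (Finset.mem_filter.1 hq).2
    have h2 : Vis M q ⊆ (((F.filter (fun ω => q.1 ∈ ω.1 ∧ q.2 ∈ ω.1)).image Prod.snd :
        Finset (ℝ × ℝ)) : Set (ℝ × ℝ)) := by
      intro p hp
      obtain ⟨ω, ⟨hω, h3⟩, rfl⟩ := Vis_sub hq' hp
      rw [Finset.mem_coe, Finset.mem_image]
      exact ⟨ω, Finset.mem_filter.2 ⟨(Set.Finite.mem_toFinset _).2 hω, h3⟩, rfl⟩
    have h4 := Set.ncard_le_ncard h2 (Finset.finite_toSet _)
    rw [Set.ncard_coe_finset] at h4
    exact h4.trans Finset.card_image_le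
  calc _ ≤ ∑ q ∈ (Finset.univ : Finset (Fin n × Fin n)).filter (fun q => q.1 ≠ q.2),
        (F.filter (fun ω => q.1 ∈ ω.1 ∧ q.2 ∈ ω.1)).card := Finset.sum_le_sum h1
    _ ≤ ∑ q : Fin n × Fin n, (F.filter (fun ω => q.1 ∈ ω.1 ∧ q.2 ∈ ω.1)).card :=
        Finset.sum_le_sum_of_subset (Finset.filter_subset _ _)
    _ = ∑ ω ∈ F, ((Finset.univ : Finset (Fin n × Fin n)).filter
          (fun q => q.1 ∈ ω.1 ∧ q.2 ∈ ω.1)).card :=
        Finset.sum_card_bipartiteAbove_eq_sum_card_bipartiteBelow
          (fun (q : Fin n × Fin n) (ω : Finset (Fin n) × (ℝ × ℝ)) => q.1 ∈ ω.1 ∧ q.2 ∈ ω.1)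
    _ = ∑ ω ∈ F, 9 := by
        refine Finset.sum_congr rfl ?_
        intro ω hω
        have h5 : ω.1.card = 3 := ((Set.Finite.mem_toFinset _).1 hω).2.1
        have h6 : (Finset.univ : Finset (Fin n × Fin n)).filter
            (fun q => q.1 ∈ ω.1 ∧ q.2 ∈ ω.1) = ω.1 ×ˢ ω.1 := by
          ext q
          simp [Finset.mem_product]
        rw [h6, Finset.card_product, h5]
    _ = 9 * VV M := by
        rw [Finset.sum_const, smul_eq_mul, mul_comm]
        unfold VV NN
        rw [Set.ncard_eq_toFinset_card _ hfin]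

/-- parameters on an arc at which the minimum is attained exactly by the two functions -/
def GG (M : Setup (Fin n) s t) (i j : Fin n) (α : Arc) : Set ℝ :=
  {τ | τ ∈ Ioo (0 : ℝ) 1 ∧ α.g τ ∈ two M.f i j}

theorem GG_open {i j : Fin n} (hij : i ≠ j) {α : Arc} (hα : α ∈ M.arcs i j) :
    ∀ τ ∈ GG M i j α, τ ∈ Ioo (0 : ℝ) 1 → GG M i j α ∈ 𝓝 τ := by
  intro τ hτ hI
  have hca : ContinuousAt α.g τ :=
    (α.cont τ (α.sub hI)).continuousAt (Filter.mem_of_superset (isOpen_Ioo.mem_nhds hI) α.sub)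
  have h1 : ∀ k, k ≠ i → k ≠ j → {τ' | M.f i (α.g τ') < M.f k (α.g τ')} ∈ 𝓝 τ := by
    intro k hk1 hk2
    have h2 : M.f i (α.g τ) < M.f k (α.g τ) := hτ.2.2 k hk1 hk2
    have h3 : {p | M.f i p < M.f k p} ∈ 𝓝 (α.g τ) :=
      (isOpen_lt (M.cont i) (M.cont k)).mem_nhds h2
    exact hca h3
  have h4 : (⋂ k, {τ' | k ≠ i → k ≠ j → M.f i (α.g τ') < M.f k (α.g τ')}) ∈ 𝓝 τ := by
    rw [Filter.iInter_mem]
    intro k
    by_cases hk : k ≠ i ∧ k ≠ j
    · refine Filter.mem_of_superset (h1 k hk.1 hk.2) ?_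
      intro τ' hτ' _ _
      exact hτ'
    · refine Filter.mem_of_superset Filter.univ_mem ?_
      intro τ' _ h5 h6
      exact absurd ⟨h5, h6⟩ hk
  filter_upwards [h4, isOpen_Ioo.mem_nhds hI] with τ' h5 h6
  refine ⟨h6, M.eq_of_arc hij hα (α.sub h6), ?_⟩
  intro k hk1 hk2
  rw [mem_iInter] at h5
  exact h5 k hk1 hk2

theorem GG_bdry {i j : Fin n} (hij : i ≠ j) {α : Arc} (hα : α ∈ M.arcs i j) {τ : ℝ}
    (hI : τ ∈ Ioo (0 : ℝ) 1) (hnG : τ ∉ GG M i j α) (hcl : τ ∈ closure (GG M i j α)) :
    α.g τ ∈ Vis M (i, j) := by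
  have hca : ContinuousAt α.g τ :=
    (α.cont τ (α.sub hI)).continuousAt (Filter.mem_of_superset (isOpen_Ioo.mem_nhds hI) α.sub)
  have hij' : M.f i (α.g τ) = M.f j (α.g τ) := M.eq_of_arc hij hα (α.sub hI)
  have hle : ∀ k, M.f i (α.g τ) ≤ M.f k (α.g τ) := by
    intro k
    by_contra hcon
    push Not at hcon
    have h3 : {p | M.f k p < M.f i p} ∈ 𝓝 (α.g τ) :=
      (isOpen_lt (M.cont k) (M.cont i)).mem_nhds hcon
    have h4 : α.g ⁻¹' {p | M.f k p < M.f i p} ∈ 𝓝 τ := hca h3
    obtain ⟨τ', h5, h6⟩ := mem_closure_iff_nhds.1 hcl _ h4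
    have h5' : M.f k (α.g τ') < M.f i (α.g τ') := h5
    by_cases hki : k = i
    · rw [hki] at h5'
      exact lt_irrefl _ h5'
    by_cases hkj : k = j
    · rw [hkj] at h5'
      have := h6.2.1
      linarith
    · have := h6.2.2 k hki hkj
      linarith
  have hex : ∃ k, k ≠ i ∧ k ≠ j ∧ M.f k (α.g τ) = M.f i (α.g τ) := by
    by_contra hcon
    push Not at hcon
    apply hnG
    refine ⟨hI, hij', ?_⟩
    intro k hk1 hk2
    exact lt_of_le_of_ne (hle k) (Ne.symm (hcon k hk1 hk2))
  obtain ⟨k, hk1, hk2, hk3⟩ := hex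
  refine ⟨k, hk1, hk2, hle, ?_, ?_⟩
  · intro l
    show M.f j (α.g τ) ≤ M.f l (α.g τ)
    rw [← hij']
    exact hle l
  · intro l
    show M.f k (α.g τ) ≤ M.f l (α.g τ)
    rw [hk3]
    exact hle l

theorem GG_bdry_inj {i j : Fin n} (hij : i ≠ j) {α : Arc} (hα : α ∈ M.arcs i j) :
    {τ | τ ∈ Ioo (0 : ℝ) 1 ∧ τ ∉ GG M i j α ∧ τ ∈ closure (GG M i j α)}.encard ≤
      (Vis M (i, j) ∩ α.g '' Ioo 0 1).encard := by
  refine Set.encard_le_encard_of_injOn (f := α.g) ?_ (α.inj.mono (fun τ hτ => hτ.1))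
  rintro τ ⟨h1, h2, h3⟩
  exact ⟨GG_bdry hij hα h1 h2 h3, τ, h1, rfl⟩

theorem GG_comps_finite {i j : Fin n} (hij : i ≠ j) {α : Arc} (hα : α ∈ M.arcs i j) :
    (compsS (GG M i j α)).Finite := by
  have h1 := compsS_card (GG_open hij hα)
  have h2 := GG_bdry_inj hij hα
  have h3 : (Vis M (i, j) ∩ α.g '' Ioo 0 1).Finite :=
    (Vis_finite (q := (i, j)) hij).subset inter_subset_left
  rw [← Set.encard_lt_top_iff] at h3 ⊢
  refine lt_of_le_of_lt h1 ?_
  exact ENat.add_lt_top.2 ⟨lt_of_le_of_lt h2 h3, by simp⟩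

theorem comp_preconnected {i j : Fin n} {α : Arc} {τ0 : ℝ} :
    IsPreconnected (α.g '' compS (GG M i j α) τ0) := by
  refine compS_ord.isPreconnected.image _ (α.cont.mono ?_)
  intro τ hτ
  exact α.sub hτ.1

/-- without boundary points the parameter set is everything -/
theorem GG_whole {i j : Fin n} (hij : i ≠ j) {α : Arc} (hα : α ∈ M.arcs i j)
    (hno : Vis M (i, j) ∩ α.g '' Ioo 0 1 = ∅) {τ0 : ℝ} (h0 : τ0 ∈ Ioo (0 : ℝ) 1)
    (hG : τ0 ∈ GG M i j α) : compS (GG M i j α) τ0 = Ioo 0 1 := by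
  have hnb : ∀ τ ∈ Ioo (0 : ℝ) 1, τ ∈ closure (GG M i j α) → τ ∈ GG M i j α := by
    intro τ hτ hcl
    by_contra hcon
    have h1 := GG_bdry hij hα hτ hcon hcl
    have h2 : α.g τ ∈ Vis M (i, j) ∩ α.g '' Ioo 0 1 := ⟨h1, τ, hτ, rfl⟩
    rw [hno] at h2
    exact h2
  have hsub : Ioo (0 : ℝ) 1 ⊆ interior (GG M i j α) := by
    refine IsPreconnected.subset_left_of_subset_union (v := (closure (GG M i j α))ᶜ)
      isOpen_interior isClosed_closure.isOpen_compl ?_ ?_ ?_ isPreconnected_Ioo
    · rw [disjoint_left]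
      intro τ h1 h2
      exact h2 (subset_closure (interior_subset h1))
    · intro τ hτ
      by_cases hcl : τ ∈ closure (GG M i j α)
      · left
        rw [mem_interior_iff_mem_nhds]
        exact GG_open hij hα τ (hnb τ hτ hcl) hτ
      · exact Or.inr hcl
    · refine ⟨τ0, h0, ?_⟩
      rw [mem_interior_iff_mem_nhds]
      exact GG_open hij hα τ0 hG h0
  refine Subset.antisymm (fun τ hτ => hτ.1) ?_
  intro τ hτ
  exact ⟨hτ, (ordConnected_Ioo.uIcc_subset h0 hτ).trans (hsub.trans interior_subset)⟩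

theorem arcs_Vis_finite {i j : Fin n} (hij : i ≠ j) :
    {α | α ∈ M.arcs i j ∧ (Vis M (i, j) ∩ α.g '' Ioo 0 1).Nonempty}.Finite := by
  have hex : ∀ α ∈ {α | α ∈ M.arcs i j ∧ (Vis M (i, j) ∩ α.g '' Ioo 0 1).Nonempty},
      ∃ p, p ∈ Vis M (i, j) ∧ ∃ τ ∈ Ioo (0 : ℝ) 1, α.g τ = p := by
    rintro α ⟨hα, p, hp, τ, hτ, he⟩
    exact ⟨p, hp, τ, hτ, he⟩
  choose! r hr1 hr2 using hex
  refine Set.Finite.of_injOn (f := r) (fun α hα => hr1 α hα) ?_ (Vis_finite (q := (i, j)) hij)
  intro α hα β hβ he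
  obtain ⟨τ, hτ, h1⟩ := hr2 α hα
  obtain ⟨σ, hσ, h2⟩ := hr2 β hβ
  exact M.disj i j hij α hα.1 β hβ.1 τ hτ σ hσ (by rw [h1, h2, he])

/-- components of the set of points at which the minimum is attained by `i` and `j` are
isolated -/
theorem E_iso {i j : Fin n} (hij : i ≠ j) (p : ℝ × ℝ) :
    IsClosed ((att M.f i ∩ att M.f j) \ connectedComponentIn (att M.f i ∩ att M.f j) p) := by
  refine diff_comp_closed
    (F := (⋃ α ∈ M.arcs i j, (fun C => α.g '' C) '' compsS (GG M i j α)) ∪
      (fun p => {p}) '' (((M.S i j : Set (ℝ × ℝ)) ∪ Vis M (i, j)) ∩ (att M.f i ∩ att M.f j)))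
    ((att_closed i).inter (att_closed j)) ?_ ?_ ?_ ?_ p
  · refine CP.union ?_ (CP.of_finite ?_)
    · have h2 : (⋃ α ∈ M.arcs i j, (fun C => α.g '' C) '' compsS (GG M i j α)) ⊆
          {B : Set (ℝ × ℝ) | ∃ α ∈ M.arcs i j, B = α.g '' Ioo 0 1} ∪
          ⋃ α ∈ {α | α ∈ M.arcs i j ∧ (Vis M (i, j) ∩ α.g '' Ioo 0 1).Nonempty},
            (fun C => α.g '' C) '' compsS (GG M i j α) := by
        intro B hB
        simp only [mem_iUnion, exists_prop] at hB
        obtain ⟨α, hα, C, ⟨τ0, h0, h1, rfl⟩, rfl⟩ := hB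
        by_cases hV : (Vis M (i, j) ∩ α.g '' Ioo 0 1).Nonempty
        · right
          simp only [mem_iUnion, exists_prop]
          exact ⟨α, ⟨hα, hV⟩, _, ⟨τ0, h0, h1, rfl⟩, rfl⟩
        · left
          rw [not_nonempty_iff_eq_empty] at hV
          refine ⟨α, hα, ?_⟩
          show α.g '' compS (GG M i j α) τ0 = α.g '' Ioo 0 1
          rw [GG_whole hij hα hV h0 h1]
      refine CP.mono (CP.union (arcs_cp hij) (CP.of_finite ?_)) h2
      refine (arcs_Vis_finite hij).biUnion (fun α hα => ?_)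
      exact (GG_comps_finite hij hα.1).image _
    · refine Set.Finite.image _ ?_
      exact (((M.S i j).finite_toSet).union (Vis_finite (q := (i, j)) hij)).subset
        inter_subset_left
  · rintro B (hB | ⟨q, -, rfl⟩)
    · simp only [mem_iUnion, exists_prop] at hB
      obtain ⟨α, hα, C, ⟨τ0, h0, h1, rfl⟩, rfl⟩ := hB
      exact comp_preconnected
    · exact isPreconnected_singleton
  · rintro B (hB | ⟨q, hq, rfl⟩)
    · simp only [mem_iUnion, exists_prop] at hB
      obtain ⟨α, hα, C, ⟨τ0, h0, h1, rfl⟩, rfl⟩ := hB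
      rintro q ⟨τ, hτ, rfl⟩
      have hG := (compS_subG hτ).2
      have hij' : M.f i (α.g τ) = M.f j (α.g τ) := hG.1
      have key : ∀ l, M.f i (α.g τ) ≤ M.f l (α.g τ) := by
        intro l
        by_cases hli : l = i
        · rw [hli]
        by_cases hlj : l = j
        · rw [hlj]; exact hij'.le
        · exact (hG.2 l hli hlj).le
      refine ⟨key, fun l => ?_⟩
      show M.f j (α.g τ) ≤ M.f l (α.g τ)
      rw [← hij']
      exact key l
    · exact singleton_subset_iff.2 hq.2
  · intro q hq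
    have hij' : M.f i q = M.f j q := le_antisymm (hq.1 j) (hq.2 i)
    by_cases hV : q ∈ (M.S i j : Set (ℝ × ℝ)) ∪ Vis M (i, j)
    · exact ⟨{q}, Or.inr ⟨q, ⟨hV, hq⟩, rfl⟩, rfl⟩
    · rw [mem_union, not_or] at hV
      rcases (M.cover i j hij q).1 hij' with hS | ⟨α, hα, τ, hτ, rfl⟩
      · exact absurd hS hV.1
      · have hG : τ ∈ GG M i j α := by
          refine ⟨hτ, hij', ?_⟩
          intro k hk1 hk2
          refine lt_of_le_of_ne (hq.1 k) ?_
          intro he
          apply hV.2
          refine ⟨k, hk1, hk2, hq.1, hq.2, ?_⟩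
          intro l
          show M.f k (α.g τ) ≤ M.f l (α.g τ)
          rw [← he]
          exact hq.1 l
        refine ⟨α.g '' compS (GG M i j α) τ, Or.inl ?_, τ, compS_self hτ hG, rfl⟩
        simp only [mem_iUnion, exists_prop]
        exact ⟨α, hα, _, ⟨τ, hτ, hG, rfl⟩, rfl⟩

/-- the set of components for an ordered pair -/
def CC (M : Setup (Fin n) s t) (q : Fin n × Fin n) : Set (Set (ℝ × ℝ)) :=
  {C | ∃ p ∈ att M.f q.1 ∩ att M.f q.2, C = connectedComponentIn (att M.f q.1 ∩ att M.f q.2) p}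

theorem CC_card {q : Fin n × Fin n} (hq : q.1 ≠ q.2) :
    (CC M q).encard ≤ ((t + (Vis M q).ncard : ℕ) : ℕ∞) := by
  obtain ⟨i, j⟩ := q
  have hij : i ≠ j := hq
  set E := att M.f i ∩ att M.f j with hE
  have hEc : IsClosed E := (att_closed i).inter (att_closed j)
  have hTe : T M.f ({i, j} : Finset (Fin n)) = {p | M.f i p = M.f j p} := by
    ext p
    constructor
    · intro h
      exact h i (by simp) j (by simp)
    · intro h x hx y hy
      have h' : M.f i p = M.f j p := h
      simp only [Finset.mem_insert, Finset.mem_singleton] at hx hy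
      rcases hx with rfl | rfl <;> rcases hy with rfl | rfl <;> simp [h']
  have hET : E ⊆ T M.f ({i, j} : Finset (Fin n)) := by
    intro p hp
    rw [hTe]
    exact le_antisymm (hp.1 j) (hp.2 i)
  have hsub : CC M (i, j) ⊆
      {C : Set (ℝ × ℝ) | ∃ p ∈ T M.f ({i, j} : Finset (Fin n)),
        C = connectedComponentIn (T M.f ({i, j} : Finset (Fin n))) p} ∪
      (fun p => connectedComponentIn E p) '' Vis M (i, j) := by
    rintro C ⟨p, hp, rfl⟩
    by_cases hV : ((connectedComponentIn E p) ∩ Vis M (i, j)).Nonempty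
    · right
      obtain ⟨v, hv1, hv2⟩ := hV
      exact ⟨v, hv2, (connectedComponentIn_eq hv1).symm⟩
    · left
      have hpE : p ∈ E := hp
      refine ⟨p, hET hpE, ?_⟩
      set Z := T M.f ({i, j} : Finset (Fin n)) with hZ
      show connectedComponentIn E p = connectedComponentIn Z p
      refine Subset.antisymm (connectedComponentIn_mono p hET) ?_
      set C := connectedComponentIn E p with hC
      set Z0 := connectedComponentIn Z p with hZ0
      have hpC : p ∈ C := mem_connectedComponentIn hpE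
      have hCE : C ⊆ E := connectedComponentIn_subset _ _
      -- `C` is closed and `Z0 \ C` is contained in a closed set disjoint from `C`
      have hCcl : IsClosed C := by
        rw [← closure_subset_iff_isClosed]
        exact isPreconnected_connectedComponentIn.closure.subset_connectedComponentIn
          (subset_closure hpC) (closure_minimal hCE hEc)
      set W : Set (ℝ × ℝ) := {q | ∀ k, k ≠ i → k ≠ j → M.f i q < M.f k q} with hW
      have hWo : IsOpen W := by
        have : W = ⋂ k, {q | k ≠ i → k ≠ j → M.f i q < M.f k q} := by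
          ext q
          simp only [hW, mem_iInter, mem_ofPred_eq]
        rw [this]
        refine isOpen_iInter_of_finite (fun k => ?_)
        by_cases hk : k ≠ i ∧ k ≠ j
        · have : {q | k ≠ i → k ≠ j → M.f i q < M.f k q} = {q | M.f i q < M.f k q} := by
            ext q
            simp only [mem_ofPred_eq]
            exact ⟨fun h => h hk.1 hk.2, fun h _ _ => h⟩
          rw [this]
          exact isOpen_lt (M.cont i) (M.cont k)
        · have : {q : ℝ × ℝ | k ≠ i → k ≠ j → M.f i q < M.f k q} = univ := by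
            ext q
            simp only [mem_ofPred_eq, mem_univ, iff_true]
            intro h1 h2
            exact absurd ⟨h1, h2⟩ hk
          rw [this]
          exact isOpen_univ
      have hCW : C ⊆ W := by
        intro q hq k hk1 hk2
        refine lt_of_le_of_ne ((hCE hq).1 k) ?_
        intro he
        refine hV ⟨q, hq, k, hk1, hk2, (hCE hq).1, (hCE hq).2, ?_⟩
        intro l
        show M.f k q ≤ M.f l q
        rw [← he]
        exact (hCE hq).1 l
      have hWE : Z ∩ W ⊆ E := by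
        rintro q ⟨hq1, hq2⟩
        rw [hTe] at hq1
        have hq1' : M.f i q = M.f j q := hq1
        have key : ∀ l, M.f i q ≤ M.f l q := by
          intro l
          by_cases hli : l = i
          · rw [hli]
          by_cases hlj : l = j
          · rw [hlj]; exact hq1'.le
          · exact (hq2 l hli hlj).le
        refine ⟨key, fun l => ?_⟩
        show M.f j q ≤ M.f l q
        rw [← hq1']
        exact key l
      have hD := E_iso (M := M) hij p
      rw [← hE, ← hC] at hD
      -- the open set separating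
      have hpre : IsPreconnected Z0 := isPreconnected_connectedComponentIn
      have h1 := isPreconnected_iff_subset_of_disjoint_closed.1 hpre C (Wᶜ ∪ (E \ C)) hCcl
        (hWo.isClosed_compl.union hD) (by
          intro q hq
          by_cases hqC : q ∈ C
          · exact Or.inl hqC
          · right
            by_cases hqW : q ∈ W
            · right
              exact ⟨hWE ⟨connectedComponentIn_subset _ _ hq, hqW⟩, hqC⟩
            · left
              exact hqW)
        (by
          rw [eq_empty_iff_forall_notMem]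
          rintro q ⟨-, hqC, hq | hq⟩
          · exact hq (hCW hqC)
          · exact hq.2 hqC)
      rcases h1 with h | h
      · exact h
      · exfalso
        rcases h (mem_connectedComponentIn (hET hpE)) with hq | hq
        · exact hq (hCW hpC)
        · exact hq.2 hpC
  have hcard2 : ({i, j} : Finset (Fin n)).card = 2 := Finset.card_pair hij
  calc (CC M (i, j)).encard ≤ _ := Set.encard_le_encard hsub
    _ ≤ _ := Set.encard_union_le _ _
    _ ≤ (t : ℕ∞) + (Vis M (i, j)).encard := by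
      refine add_le_add (M.comps _ hcard2) (Set.encard_image_le _ _)
    _ = _ := by
      rw [← (Vis_finite (M := M) (q := (i, j)) hij).cast_ncard_eq]
      push_cast
      rfl

theorem CC_finite {q : Fin n × Fin n} (hq : q.1 ≠ q.2) : (CC M q).Finite :=
  Set.finite_of_encard_le_coe (CC_card hq)

/-- closed edges for ordered pairs -/
def OE (M : Setup (Fin n) s t) : Set ((Fin n × Fin n) × Set (ℝ × ℝ)) :=
  {q | q.1.1 ≠ q.1.2 ∧ q.2 ∈ CC M q.1}

open Classical in
/-- bounding a family indexed by ordered pairs -/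
theorem sum_pairs (X : Fin n × Fin n → Set (Set (ℝ × ℝ))) (a : ℕ)
    (hX : ∀ q : Fin n × Fin n, q.1 ≠ q.2 → (X q).encard ≤ ((a + (Vis M q).ncard : ℕ) : ℕ∞)) :
    {q : (Fin n × Fin n) × Set (ℝ × ℝ) | q.1.1 ≠ q.1.2 ∧ q.2 ∈ X q.1}.encard ≤
      ((a * n ^ 2 + 9 * VV M : ℕ) : ℕ∞) := by
  have hfin : ∀ q : Fin n × Fin n, q.1 ≠ q.2 → (X q).Finite := fun q hq =>
    Set.finite_of_encard_le_coe (hX q hq)
  have hcard : ∀ q : Fin n × Fin n, q.1 ≠ q.2 → (X q).ncard ≤ a + (Vis M q).ncard := by
    intro q hq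
    have := hX q hq
    rw [← (hfin q hq).cast_ncard_eq] at this
    exact_mod_cast this
  have hsub : {q : (Fin n × Fin n) × Set (ℝ × ℝ) | q.1.1 ≠ q.1.2 ∧ q.2 ∈ X q.1} ⊆
      ((((Finset.univ : Finset (Fin n × Fin n)).filter (fun q => q.1 ≠ q.2)).biUnion
        (fun q => if h : q.1 ≠ q.2 then (hfin q h).toFinset.image (fun C => (q, C)) else ∅) :
        Finset ((Fin n × Fin n) × Set (ℝ × ℝ))) : Set ((Fin n × Fin n) × Set (ℝ × ℝ))) := by
    rintro ⟨q, C⟩ ⟨h1, h2⟩
    rw [Finset.mem_coe, Finset.mem_biUnion]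
    have h1' : q.1 ≠ q.2 := h1
    refine ⟨q, Finset.mem_filter.2 ⟨Finset.mem_univ _, h1'⟩, ?_⟩
    rw [dif_pos h1', Finset.mem_image]
    exact ⟨C, (Set.Finite.mem_toFinset _).2 h2, rfl⟩
  refine (Set.encard_le_encard hsub).trans ?_
  rw [Set.encard_coe_eq_coe_finsetCard]
  have h3 : (((Finset.univ : Finset (Fin n × Fin n)).filter (fun q => q.1 ≠ q.2)).biUnion
        (fun q => if h : q.1 ≠ q.2 then (hfin q h).toFinset.image (fun C => (q, C)) else ∅)).card ≤
      a * n ^ 2 + 9 * VV M := by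
    calc _ ≤ ∑ q ∈ (Finset.univ : Finset (Fin n × Fin n)).filter (fun q => q.1 ≠ q.2), _ :=
          Finset.card_biUnion_le
      _ ≤ ∑ q ∈ (Finset.univ : Finset (Fin n × Fin n)).filter (fun q => q.1 ≠ q.2),
          (a + (Vis M q).ncard) := by
          refine Finset.sum_le_sum ?_
          intro q hq
          have hq' : q.1 ≠ q.2 := (Finset.mem_filter.1 hq).2
          rw [dif_pos hq']
          refine Finset.card_image_le.trans ?_
          rw [← Set.ncard_eq_toFinset_card _ (hfin q hq')]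
          exact hcard q hq'
      _ = ((Finset.univ : Finset (Fin n × Fin n)).filter (fun q => q.1 ≠ q.2)).card * a +
          ∑ q ∈ (Finset.univ : Finset (Fin n × Fin n)).filter (fun q => q.1 ≠ q.2),
            (Vis M q).ncard := by
          rw [Finset.sum_add_distrib, Finset.sum_const, smul_eq_mul]
      _ ≤ n ^ 2 * a + 9 * VV M := by
          refine add_le_add (Nat.mul_le_mul_right _ ?_) Vis_sum
          refine (Finset.card_filter_le _ _).trans ?_
          rw [Finset.card_univ, Fintype.card_prod, Fintype.card_fin]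
          exact (sq n).ge
      _ = _ := by ring
  exact_mod_cast h3

theorem OE_card : (OE M).encard ≤ ((t * n ^ 2 + 9 * VV M : ℕ) : ℕ∞) :=
  sum_pairs (fun q => CC M q) t (fun q hq => CC_card hq)

theorem edges_card : (edges M.f).encard ≤ ((t * n ^ 2 + 9 * VV M : ℕ) : ℕ∞) := by
  refine (Set.encard_le_encard ?_).trans OE_card
  rintro q ⟨h1, h2⟩
  exact ⟨h1.ne, h2⟩

theorem faces_card : (faces M.f).encard ≤ ((n + (t * n ^ 2 + 9 * VV M) : ℕ) : ℕ∞) := by
  classical
  set F1 : Set (Fin n × Set (ℝ × ℝ)) := {q | q.2 = univ} with hF1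
  set F2 : Set (Fin n × Set (ℝ × ℝ)) := {q | q ∈ faces M.f ∧ q.2 ≠ univ} with hF2
  have hsub : faces M.f ⊆ F1 ∪ F2 := by
    intro q hq
    by_cases h : q.2 = univ
    · exact Or.inl h
    · exact Or.inr ⟨hq, h⟩
  have h1 : F1.encard ≤ n := by
    have h2 : F1.encard ≤ (univ : Set (Fin n)).encard := by
      refine Set.encard_le_encard_of_injOn (f := Prod.fst) (fun _ _ => mem_univ _) ?_
      rintro ⟨a, C⟩ ha ⟨b, D⟩ hb hab
      have ha' : C = univ := ha
      have hb' : D = univ := hb
      have hab' : a = b := hab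
      rw [ha', hb', hab']
    refine h2.trans ?_
    rw [Set.encard_univ]
    simp
  have hex : ∀ q ∈ F2, ∃ j p, j ≠ q.1 ∧ p ∈ q.2 ∧ p ∈ att M.f q.1 ∩ att M.f j := by
    rintro ⟨i, C⟩ ⟨⟨p0, hp0, hC⟩, hne⟩
    have hC' : C = connectedComponentIn (att M.f i) p0 := hC
    have hp0C : p0 ∈ C := by rw [hC']; exact mem_connectedComponentIn hp0
    have hCA : C ⊆ att M.f i := by rw [hC']; exact connectedComponentIn_subset _ _
    have hCcl : IsClosed C := by
      rw [← closure_subset_iff_isClosed, hC']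
      refine isPreconnected_connectedComponentIn.closure.subset_connectedComponentIn
        (subset_closure (by rw [← hC']; exact hp0C)) ?_
      exact closure_minimal (by rw [← hC']; exact hCA) (att_closed i)
    have hfr : (frontier C).Nonempty := by
      rw [nonempty_frontier_iff]
      exact ⟨⟨p0, hp0C⟩, hne⟩
    obtain ⟨p, hp⟩ := hfr
    have hpC : p ∈ C := by
      have := hp.1
      rwa [hCcl.closure_eq] at this
    have hpA := hCA hpC
    by_contra hcon
    push Not at hcon
    -- all other functions are strictly above at `p`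
    have hlt : ∀ j, j ≠ i → M.f i p < M.f j p := by
      intro j hj
      refine lt_of_le_of_ne (hpA j) ?_
      intro he
      refine hcon j p hj hpC ⟨hpA, ?_⟩
      intro l
      show M.f j p ≤ M.f l p
      rw [← he]
      exact hpA l
    have hW : {q | ∀ j, j ≠ i → M.f i q < M.f j q} ∈ 𝓝 p := by
      have h4 : (⋂ j, {q | j ≠ i → M.f i q < M.f j q}) ∈ 𝓝 p := by
        rw [Filter.iInter_mem]
        intro j
        by_cases hj : j = i
        · refine Filter.mem_of_superset Filter.univ_mem ?_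
          intro q _ h
          exact absurd hj h
        · refine Filter.mem_of_superset
            ((isOpen_lt (M.cont i) (M.cont j)).mem_nhds (hlt j hj)) ?_
          intro q hq _
          exact hq
      refine Filter.mem_of_superset h4 ?_
      intro q hq j
      rw [mem_iInter] at hq
      exact hq j
    obtain ⟨δ, hδ, hball⟩ := Metric.mem_nhds_iff.1 hW
    have hballA : Metric.ball p δ ⊆ att M.f i := by
      intro q hq l
      by_cases hl : l = i
      · rw [hl]
      · exact (hball hq l hl).le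
    have hballC : Metric.ball p δ ⊆ C := by
      have e1 : connectedComponentIn (att M.f i) p0 = connectedComponentIn (att M.f i) p :=
        connectedComponentIn_eq (by rw [← hC']; exact hpC)
      rw [hC', e1]
      exact (convex_ball p δ).isPreconnected.subset_connectedComponentIn
        (Metric.mem_ball_self hδ) hballA
    have : p ∈ interior C := mem_interior.2 ⟨_, hballC, Metric.isOpen_ball,
      Metric.mem_ball_self hδ⟩
    exact hp.2 this
  have h2 : F2.encard ≤ (OE M).encard := by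
    by_cases hne : F2.Nonempty
    swap
    · rw [not_nonempty_iff_eq_empty] at hne
      rw [hne]
      simp
    have hNe : Nonempty (Fin n) := ⟨hne.some.1⟩
    choose! J Q hJ using hex
    refine Set.encard_le_encard_of_injOn
      (f := fun q => ((q.1, J q), connectedComponentIn (att M.f q.1 ∩ att M.f (J q)) (Q q))) ?_ ?_
    · intro q hq
      obtain ⟨h3, h4, h5⟩ := hJ q hq
      exact ⟨h3.symm, Q q, h5, rfl⟩
    · intro q hq q' hq' he
      obtain ⟨h3, h4, h5⟩ := hJ q hq
      obtain ⟨h3', h4', h5'⟩ := hJ q' hq'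
      have e1 : q.1 = q'.1 := congrArg (fun x => x.1.1) he
      have e2 : J q = J q' := congrArg (fun x => x.1.2) he
      have e3 : connectedComponentIn (att M.f q.1 ∩ att M.f (J q)) (Q q) =
          connectedComponentIn (att M.f q'.1 ∩ att M.f (J q')) (Q q') :=
        congrArg (fun x => x.2) he
      rw [← e1, ← e2] at e3
      have hmem : Q q ∈ connectedComponentIn (att M.f q.1 ∩ att M.f (J q)) (Q q') := by
        rw [← e3]
        exact mem_connectedComponentIn h5
      have hmem2 : Q q ∈ connectedComponentIn (att M.f q.1) (Q q') :=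
        connectedComponentIn_mono _ inter_subset_left hmem
      obtain ⟨⟨p0, hp0, hC⟩, -⟩ := hq
      obtain ⟨⟨p0', hp0', hC'⟩, -⟩ := hq'
      have e4 : q.2 = connectedComponentIn (att M.f q.1) (Q q) := by
        rw [hC]
        rw [hC] at h4
        exact connectedComponentIn_eq h4
      have e5 : q'.2 = connectedComponentIn (att M.f q'.1) (Q q') := by
        rw [hC']
        rw [hC'] at h4'
        exact connectedComponentIn_eq h4'
      have e6 : connectedComponentIn (att M.f q.1) (Q q') =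
          connectedComponentIn (att M.f q.1) (Q q) := connectedComponentIn_eq hmem2
      refine Prod.ext e1 ?_
      rw [e4, e5, ← e1, e6]
  calc (faces M.f).encard ≤ _ := Set.encard_le_encard hsub
    _ ≤ _ := Set.encard_union_le _ _
    _ ≤ (n : ℕ∞) + ((t * n ^ 2 + 9 * VV M : ℕ) : ℕ∞) := add_le_add h1 (h2.trans OE_card)
    _ = _ := by push_cast; rfl

theorem kappa_le : kappa M.f ≤ ((n + 2 * (t * n ^ 2 + 9 * VV M) + VV M : ℕ) : ℕ∞) := by
  unfold kappa
  calc _ ≤ ((n + (t * n ^ 2 + 9 * VV M) : ℕ) : ℕ∞) + ((t * n ^ 2 + 9 * VV M : ℕ) : ℕ∞) +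
        (VV M : ℕ∞) := add_le_add (add_le_add faces_card edges_card) verts_card
    _ = _ := by
      norm_cast
      ring_nf

end Setup

end Run7.h605
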