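import Mathlib
import Pool.Agent.Run7.h605.Kappa

/-!
# Relatively open edges
-/

set_option autoImplicit false

open Set Topology

namespace Run7.h605

namespace Setup

variable {n s t : ℕ} {M : Setup (Fin n) s t}

/-- the set of components of the set where exactly two functions attain the minimum -/
def CO (M : Setup (Fin n) s t) (q : Fin n × Fin n) : Set (Set (ℝ × ℝ)) :=
  {C | ∃ p ∈ two M.f q.1 q.2, C = connectedComponentIn (two M.f q.1 q.2) p}

open Classical in
/-- the components of the open edge set met by an arc -/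
noncomputable def pick (M : Setup (Fin n) s t) (i j : Fin n) (α : Arc) (K : Set ℝ) :
    Set (ℝ × ℝ) :=
  if h : K.Nonempty then connectedComponentIn (two M.f i j) (α.g h.choose) else ∅

theorem pick_eq {i j : Fin n} {α : Arc} {τ : ℝ} (hτ : τ ∈ Ioo (0 : ℝ) 1) (hG : τ ∈ GG M i j α) :
    pick M i j α (compS (GG M i j α) τ) = connectedComponentIn (two M.f i j) (α.g τ) := by
  have hne : (compS (GG M i j α) τ).Nonempty := ⟨τ, compS_self hτ hG⟩
  unfold pick
  rw [dif_pos hne]
  have h1 := hne.choose_spec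
  set σ := hne.choose
  have hsub : α.g '' compS (GG M i j α) τ ⊆ two M.f i j := by
    rintro p ⟨c, hc, rfl⟩
    exact (compS_subG hc).2
  have h2 : α.g τ ∈ α.g '' compS (GG M i j α) τ := ⟨τ, compS_self hτ hG, rfl⟩
  have h3 := comp_preconnected.subset_connectedComponentIn h2 hsub
  exact (connectedComponentIn_eq (h3 ⟨σ, h1, rfl⟩)).symm

open Classical in
theorem CO_card {m : ℕ} {q : Fin n × Fin n} (hq : q.1 ≠ q.2)
    (hm : (M.arcs q.1 q.2).encard ≤ m) :
    (CO M q).encard ≤ ((t + m + (Vis M q).ncard : ℕ) : ℕ∞) := by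
  obtain ⟨i, j⟩ := q
  have hij : i ≠ j := hq
  have hfinA : (M.arcs i j).Finite := Set.finite_of_encard_le_coe hm
  set A := hfinA.toFinset with hA
  have hAm : A.card ≤ m := by
    have h1 : (M.arcs i j).encard ≤ m := hm
    rw [← hfinA.cast_ncard_eq, Set.ncard_eq_toFinset_card _ hfinA] at h1
    exact_mod_cast h1
  have hfinV : (Vis M (i, j)).Finite := Vis_finite (q := (i, j)) hij
  set V := hfinV.toFinset with hV
  have hfinK : ∀ α ∈ A, (compsS (GG M i j α)).Finite := fun α hα =>
    GG_comps_finite hij ((Set.Finite.mem_toFinset _).1 hα)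
  have hKcard : ∀ α (hα : α ∈ A), (hfinK α hα).toFinset.card ≤
      (V.filter (fun p => p ∈ α.g '' Ioo 0 1)).card + 1 := by
    intro α hα
    have hα' : α ∈ M.arcs i j := (Set.Finite.mem_toFinset _).1 hα
    have h1 := compsS_card (GG_open hij hα')
    have h2 := GG_bdry_inj hij hα'
    have h3 : (compsS (GG M i j α)).encard ≤ (Vis M (i, j) ∩ α.g '' Ioo 0 1).encard + 1 :=
      h1.trans (by gcongr)
    have h4 : (Vis M (i, j) ∩ α.g '' Ioo 0 1) =
        ((V.filter (fun p => p ∈ α.g '' Ioo 0 1) : Finset (ℝ × ℝ)) : Set (ℝ × ℝ)) := by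
      ext p
      rw [Finset.mem_coe, Finset.mem_filter, Set.Finite.mem_toFinset, mem_inter_iff]
    rw [h4, Set.encard_coe_eq_coe_finsetCard, ← (hfinK α hα).cast_ncard_eq,
      Set.ncard_eq_toFinset_card _ (hfinK α hα)] at h3
    exact_mod_cast h3
  have hsub : CO M (i, j) ⊆ (((M.S i j).image (fun p => connectedComponentIn (two M.f i j) p) ∪
      A.biUnion (fun α => if hα : α ∈ A then (hfinK α hα).toFinset.image (pick M i j α) else ∅) :
        Finset (Set (ℝ × ℝ))) : Set (Set (ℝ × ℝ))) := by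
    rintro C ⟨p, hp, rfl⟩
    rw [Finset.mem_coe, Finset.mem_union, Finset.mem_image, Finset.mem_biUnion]
    have hp' : p ∈ two M.f i j := hp
    rcases (M.cover i j hij p).1 hp'.1 with hS | ⟨α, hα, τ, hτ, rfl⟩
    · left
      exact ⟨p, hS, rfl⟩
    · right
      have hαA : α ∈ A := (Set.Finite.mem_toFinset _).2 hα
      have hG : τ ∈ GG M i j α := ⟨hτ, hp'⟩
      refine ⟨α, hαA, ?_⟩
      rw [dif_pos hαA, Finset.mem_image]
      refine ⟨compS (GG M i j α) τ, ?_, pick_eq hτ hG⟩
      rw [Set.Finite.mem_toFinset]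
      exact ⟨τ, hτ, hG, rfl⟩
  refine (Set.encard_le_encard hsub).trans ?_
  rw [Set.encard_coe_eq_coe_finsetCard]
  have hfinal : ((M.S i j).image (fun p => connectedComponentIn (two M.f i j) p) ∪
      A.biUnion (fun α => if hα : α ∈ A then (hfinK α hα).toFinset.image (pick M i j α)
        else ∅)).card ≤ t + m + (Vis M (i, j)).ncard := by
    have h1 : ((M.S i j).image (fun p => connectedComponentIn (two M.f i j) p)).card ≤ t :=
      Finset.card_image_le.trans (M.Scard i j hij)
    have h2 : (A.biUnion (fun α => if hα : α ∈ A then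
        (hfinK α hα).toFinset.image (pick M i j α) else ∅)).card ≤
        m + (Vis M (i, j)).ncard := by
      calc _ ≤ ∑ α ∈ A, _ := Finset.card_biUnion_le
        _ ≤ ∑ α ∈ A, ((V.filter (fun p => p ∈ α.g '' Ioo 0 1)).card + 1) := by
            refine Finset.sum_le_sum ?_
            intro α hα
            rw [dif_pos hα]
            exact Finset.card_image_le.trans (hKcard α hα)
        _ = ∑ α ∈ A, (V.filter (fun p => p ∈ α.g '' Ioo 0 1)).card + A.card := by
            rw [Finset.sum_add_distrib, Finset.sum_const, smul_eq_mul, mul_one]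
        _ = ∑ p ∈ V, (A.filter (fun α => p ∈ α.g '' Ioo 0 1)).card + A.card := by
            congr 1
            exact Finset.sum_card_bipartiteAbove_eq_sum_card_bipartiteBelow
              (fun (α : Arc) (p : ℝ × ℝ) => p ∈ α.g '' Ioo 0 1)
        _ ≤ ∑ p ∈ V, 1 + m := by
            refine add_le_add (Finset.sum_le_sum ?_) hAm
            intro p _
            rw [Finset.card_le_one]
            intro α hα β hβ
            rw [Finset.mem_filter, Set.Finite.mem_toFinset] at hα hβ
            obtain ⟨hα1, τ, hτ, hτp⟩ := hα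
            obtain ⟨hβ1, σ, hσ, hσp⟩ := hβ
            exact M.disj i j hij α hα1 β hβ1 τ hτ σ hσ (hτp.trans hσp.symm)
        _ = m + (Vis M (i, j)).ncard := by
            rw [Finset.sum_const, smul_eq_mul, mul_one, Set.ncard_eq_toFinset_card _ hfinV]
            ring
    exact (Finset.card_union_le _ _).trans (by omega)
  exact_mod_cast hfinal

theorem openEdges_card {m : ℕ} (hm : ∀ i j, i ≠ j → (M.arcs i j).encard ≤ m) :
    (openEdges M.f).encard ≤ (((t + m) * n ^ 2 + 9 * VV M : ℕ) : ℕ∞) := by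
  refine (Set.encard_le_encard ?_).trans
    (sum_pairs (fun q => CO M q) (t + m) (fun q hq => CO_card hq (hm q.1 q.2 hq)))
  rintro q ⟨h1, h2⟩
  exact ⟨h1.ne, h2⟩

theorem kappaOpen_le {m : ℕ} (hm : ∀ i j, i ≠ j → (M.arcs i j).encard ≤ m) :
    kappaOpen M.f ≤
      ((n + (t * n ^ 2 + 9 * VV M) + ((t + m) * n ^ 2 + 9 * VV M) + VV M : ℕ) : ℕ∞) := by
  unfold kappaOpen
  calc _ ≤ ((n + (t * n ^ 2 + 9 * VV M) : ℕ) : ℕ∞) + (((t + m) * n ^ 2 + 9 * VV M : ℕ) : ℕ∞) +
        (VV M : ℕ∞) := add_le_add (add_le_add faces_card (openEdges_card hm)) verts_card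
    _ = _ := by
      norm_cast

end Setup

end Run7.h605
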