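import Mathlib
import Pool.Agent.Run7.h605.Rec1

/-!
# Solving the recursion
-/

set_option autoImplicit false

open Set Topology Real

namespace Run7.h605

theorem psi_drop {c α L x : ℝ} (hα0 : 0 < α) (hα1 : α ≤ 1) (hc : 0 ≤ c) (hL : 0 < L)
    (hxL : x ≤ L) :
    exp (c * (L - x) ^ α) ≤ exp (c * L ^ α) * exp (-(c * α * L ^ (α - 1) * x)) := by
  rw [← Real.exp_add]
  apply Real.exp_le_exp.2
  have h1 : (L - x) ^ α ≤ L ^ α - α * L ^ (α - 1) * x := by
    have h2 : L - x = L * (1 + (-(x / L))) := by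
      field_simp
      ring
    have h3 : (-1 : ℝ) ≤ -(x / L) := by
      rw [neg_le_neg_iff, div_le_one hL]
      exact hxL
    have h4 : (1 + (-(x / L))) ^ α ≤ 1 + α * (-(x / L)) :=
      rpow_one_add_le_one_add_mul_self h3 hα0.le hα1
    rw [h2, Real.mul_rpow hL.le (by linarith)]
    calc L ^ α * (1 + -(x / L)) ^ α ≤ L ^ α * (1 + α * (-(x / L))) :=
          mul_le_mul_of_nonneg_left h4 (Real.rpow_nonneg hL.le _)
      _ = L ^ α - α * L ^ (α - 1) * x := by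
          rw [Real.rpow_sub_one hL.ne']
          field_simp
          ring
  calc c * (L - x) ^ α ≤ c * (L ^ α - α * L ^ (α - 1) * x) := mul_le_mul_of_nonneg_left h1 hc
    _ = _ := by ring

/-- the thresholds -/
noncomputable def kap (Γ β L : ℝ) (j : ℕ) : ℝ := exp (j * Γ * L ^ ((j : ℝ) * β))

noncomputable def thr (Γ β L : ℝ) (j : ℕ) : ℕ := if j = 0 then 0 else ⌈kap Γ β L j⌉₊

section thr

variable {Γ β L : ℝ} (hΓ : 2 ≤ Γ) (hβ : 0 ≤ β) (hL : 1 ≤ L)

include hΓ hβ hL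

theorem kap_succ (j : ℕ) : kap Γ β L j * exp Γ ≤ kap Γ β L (j + 1) := by
  unfold kap
  rw [← Real.exp_add]
  apply Real.exp_le_exp.2
  have h1 : L ^ ((j : ℝ) * β) ≤ L ^ (((j + 1 : ℕ) : ℝ) * β) := by
    apply Real.rpow_le_rpow_of_exponent_le hL
    push_cast
    nlinarith
  have h2 : 1 ≤ L ^ ((j : ℝ) * β) := Real.one_le_rpow hL (by positivity)
  push_cast at h1 ⊢
  have hj : (0 : ℝ) ≤ j := Nat.cast_nonneg j
  have h3 : ((j : ℝ) + 1) * Γ * L ^ ((j : ℝ) * β) ≤ ((j : ℝ) + 1) * Γ * L ^ (((j : ℝ) + 1) * β) :=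
    mul_le_mul_of_nonneg_left h1 (by positivity)
  nlinarith

theorem kap_one_le (j : ℕ) : 1 ≤ kap Γ β L j := by
  unfold kap
  rw [← Real.exp_zero]
  apply Real.exp_le_exp.2
  have : 0 ≤ L ^ ((j : ℝ) * β) := Real.rpow_nonneg (by linarith) _
  positivity

theorem exp_Γ : (7 : ℝ) ≤ exp Γ := by
  have h1 : (2.7182818283 : ℝ) < exp 1 := Real.exp_one_gt_d9
  have h2 : exp 2 ≤ exp Γ := Real.exp_le_exp.2 hΓ
  have h3 : exp 2 = exp 1 * exp 1 := by
    rw [← Real.exp_add]; norm_num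
  nlinarith

theorem thr_le (j : ℕ) : (thr Γ β L j : ℝ) ≤ 2 * kap Γ β L j := by
  have h1 := kap_one_le hΓ hβ hL j
  unfold thr
  split_ifs with h
  · push_cast; linarith
  · have := Nat.ceil_lt_add_one (by linarith : 0 ≤ kap Γ β L j)
    linarith

theorem thr_ge (j : ℕ) : kap Γ β L (j + 1) ≤ (thr Γ β L (j + 1) : ℝ) := by
  unfold thr
  rw [if_neg (Nat.succ_ne_zero j)]
  exact Nat.le_ceil _

theorem thr_double (j : ℕ) : 2 * thr Γ β L j ≤ thr Γ β L (j + 1) := by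
  have h1 := thr_le hΓ hβ hL j
  have h2 := thr_ge hΓ hβ hL j
  have h3 := kap_succ hΓ hβ hL j
  have h4 := exp_Γ hΓ hβ hL
  have h5 := kap_one_le hΓ hβ hL j
  have : ((2 * thr Γ β L j : ℕ) : ℝ) ≤ (thr Γ β L (j + 1) : ℝ) := by
    push_cast
    nlinarith
  exact_mod_cast this

theorem thr_mono : Monotone (thr Γ β L) := by
  refine monotone_nat_of_le_succ (fun j => ?_)
  have := thr_double hΓ hβ hL j
  omega

theorem thr_pos (j : ℕ) : 1 ≤ thr Γ β L (j + 1) := by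
  have h2 := thr_ge hΓ hβ hL j
  have h5 := kap_one_le hΓ hβ hL (j + 1)
  have : (1 : ℝ) ≤ (thr Γ β L (j + 1) : ℝ) := by linarith
  exact_mod_cast this

end thr

end Run7.h605
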