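import Mathlib
import Pool.Agent.Run7.h605.Rec2

/-!
# Solving the recursion, second part
-/

set_option autoImplicit false

open Set Topology Real

namespace Run7.h605

namespace Setup

variable {ι : Type} [DecidableEq ι] {s t : ℕ} {M : Setup ι s t}

theorem long_bound (R : Finset ι) {Γ β α L A c : ℝ} (hΓ : 2 ≤ Γ) (hβ : 0 ≤ β) (hL : 1 ≤ L)
    (hα : 0 < α) (hα1 : α ≤ 1) (hαβ : α + β = 1) (hA : 0 ≤ A) (hc : 0 ≤ c) (hcα : 1 ≤ c * α)
    (hLn : L = Real.log R.card) (j : ℕ) (hn : 6 * thr Γ β L (j + 1) ≤ R.card)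
    (IH : ∀ R' ⊆ R, R'.card < R.card →
      (NN M R' 0 : ℝ) ≤ A * (R'.card : ℝ) ^ 2 * exp (c * (Real.log R'.card) ^ α)) :
    ((LongF M R (thr Γ β L j) (thr Γ β L (j + 1))).card : ℝ) ≤
      4617 * A * (R.card : ℝ) ^ 2 * exp (c * L ^ α) * exp (-Γ) := by
  set n := R.card with hndef
  set l := thr Γ β L j with hl
  set k := thr Γ β L (j + 1) with hk
  set r := n / (2 * k) with hr
  have hk1 : 1 ≤ k := thr_pos hΓ hβ hL j
  have hk1' : (1 : ℝ) ≤ k := by exact_mod_cast hk1
  have hr3 : 3 ≤ r := by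
    rw [hr, Nat.le_div_iff_mul_le (by omega)]
    omega
  have hrn : r < n := by
    rw [hr]
    exact Nat.div_lt_self (by omega) (by omega)
  have hn0 : (0 : ℝ) < n := by
    have : 0 < n := by omega
    exact_mod_cast this
  set X : ℝ := A * (r : ℝ) ^ 2 * exp (c * (Real.log r) ^ α) with hX
  have hX0 : 0 ≤ X := by positivity
  have h1 : NN M R k ≤ 171 * k ^ 3 * ⌊X⌋₊ := by
    refine NN_sample R k ⌊X⌋₊ hk1 hn ?_
    intro R' hR' hc'
    refine Nat.le_floor ?_
    have h2 := IH R' hR' (by rw [hc', ← hndef, ← hr]; exact hrn)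
    rw [hc', ← hndef, ← hr] at h2
    exact h2
  have h2 := charging (M := M) R l k
  have hlk : 2 * l ≤ k := thr_double hΓ hβ hL j
  have h3 : ((LongF M R l k).card : ℝ) * ((k : ℝ) - l) ≤ (171 * (k : ℝ) ^ 3 * X) * (18 * (l + 1)) := by
    have h4 : ((LongF M R l k).card : ℝ) * ((k - l : ℕ) : ℝ) ≤ (NN M R k : ℝ) * (18 * ((l : ℝ) + 1)) := by
      exact_mod_cast h2
    rw [Nat.cast_sub (by omega)] at h4
    refine h4.trans (mul_le_mul_of_nonneg_right ?_ (by positivity))
    have h5 : (NN M R k : ℝ) ≤ 171 * (k : ℝ) ^ 3 * (⌊X⌋₊ : ℝ) := by exact_mod_cast h1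
    exact h5.trans (mul_le_mul_of_nonneg_left (Nat.floor_le hX0) (by positivity))
  -- size of `r`
  have hrle : (r : ℝ) ≤ (n : ℝ) / (2 * k) := by
    have := Nat.cast_div_le (α := ℝ) (m := n) (n := 2 * k)
    rw [hr]
    push_cast at this
    exact this
  have hr0 : (0 : ℝ) < r := by
    have : 0 < r := by omega
    exact_mod_cast this
  have hr1 : (1 : ℝ) ≤ r := by
    have : 1 ≤ r := by omega
    exact_mod_cast this
  have hkn : (k : ℝ) ≤ n := by
    have : k ≤ n := by omega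
    exact_mod_cast this
  have hlogr : Real.log r ≤ L - Real.log k := by
    have h6 : (r : ℝ) ≤ (n : ℝ) / k := by
      refine hrle.trans ?_
      apply div_le_div_of_nonneg_left hn0.le (by linarith)
      linarith
    calc Real.log r ≤ Real.log ((n : ℝ) / k) := Real.log_le_log hr0 h6
      _ = L - Real.log k := by rw [Real.log_div hn0.ne' (by linarith), hLn]
  have hlogr0 : 0 ≤ Real.log r := Real.log_nonneg hr1
  have hlogk : Real.log k ≤ L := by
    rw [hLn]
    exact Real.log_le_log (by linarith) hkn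
  have hpsi1 : exp (c * (Real.log r) ^ α) ≤ exp (c * (L - Real.log k) ^ α) := by
    apply Real.exp_le_exp.2
    exact mul_le_mul_of_nonneg_left (Real.rpow_le_rpow hlogr0 hlogr hα.le) hc
  have hpsi2 := psi_drop hα hα1 hc (by linarith : (0 : ℝ) < L) hlogk
  -- the exponent
  set Lj : ℝ := L ^ ((j : ℝ) * β) with hLj
  have hLj1 : 1 ≤ Lj := Real.one_le_rpow hL (by positivity)
  have hlogk2 : (((j + 1 : ℕ) : ℝ)) * Γ * L ^ (((j + 1 : ℕ) : ℝ) * β) ≤ Real.log k := by
    have h7 : kap Γ β L (j + 1) ≤ k := thr_ge hΓ hβ hL j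
    unfold kap at h7
    rw [← Real.log_exp (((j + 1 : ℕ) : ℝ) * Γ * L ^ (((j + 1 : ℕ) : ℝ) * β))]
    exact Real.log_le_log (Real.exp_pos _) h7
  have hpowm : L ^ (α - 1) * L ^ (((j + 1 : ℕ) : ℝ) * β) = Lj := by
    rw [← Real.rpow_add (by linarith), hLj]
    congr 1
    push_cast
    linarith
  have hLα : 0 < L ^ (α - 1) := Real.rpow_pos_of_pos (by linarith) _
  have hj0 : (0 : ℝ) ≤ j := Nat.cast_nonneg j
  have hexp : (j : ℝ) * Γ * Lj + Γ ≤ c * α * L ^ (α - 1) * Real.log k := by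
    have h8 : c * α * L ^ (α - 1) * ((((j + 1 : ℕ) : ℝ)) * Γ * L ^ (((j + 1 : ℕ) : ℝ) * β))
        ≤ c * α * L ^ (α - 1) * Real.log k :=
      mul_le_mul_of_nonneg_left hlogk2 (by positivity)
    have h9 : c * α * L ^ (α - 1) * ((((j + 1 : ℕ) : ℝ)) * Γ * L ^ (((j + 1 : ℕ) : ℝ) * β))
        = (c * α) * (((j : ℝ) + 1) * Γ * Lj) := by
      rw [← hpowm]
      push_cast
      ring
    rw [h9] at h8
    have h10 : ((j : ℝ) + 1) * Γ * Lj ≤ (c * α) * (((j : ℝ) + 1) * Γ * Lj) := by
      have : 0 ≤ ((j : ℝ) + 1) * Γ * Lj := by positivity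
      nlinarith
    have h11 : Γ ≤ Γ * Lj := by nlinarith
    nlinarith
  have hpsi3 : exp (-(c * α * L ^ (α - 1) * Real.log k)) ≤ (kap Γ β L j)⁻¹ * exp (-Γ) := by
    unfold kap
    rw [← Real.exp_neg, ← Real.exp_add]
    apply Real.exp_le_exp.2
    rw [← hLj]
    linarith
  have hκ1 := kap_one_le hΓ hβ hL j
  set κ := kap Γ β L j with hκ
  have hκ0 : 0 < κ := by linarith
  have hl2 : (l : ℝ) + 1 ≤ 3 * κ := by
    have := thr_le hΓ hβ hL j
    linarith
  set ψ := exp (c * L ^ α) with hψ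
  have hψ0 : 0 < ψ := Real.exp_pos _
  have hψr : exp (c * (Real.log r) ^ α) ≤ ψ * (κ⁻¹ * exp (-Γ)) :=
    hpsi1.trans (hpsi2.trans (mul_le_mul_of_nonneg_left hpsi3 hψ0.le))
  have hX2 : X ≤ A * ((n : ℝ) / (2 * k)) ^ 2 * (ψ * (κ⁻¹ * exp (-Γ))) := by
    rw [hX]
    apply mul_le_mul ?_ hψr (Real.exp_pos _).le (by positivity)
    apply mul_le_mul_of_nonneg_left ?_ hA
    exact pow_le_pow_left₀ hr0.le hrle 2
  have hlk' : (k : ℝ) / 2 ≤ (k : ℝ) - l := by
    have : ((2 * l : ℕ) : ℝ) ≤ k := by exact_mod_cast hlk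
    push_cast at this
    linarith
  have hLF0 : (0 : ℝ) ≤ ((LongF M R l k).card : ℝ) := Nat.cast_nonneg _
  have h12 : ((LongF M R l k).card : ℝ) * ((k : ℝ) / 2) ≤
      (171 * (k : ℝ) ^ 3 * (A * ((n : ℝ) / (2 * k)) ^ 2 * (ψ * (κ⁻¹ * exp (-Γ))))) *
        (18 * (3 * κ)) := by
    calc _ ≤ ((LongF M R l k).card : ℝ) * ((k : ℝ) - l) := mul_le_mul_of_nonneg_left hlk' hLF0
      _ ≤ _ := h3
      _ ≤ _ := by
        apply mul_le_mul ?_ ?_ (by positivity) (by positivity)
        · exact mul_le_mul_of_nonneg_left hX2 (by positivity)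
        · exact mul_le_mul_of_nonneg_left hl2 (by norm_num)
  have hkpos : (0 : ℝ) < k := by linarith
  have h13 : (171 * (k : ℝ) ^ 3 * (A * ((n : ℝ) / (2 * k)) ^ 2 * (ψ * (κ⁻¹ * exp (-Γ))))) *
        (18 * (3 * κ)) = (4617 * A * (n : ℝ) ^ 2 * ψ * exp (-Γ)) * ((k : ℝ) / 2) := by
    field_simp
    ring
  rw [h13] at h12
  exact le_of_mul_le_mul_right h12 (by positivity)

theorem low_bound (R : Finset ι) {b : ℕ} (hb : 1 ≤ b) (hn : 6 * b ≤ R.card) :
    ((LowF M R b).card : ℝ) ≤ 43 * b * t * (R.card : ℝ) ^ 2 := by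
  have h1 := Low_sample (M := M) R b hb hn
  have hb' : (1 : ℝ) ≤ b := by exact_mod_cast hb
  have h2 : (((R.card / (2 * b) : ℕ)) : ℝ) ≤ (R.card : ℝ) / (2 * b) := by
    have := Nat.cast_div_le (α := ℝ) (m := R.card) (n := 2 * b)
    push_cast at this
    exact this
  have h3 : ((LowF M R b).card : ℝ) ≤
      171 * (b : ℝ) ^ 3 * (t * (((R.card / (2 * b) : ℕ)) : ℝ) ^ 2) := by exact_mod_cast h1
  refine h3.trans ?_
  have h4 : (((R.card / (2 * b) : ℕ)) : ℝ) ^ 2 ≤ ((R.card : ℝ) / (2 * b)) ^ 2 :=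
    pow_le_pow_left₀ (Nat.cast_nonneg _) h2 2
  calc 171 * (b : ℝ) ^ 3 * (t * (((R.card / (2 * b) : ℕ)) : ℝ) ^ 2)
      ≤ 171 * (b : ℝ) ^ 3 * (t * ((R.card : ℝ) / (2 * b)) ^ 2) := by gcongr
    _ = (171 / 4) * b * t * (R.card : ℝ) ^ 2 := by
        field_simp
        ring
    _ ≤ 43 * b * t * (R.card : ℝ) ^ 2 := by
        have : (0 : ℝ) ≤ b * t * (R.card : ℝ) ^ 2 := by positivity
        nlinarith

end Setup

/-- the main bound for the number of visible vertices -/
theorem main_bound (s t : ℕ) (hs : 1 ≤ s) : ∃ A c : ℝ, 0 ≤ A ∧ 0 ≤ c ∧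
    ∀ {ι : Type} [DecidableEq ι] (M : Setup ι s t) (R : Finset ι),
      (Setup.NN M R 0 : ℝ) ≤ A * (R.card : ℝ) ^ 2 *
        exp (c * (Real.log R.card) ^ (1 - 1 / ((s : ℝ) + 3 * t + 1))) := by
  obtain ⟨m, hm⟩ : ∃ m, m = s + 3 * t := ⟨_, rfl⟩
  have hm1 : 1 ≤ m := by omega
  have hmr : (1 : ℝ) ≤ m := by exact_mod_cast hm1
  have hsr : (1 : ℝ) ≤ s := by exact_mod_cast hs
  set β : ℝ := 1 / (m + 1) with hβdef
  set α : ℝ := m / (m + 1) with hαdef
  have hβ : 0 ≤ β := by positivity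
  have hα : 0 < α := by positivity
  have hα1 : α < 1 := by
    rw [hαdef, div_lt_one (by positivity)]
    linarith
  have hαβ : α + β = 1 := by
    rw [hαdef, hβdef]
    field_simp
  have hmβ : (m : ℝ) * β = α := by
    rw [hαdef, hβdef]
    field_simp
  set Γ : ℝ := Real.log (9234 * s * m + 8) with hΓdef
  have hsm : (0 : ℝ) ≤ 9234 * s * m := by positivity
  have hΓexp : exp Γ = 9234 * s * m + 8 := Real.exp_log (by linarith)
  have hΓ : 2 ≤ Γ := by
    rw [hΓdef, Real.le_log_iff_exp_le (by linarith)]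
    have h1 : exp 1 < (2.7182818286 : ℝ) := Real.exp_one_lt_d9
    have h3 : exp 2 = exp 1 * exp 1 := by
      rw [← Real.exp_add]; norm_num
    have h4 : 0 < exp 1 := Real.exp_pos 1
    nlinarith
  set c : ℝ := m * Γ / α with hcdef
  have hmΓ : 0 ≤ m * Γ := by positivity
  have hcα : c * α = m * Γ := by
    rw [hcdef]
    field_simp
  have hc : m * Γ ≤ c := by
    rw [hcdef, le_div_iff₀ hα]
    nlinarith
  have hc0 : 0 ≤ c := by linarith
  have hcα1 : 1 ≤ c * α := by
    rw [hcα]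
    nlinarith
  -- the threshold for large `L`
  obtain ⟨L0, hL0⟩ : ∃ L0 : ℝ, 1 ≤ L0 ∧ ∀ L, L0 ≤ L →
      24 * m * exp (m * Γ * L ^ α) ≤ exp L := by
    have h1 : Filter.Tendsto (fun L : ℝ => L ^ (1 - α)) Filter.atTop Filter.atTop :=
      tendsto_rpow_atTop (by linarith)
    have h2 := (h1.eventually_ge_atTop (m * Γ + Real.log (24 * m))).and
      (Filter.eventually_ge_atTop 1)
    obtain ⟨L1, hL1⟩ := Filter.eventually_atTop.1 h2
    refine ⟨max L1 1, le_max_right _ _, ?_⟩
    intro L hL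
    have hL1' := hL1 L ((le_max_left _ _).trans hL)
    have hL11 : 1 ≤ L := hL1'.2
    have h3 : 0 < L ^ α := Real.rpow_pos_of_pos (by linarith) _
    have h4 : 1 ≤ L ^ α := Real.one_le_rpow hL11 hα.le
    have h5 : L = L ^ (1 - α) * L ^ α := by
      rw [← Real.rpow_add (by linarith)]
      simp
    have hlog : 0 ≤ Real.log (24 * m) := Real.log_nonneg (by linarith)
    have h6 : Real.log (24 * m) + m * Γ * L ^ α ≤ L := by
      rw [h5]
      have h7 : (m * Γ + Real.log (24 * m)) * L ^ α ≤ L ^ (1 - α) * L ^ α :=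
        mul_le_mul_of_nonneg_right hL1'.1 h3.le
      have h8 : L ^ ((1 : ℝ) - α) * L ^ α = L := h5.symm
      rw [h8] at h7 ⊢
      nlinarith
    calc 24 * m * exp (m * Γ * L ^ α) = exp (Real.log (24 * m)) * exp (m * Γ * L ^ α) := by
          rw [Real.exp_log (by linarith)]
      _ = exp (Real.log (24 * m) + m * Γ * L ^ α) := by rw [Real.exp_add]
      _ ≤ exp L := Real.exp_le_exp.2 h6
  set A : ℝ := s * exp L0 + 344 * s * t * m with hA
  have hA0 : 0 ≤ A := by positivity
  have hαeq : 1 - 1 / ((s : ℝ) + 3 * t + 1) = α := by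
    have hms : (m : ℝ) = s + 3 * t := by
      rw [hm]
      push_cast
      ring
    rw [hαdef, hms]
    have : (0 : ℝ) < (s : ℝ) + 3 * t + 1 := by positivity
    field_simp
    ring
  refine ⟨A, c, hA0, hc0, ?_⟩
  rw [hαeq]
  intro ι _ M R
  -- strong induction on the cardinality
  induction hcard : R.card using Nat.strong_induction_on generalizing R with
  | _ n ih =>
    have IH : ∀ R' ⊆ R, R'.card < R.card →
        (Setup.NN M R' 0 : ℝ) ≤ A * (R'.card : ℝ) ^ 2 * exp (c * (Real.log R'.card) ^ α) := by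
      intro R' _ hlt
      exact ih R'.card (by rw [← hcard]; exact hlt) R' rfl
    rw [← hcard]
    clear ih hcard
    set L := Real.log R.card with hLdef
    by_cases hbig : L0 ≤ L
    swap
    · push Not at hbig
      have h1 := Setup.NN_trivial (M := M) R 0
      have h1' : (Setup.NN M R 0 : ℝ) ≤ s * (R.card : ℝ) ^ 3 := by exact_mod_cast h1
      rcases Nat.eq_zero_or_pos R.card with h0 | h0
      · rw [h0] at h1' ⊢
        simpa using h1'
      have h0' : (0 : ℝ) < R.card := by exact_mod_cast h0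
      have h2 : (R.card : ℝ) ≤ exp L0 := by
        rw [← Real.exp_log h0']
        exact Real.exp_le_exp.2 hbig.le
      have hLnn : 0 ≤ L := Real.log_nonneg (by exact_mod_cast h0)
      have h3 : 1 ≤ exp (c * L ^ α) := by
        rw [← Real.exp_zero]
        apply Real.exp_le_exp.2
        have := Real.rpow_nonneg hLnn α
        positivity
      calc (Setup.NN M R 0 : ℝ) ≤ s * (R.card : ℝ) ^ 3 := h1'
        _ = s * (R.card : ℝ) * (R.card : ℝ) ^ 2 := by ring
        _ ≤ s * exp L0 * (R.card : ℝ) ^ 2 := by gcongr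
        _ ≤ A * (R.card : ℝ) ^ 2 := by
            apply mul_le_mul_of_nonneg_right ?_ (by positivity)
            have : (0 : ℝ) ≤ 344 * s * t * m := by positivity
            linarith
        _ = A * (R.card : ℝ) ^ 2 * 1 := by ring
        _ ≤ _ := mul_le_mul_of_nonneg_left h3 (by positivity)
    · obtain ⟨hL01, hL02⟩ := hL0
      have hL1 : 1 ≤ L := hL01.trans hbig
      have hn0 : (0 : ℝ) < R.card := by
        rcases Nat.eq_zero_or_pos R.card with h0 | h0
        · exfalso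
          rw [hLdef, h0] at hL1
          simp at hL1
          linarith
        · exact_mod_cast h0
      have hexpL : exp L = R.card := Real.exp_log hn0
      have hbig2 := hL02 L hbig
      rw [hexpL] at hbig2
      have hkapm : kap Γ β L m = exp (m * Γ * L ^ α) := by
        unfold kap
        rw [hmβ]
      have hthrm := thr_le hΓ hβ hL1 m
      rw [hkapm] at hthrm
      set b : ℕ := m * (2 * thr Γ β L m) with hb
      have hthr1 : 1 ≤ thr Γ β L m := by
        obtain ⟨m', rfl⟩ := Nat.exists_eq_add_of_le' hm1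
        exact thr_pos hΓ hβ hL1 m'
      have hb1 : 1 ≤ b := by
        rw [hb]
        have := Nat.mul_le_mul hm1 (Nat.mul_le_mul (by norm_num : 1 ≤ 2) hthr1)
        simpa using this
      have h6b : 6 * b ≤ R.card := by
        have h7 : ((6 * b : ℕ) : ℝ) ≤ R.card := by
          rw [hb]
          push_cast
          have h8 : (m : ℝ) * (thr Γ β L m : ℝ) ≤ m * (2 * exp (m * Γ * L ^ α)) :=
            mul_le_mul_of_nonneg_left hthrm (by positivity)
          nlinarith
        exact_mod_cast h7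
      have hrec := Setup.comb_rec (M := M) R (thr Γ β L) (thr_mono hΓ hβ hL1)
      rw [← hm, ← hb] at hrec
      have hψ1 : exp (m * Γ * L ^ α) ≤ exp (c * L ^ α) := by
        apply Real.exp_le_exp.2
        exact mul_le_mul_of_nonneg_right hc (Real.rpow_nonneg (by linarith) _)
      set ψ := exp (c * L ^ α) with hψ
      have hψ0 : 0 < ψ := Real.exp_pos _
      have hlongs : ∀ j ∈ Finset.range m,
          ((Setup.LongF M R (thr Γ β L j) (thr Γ β L (j + 1))).card : ℝ) ≤
            4617 * A * (R.card : ℝ) ^ 2 * ψ * exp (-Γ) := by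
        intro j hj
        rw [Finset.mem_range] at hj
        refine Setup.long_bound R hΓ hβ hL1 hα hα1.le hαβ hA0 hc0 hcα1 hLdef j ?_ IH
        have h9 := thr_mono hΓ hβ hL1 (by omega : j + 1 ≤ m)
        have h10 : thr Γ β L m ≤ b := by
          rw [hb]
          nlinarith
        omega
      have hlow := Setup.low_bound (M := M) R hb1 h6b
      have hrec' : (Setup.NN M R 0 : ℝ) ≤ s * (∑ j ∈ Finset.range m,
          ((Setup.LongF M R (thr Γ β L j) (thr Γ β L (j + 1))).card : ℝ) +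
          ((Setup.LowF M R b).card : ℝ)) := by exact_mod_cast hrec
      have hsum : ∑ j ∈ Finset.range m,
          ((Setup.LongF M R (thr Γ β L j) (thr Γ β L (j + 1))).card : ℝ) ≤
          m * (4617 * A * (R.card : ℝ) ^ 2 * ψ * exp (-Γ)) := by
        calc _ ≤ ∑ j ∈ Finset.range m, (4617 * A * (R.card : ℝ) ^ 2 * ψ * exp (-Γ)) :=
              Finset.sum_le_sum hlongs
          _ = _ := by
            rw [Finset.sum_const, Finset.card_range, nsmul_eq_mul]
      have hlow' : ((Setup.LowF M R b).card : ℝ) ≤ 172 * t * m * ψ * (R.card : ℝ) ^ 2 := by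
        refine hlow.trans ?_
        have hbr : (b : ℝ) ≤ 4 * m * ψ := by
          rw [hb]
          push_cast
          have h8 : (m : ℝ) * (thr Γ β L m : ℝ) ≤ m * (2 * ψ) :=
            mul_le_mul_of_nonneg_left (hthrm.trans (by linarith)) (by positivity)
          linarith
        calc 43 * (b : ℝ) * t * (R.card : ℝ) ^ 2 ≤ 43 * (4 * m * ψ) * t * (R.card : ℝ) ^ 2 := by
              gcongr
          _ = _ := by ring
      have hsmall : (s : ℝ) * m * 4617 * exp (-Γ) ≤ 1 / 2 := by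
        rw [Real.exp_neg, hΓexp, ← div_eq_mul_inv, div_le_iff₀ (by linarith)]
        nlinarith
      have hA2 : (s : ℝ) * (172 * t * m) ≤ A / 2 := by
        have : (0 : ℝ) ≤ s * exp L0 := by positivity
        rw [hA]
        nlinarith
      calc (Setup.NN M R 0 : ℝ) ≤ s * (m * (4617 * A * (R.card : ℝ) ^ 2 * ψ * exp (-Γ)) +
            172 * t * m * ψ * (R.card : ℝ) ^ 2) := by
              refine hrec'.trans (mul_le_mul_of_nonneg_left ?_ (by positivity))
              exact add_le_add hsum hlow'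
        _ = ((s : ℝ) * m * 4617 * exp (-Γ)) * (A * (R.card : ℝ) ^ 2 * ψ) +
            (s * (172 * t * m)) * ((R.card : ℝ) ^ 2 * ψ) := by ring
        _ ≤ (1 / 2) * (A * (R.card : ℝ) ^ 2 * ψ) + (A / 2) * ((R.card : ℝ) ^ 2 * ψ) := by
            apply add_le_add
            · exact mul_le_mul_of_nonneg_right hsmall (by positivity)
            · exact mul_le_mul_of_nonneg_right hA2 (by positivity)
        _ = A * (R.card : ℝ) ^ 2 * ψ := by ring

end Run7.h605
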